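import Mathlib

set_option autoImplicit false
open Pointwise

namespace Pool.Agent.H179Z.APC

section
variable {G : Type*} [Group G]

/-- `Y` splits into classes that are `L`-bounded and `F`-disjoint. -/
def Sep (F L Y : Set G) : Prop :=
  ∃ E : Setoid G, (∀ a ∈ Y, ∀ b ∈ Y, a⁻¹ * b ∈ F → E a b) ∧
    (∀ a ∈ Y, ∀ b ∈ Y, E a b → a⁻¹ * b ∈ L)

lemma Sep.mono {F F' L L' Y Y' : Set G} (h : Sep F L Y) (hF : F' ⊆ F) (hL : L ⊆ L')
    (hY : Y' ⊆ Y) : Sep F' L' Y' := by
  obtain ⟨E, h1, h2⟩ := h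
  exact ⟨E, fun a ha b hb hab => h1 a (hY ha) b (hY hb) (hF hab),
    fun a ha b hb hab => hL (h2 a (hY ha) b (hY hb) hab)⟩

lemma sep_empty (F L : Set G) : Sep F L ∅ :=
  ⟨⊤, fun _ ha => ha.elim, fun _ ha => ha.elim⟩

def sym (F : Set G) : Set G := F ∪ F⁻¹ ∪ {1}

def big (F L : Set G) : Set G := sym F * (L ∪ {1}) * sym F

lemma sym_finite {F : Set G} (h : F.Finite) : (sym F).Finite :=
  (h.union h.inv).union (Set.finite_singleton _)

lemma big_finite {F L : Set G} (h : F.Finite) (hL : L.Finite) : (big F L).Finite :=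
  ((sym_finite h).mul (hL.union (Set.finite_singleton _))).mul (sym_finite h)

lemma one_mem_sym (F : Set G) : (1 : G) ∈ sym F := Or.inr rfl

lemma mem_sym {F : Set G} {x : G} (h : x ∈ F) : x ∈ sym F := Or.inl (Or.inl h)

lemma inv_mem_sym {F : Set G} {x : G} (h : x ∈ sym F) : x⁻¹ ∈ sym F := by
  rcases h with (h | h) | h
  · exact Or.inl (Or.inr (by simpa using h))
  · exact Or.inl (Or.inl (by simpa using h))
  · have : x = 1 := h
    subst this
    simpa using one_mem_sym F

lemma mem_big {F L : Set G} {x y z : G} (hx : x ∈ sym F) (hy : y ∈ L ∪ {1}) (hz : z ∈ sym F) :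
    x * y * z ∈ big F L := Set.mul_mem_mul (Set.mul_mem_mul hx hy) hz

lemma sep_union {F L L' Y Y' : Set G} (h : Sep F L Y) (h' : Sep (big F L) L' Y') :
    Sep F (L ∪ big F L * L' * big F L) (Y ∪ Y') := by
  classical
  obtain ⟨E, h1, h2⟩ := h
  obtain ⟨E', h1', h2'⟩ := h'
  let An : G → G → Prop := fun y w => w ∈ Y' ∧ (y = w ∨ (y ∈ Y ∧ ∃ z ∈ Y, E y z ∧ z⁻¹ * w ∈ sym F))
  have one1 : (1 : G) ∈ L ∪ {1} := Or.inr rfl
  have hA1 : ∀ y w, An y w → y⁻¹ * w ∈ big F L := by
    rintro y w ⟨_, rfl | ⟨hy, z, hz, hE, hzw⟩⟩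
    · simpa using mem_big (one_mem_sym F) one1 (one_mem_sym F)
    · have := mem_big (one_mem_sym F) (Or.inl (h2 y hy z hz hE)) hzw
      simpa [mul_assoc] using this
  have hA2 : ∀ y w, An y w → w⁻¹ * y ∈ big F L := by
    rintro y w ⟨_, rfl | ⟨hy, z, hz, hE, hzw⟩⟩
    · simpa using mem_big (one_mem_sym F) one1 (one_mem_sym F)
    · have := mem_big (inv_mem_sym hzw) (Or.inl (h2 z hz y hy (E.symm hE))) (one_mem_sym F)
      simpa [mul_assoc] using this
  have hA3 : ∀ y w w', An y w → An y w' → E' w w' := by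
    intro y w w' hw hw'
    apply h1' w hw.1 w' hw'.1
    rcases hw with ⟨hw0, rfl | ⟨hy, z, hz, hE, hzw⟩⟩
    · exact hA1 _ _ hw'
    · rcases hw' with ⟨hw0', rfl | ⟨_, z', hz', hE', hzw'⟩⟩
      · exact hA2 _ _ ⟨hw0, Or.inr ⟨hy, z, hz, hE, hzw⟩⟩
      · have := mem_big (inv_mem_sym hzw)
          (Or.inl (h2 z hz z' hz' (E.trans (E.symm hE) hE'))) hzw'
        simpa [mul_assoc] using this
  let lab : G → Quotient E ⊕ Quotient E' := fun y =>
    if h : ∃ w, An y w then Sum.inr (Quotient.mk E' h.choose) else Sum.inl (Quotient.mk E y)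
  have hl1 : ∀ y w, An y w → lab y = Sum.inr (Quotient.mk E' w) := by
    intro y w hw
    have hex : ∃ w, An y w := ⟨w, hw⟩
    simp only [lab, dif_pos hex]
    congr 1
    exact Quotient.sound (hA3 y _ _ hex.choose_spec hw)
  have hl2 : ∀ y, (¬ ∃ w, An y w) → lab y = Sum.inl (Quotient.mk E y) := by
    intro y hy
    simp only [lab, dif_neg hy]
  have hself : ∀ y ∈ Y', An y y := fun y hy => ⟨hy, Or.inl rfl⟩
  have hmix : ∀ a ∈ Y, ∀ b ∈ Y', a⁻¹ * b ∈ sym F → lab a = lab b := by
    intro a ha b hb hab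
    rw [hl1 a b ⟨hb, Or.inr ⟨ha, a, ha, E.refl a, hab⟩⟩, hl1 b b (hself b hb)]
  have hYY : ∀ a ∈ Y, ∀ b ∈ Y, a⁻¹ * b ∈ sym F → E a b → (∃ w, An a w) → lab a = lab b := by
    rintro a ha b hb hab hE ⟨w, hw0, rfl | ⟨_, z, hz, hEz, hzw⟩⟩
    · exact (hmix b hb a hw0 (by simpa using inv_mem_sym hab)).symm
    · rw [hl1 a w ⟨hw0, Or.inr ⟨ha, z, hz, hEz, hzw⟩⟩,
        hl1 b w ⟨hw0, Or.inr ⟨hb, z, hz, E.trans (E.symm hE) hEz, hzw⟩⟩]
  refine ⟨Setoid.ker lab, ?_, ?_⟩
  · intro a ha b hb hab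
    change lab a = lab b
    rcases ha with ha | ha <;> rcases hb with hb | hb
    · have hE := h1 a ha b hb hab
      by_cases hA : ∃ w, An a w
      · exact hYY a ha b hb (mem_sym hab) hE hA
      · by_cases hB : ∃ w, An b w
        · exact (hYY b hb a ha (by simpa using inv_mem_sym (mem_sym hab)) (E.symm hE) hB).symm
        · rw [hl2 a hA, hl2 b hB]
          congr 1
          exact Quotient.sound hE
    · exact hmix a ha b hb (mem_sym hab)
    · exact (hmix b hb a ha (by simpa using inv_mem_sym (mem_sym hab))).symm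
    · rw [hl1 a a (hself a ha), hl1 b b (hself b hb)]
      congr 1
      apply Quotient.sound
      apply h1' a ha b hb
      simpa using mem_big (mem_sym hab) one1 (one_mem_sym F)
  · intro a ha b hb hab
    change lab a = lab b at hab
    by_cases hA : ∃ w, An a w <;> by_cases hB : ∃ w, An b w
    · obtain ⟨w, hw⟩ := hA
      obtain ⟨w', hw'⟩ := hB
      rw [hl1 a w hw, hl1 b w' hw'] at hab
      have hE : E' w w' := Quotient.exact (Sum.inr.inj hab)
      right
      have := Set.mul_mem_mul (Set.mul_mem_mul (hA1 a w hw) (h2' w hw.1 w' hw'.1 hE)) (hA2 b w' hw')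
      simpa [mul_assoc] using this
    · obtain ⟨w, hw⟩ := hA
      rw [hl1 a w hw, hl2 b hB] at hab
      cases hab
    · obtain ⟨w, hw⟩ := hB
      rw [hl2 a hA, hl1 b w hw] at hab
      cases hab
    · rw [hl2 a hA, hl2 b hB] at hab
      have hE : E a b := Quotient.exact (Sum.inl.inj hab)
      left
      have ha' : a ∈ Y := ha.resolve_right fun h => hA ⟨a, hself a h⟩
      have hb' : b ∈ Y := hb.resolve_right fun h => hB ⟨b, hself b h⟩
      exact h2 a ha' b hb' hE

end

lemma wf_tree {α : Type*} (Q : ℕ → (ℕ → α) → Prop)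
    (base : ∀ R : ℕ → α, ∃ l, ∀ s, (∀ i < l, s i = R i) → Q l s)
    (step : ∀ l s, (∀ r, Q (l + 1) (Function.update s l r)) → Q l s) (s0 : ℕ → α) : Q 0 s0 := by
  classical
  by_contra h0
  have hs : ∀ l s, ∃ r, ¬ Q l s → ¬ Q (l + 1) (Function.update s l r) := by
    intro l s
    by_cases h : Q l s
    · exact ⟨s 0, fun h' => (h' h).elim⟩
    · by_contra hc
      push Not at hc
      exact h (step l s fun r => (hc r).2)
  choose r hr using hs
  let S : ℕ → ℕ → α := fun l => Nat.rec s0 (fun l s => Function.update s l (r l s)) l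
  have hS : ∀ l, S (l + 1) = Function.update (S l) l (r l (S l)) := fun l => rfl
  have hn : ∀ l, ¬ Q l (S l) := by
    intro l
    induction l with
    | zero => exact h0
    | succ l ih => rw [hS]; exact hr l _ ih
  have hst : ∀ l i, i < l → S l i = S (i + 1) i := by
    intro l
    induction l with
    | zero => intro i hi; omega
    | succ l ih =>
      intro i hi
      by_cases h : i = l
      · subst h; rfl
      · rw [hS l, Function.update_of_ne h]
        exact ih i (by omega)
  obtain ⟨l, hl⟩ := base fun i => S (i + 1) i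
  exact hn l (hl _ fun i hi => hst l i hi)

section
variable {G : Type*} [Group G]

/-- Asymptotic property C, finite-set form. -/
def GAPC (G : Type*) [Group G] : Prop :=
  ∀ F : ℕ → Set G, (∀ i, (F i).Finite) → ∃ n : ℕ, ∃ L : Set G, L.Finite ∧
    ∃ Y : ℕ → Set G, (∀ x, ∃ i < n, x ∈ Y i) ∧ ∀ i < n, Sep (F i) L (Y i)

def PP {κ : Type*} (w : ℕ → G → κ) (m : ℕ → G → ℕ) (l : ℕ)
    (s : ℕ → {F : Set G // F.Finite}) : Prop :=
  ∀ A : Set G, (∀ i < l, ∀ a ∈ A, ∀ b ∈ A, m i a = m i b) →
    ∀ t : ℕ → Set G, (∀ i, (t i).Finite) →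
      ∃ hgt : ℕ, ∃ L : ℕ → Set G, (∀ i, (L i).Finite) ∧ ∃ Y : ℕ → Set G, (∀ i, Y i ⊆ A) ∧
        (∀ x ∈ A, ∃ i < hgt, x ∈ Y i) ∧
        ∀ i c, Sep (if i < l then (s i).1 else t i) (L i) (Y i ∩ {g | w i g = c})

lemma pp_step {β κ : Type*} (f : G → β) (w : ℕ → G → κ) (m : ℕ → G → ℕ) (M : ℕ → ℕ)
    (hM : ∀ i g, m i g < M i) (hm : ∀ i a b, f a = f b → m i a = m i b)
    (hw : ∀ i a b, w i a = w i b → m i a = m i b → f a = f b)
    (l : ℕ) (s : ℕ → {F : Set G // F.Finite})
    (h : ∀ r, PP w m (l + 1) (Function.update s l r)) : PP w m l s := by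
  classical
  intro A hA t ht
  have key : ∀ K : ℕ, ∃ hgt : ℕ, ∃ L : ℕ → Set G, (∀ i, (L i).Finite) ∧ ∃ Y : ℕ → Set G,
      (∀ i, Y i ⊆ A ∩ {g | m l g < K}) ∧ (∀ x ∈ A ∩ {g | m l g < K}, ∃ i < hgt, x ∈ Y i) ∧
        ∀ i c, Sep (if i < l then (s i).1 else t i) (L i) (Y i ∩ {g | w i g = c}) := by
    intro K
    induction K with
    | zero =>
      refine ⟨0, fun _ => ∅, fun _ => Set.finite_empty, fun _ => ∅, fun _ => Set.empty_subset _,
        ?_, ?_⟩
      · intro x hx
        exact absurd hx.2 (by simp)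
      · intro i c
        simpa using sep_empty _ _
    | succ K ih =>
      obtain ⟨hgt, L, hL, Y, hYA, hcov, hsep⟩ := ih
      obtain ⟨hgt', L', hL', Y', hYA', hcov', hsep'⟩ :=
        h ⟨big (t l) (L l), big_finite (ht l) (hL l)⟩ (A ∩ {g | m l g = K}) (by
          intro i hi a ha b hb
          by_cases hil : i = l
          · subst hil
            exact ha.2.trans hb.2.symm
          · exact hA i (by omega) a ha.1 b hb.1)
          (fun i => big (t i) (L i)) (fun i => big_finite (ht i) (hL i))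
      refine ⟨max hgt hgt',
        fun i => L i ∪ L' i ∪ big (t i) (L i) * L' i * big (t i) (L i), ?_,
        fun i => Y i ∪ Y' i, ?_, ?_, ?_⟩
      · intro i
        exact ((hL i).union (hL' i)).union
          (((big_finite (ht i) (hL i)).mul (hL' i)).mul (big_finite (ht i) (hL i)))
      · intro i x hx
        rcases hx with hx | hx
        · exact ⟨(hYA i hx).1, Nat.lt_succ_of_lt (hYA i hx).2⟩
        · refine ⟨(hYA' i hx).1, ?_⟩
          have : m l x = K := (hYA' i hx).2
          change m l x < K + 1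
          omega
      · intro x hx
        have hx2 : m l x < K + 1 := hx.2
        by_cases hK : m l x = K
        · obtain ⟨i, hi, hxi⟩ := hcov' x ⟨hx.1, hK⟩
          exact ⟨i, lt_of_lt_of_le hi (le_max_right _ _), Or.inr hxi⟩
        · obtain ⟨i, hi, hxi⟩ := hcov x ⟨hx.1, by change m l x < K; omega⟩
          exact ⟨i, lt_of_lt_of_le hi (le_max_left _ _), Or.inl hxi⟩
      · intro i c
        have h1 := hsep i c
        have h2 := hsep' i c
        by_cases hil : i < l
        · have hne : i ≠ l := by omega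
          rw [if_pos hil] at h1 ⊢
          rw [if_pos (by omega), Function.update_of_ne hne] at h2
          by_cases hex : ∃ a, a ∈ Y i ∧ w i a = c
          · obtain ⟨a, ha, hac⟩ := hex
            refine h1.mono subset_rfl (fun x hx => Or.inl (Or.inl hx)) ?_
            rintro b ⟨hb | hb, hbc⟩
            · exact ⟨hb, hbc⟩
            · exfalso
              have hf : f a = f b := hw i a b (hac.trans hbc.symm)
                (hA i hil a (hYA i ha).1 b (hYA' i hb).1)
              have e1 := hm l a b hf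
              have e2 : m l a < K := (hYA i ha).2
              have e3 : m l b = K := (hYA' i hb).2
              omega
          · refine h2.mono subset_rfl (fun x hx => Or.inl (Or.inr hx)) ?_
            rintro b ⟨hb | hb, hbc⟩
            · exact (hex ⟨b, hb, hbc⟩).elim
            · exact ⟨hb, hbc⟩
        · rw [if_neg hil] at h1 ⊢
          have h2' : Sep (big (t i) (L i)) (L' i) (Y' i ∩ {g | w i g = c}) := by
            by_cases he : i = l
            · subst he
              rw [if_pos (by omega), Function.update_self] at h2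
              exact h2
            · rw [if_neg (by omega)] at h2
              exact h2
          refine (sep_union h1 h2').mono subset_rfl ?_ ?_
          · rintro x (hx | hx)
            · exact Or.inl (Or.inl hx)
            · exact Or.inr hx
          · rw [Set.union_inter_distrib_right]
  obtain ⟨hgt, L, hL, Y, hYA, hcov, hsep⟩ := key (M l)
  exact ⟨hgt, L, hL, Y, fun i x hx => (hYA i hx).1, fun x hx => hcov x ⟨hx, hM l x⟩, hsep⟩

lemma pp_zero {β κ : Type*} (f : G → β) (w : ℕ → G → κ) (m : ℕ → G → ℕ) (M : ℕ → ℕ)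
    (hM : ∀ i g, m i g < M i) (hm : ∀ i a b, f a = f b → m i a = m i b)
    (hw : ∀ i a b, w i a = w i b → m i a = m i b → f a = f b)
    (fib : ∀ s : ℕ → Set G, (∀ i, (s i).Finite) → ∃ l : ℕ, ∃ L : Set G, L.Finite ∧
      ∃ Z : ℕ → Set G, (∀ x, ∃ i < l, x ∈ Z i) ∧
        ∀ i < l, ∀ y, Sep (s i) L (Z i ∩ {g | f g = y}))
    (s : ℕ → {F : Set G // F.Finite}) : PP w m 0 s := by
  classical
  apply wf_tree (PP w m) _ (pp_step f w m M hM hm hw)
  intro R
  obtain ⟨l, L, hL, Z, hcov, hsep⟩ := fib (fun i => (R i).1) fun i => (R i).2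
  refine ⟨l, fun s hs A hA t ht => ⟨l, fun _ => L, fun _ => hL,
    fun i => if i < l then Z i ∩ A else ∅, ?_, ?_, ?_⟩⟩
  · intro i
    by_cases hi : i < l
    · simp only [if_pos hi]
      exact Set.inter_subset_right
    · simp only [if_neg hi]
      exact Set.empty_subset _
  · intro x hx
    obtain ⟨i, hi, hxi⟩ := hcov x
    refine ⟨i, hi, ?_⟩
    simp only [if_pos hi]
    exact ⟨hxi, hx⟩
  · intro i c
    by_cases hi : i < l
    · simp only [if_pos hi]
      rw [hs i hi]
      by_cases hex : ∃ a, a ∈ Z i ∩ A ∩ {g | w i g = c}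
      · obtain ⟨a, ha⟩ := hex
        refine (hsep i hi (f a)).mono subset_rfl subset_rfl ?_
        intro b hb
        exact ⟨hb.1.1, hw i b a (hb.2.trans ha.2.symm) (hA i hi b hb.1.2 a ha.1.2)⟩
      · refine (sep_empty _ _).mono subset_rfl subset_rfl ?_
        intro b hb
        exact hex ⟨b, hb⟩
    · simp only [if_neg hi]
      simpa using sep_empty _ _

/-- Fibering theorem. -/
theorem fibering {β κ : Type*} (f : G → β)
    (fib : ∀ s : ℕ → Set G, (∀ i, (s i).Finite) → ∃ l : ℕ, ∃ L : Set G, L.Finite ∧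
      ∃ Z : ℕ → Set G, (∀ x, ∃ i < l, x ∈ Z i) ∧
        ∀ i < l, ∀ y, Sep (s i) L (Z i ∩ {g | f g = y}))
    (base : ∀ R : ℕ → Set G, (∀ i, (R i).Finite) → ∃ n M : ℕ, ∃ col m : G → ℕ, ∃ w : G → κ,
      (∀ g, col g < n) ∧ (∀ g, m g < M) ∧ (∀ a b, f a = f b → m a = m b) ∧
      (∀ a b, w a = w b → m a = m b → f a = f b) ∧
      (∀ a b, col a = col b → a⁻¹ * b ∈ R (col a) → w a = w b)) : GAPC G := by
  classical
  intro R hR
  choose n M col m w hcol hM hm hw hsep using
    fun i => base (fun j => R (Nat.pair i j)) fun j => hR _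
  obtain ⟨hgt, L, hL, Y, -, hcov, hY⟩ := pp_zero f w m M hM hm hw fib
    (fun _ => ⟨∅, Set.finite_empty⟩) Set.univ (fun i hi => absurd hi (by simp))
    (fun i => ⋃ j ∈ Set.Iio (n i), R (Nat.pair i j))
    (fun i => (Set.finite_Iio _).biUnion fun j _ => hR _)
  let N : ℕ := (Finset.range hgt).sup (fun i => (Finset.range (n i)).sup fun j => Nat.pair i j) + 1
  refine ⟨N, ⋃ c ∈ Set.Iio N, L (Nat.unpair c).1, (Set.finite_Iio _).biUnion fun c _ => hL _,
    fun c => Y (Nat.unpair c).1 ∩ {g | col (Nat.unpair c).1 g = (Nat.unpair c).2}, ?_, ?_⟩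
  · intro x
    obtain ⟨i, hi, hxi⟩ := hcov x trivial
    refine ⟨Nat.pair i (col i x), ?_, ?_⟩
    · apply Nat.lt_succ_of_le
      refine le_trans ?_ (Finset.le_sup (f := fun i => (Finset.range (n i)).sup
        fun j => Nat.pair i j) (Finset.mem_range.2 hi))
      exact Finset.le_sup (f := fun j => Nat.pair i j) (Finset.mem_range.2 (hcol i x))
    · simp [Nat.unpair_pair, hxi]
  · intro c hc
    obtain ⟨i, j, rfl⟩ : ∃ i j, c = Nat.pair i j := ⟨_, _, (Nat.pair_unpair c).symm⟩
    have hLsub : L i ⊆ ⋃ c ∈ Set.Iio N, L (Nat.unpair c).1 := by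
      intro x hx
      simp only [Set.mem_iUnion]
      exact ⟨Nat.pair i j, hc, by simpa [Nat.unpair_pair] using hx⟩
    refine Sep.mono (L := L i) (F := R (Nat.pair i j)) (Y := Y i ∩ {g | col i g = j}) ?_
      subset_rfl hLsub (by simp [Nat.unpair_pair])
    have hYi := hY i
    simp only [Nat.not_lt_zero, if_false] at hYi
    choose E hE1 hE2 using hYi
    refine ⟨Setoid.ker fun a => (w i a, {b | E (w i a) a b}), ?_, ?_⟩
    · intro a ha b hb hab
      have ha2 : col i a = j := ha.2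
      have hb2 : col i b = j := hb.2
      have hwab : w i a = w i b := hsep i a b (ha2.trans hb2.symm) (by rw [ha2]; exact hab)
      have hE : E (w i a) a b := by
        apply hE1 (w i a) a ⟨ha.1, rfl⟩ b ⟨hb.1, hwab.symm⟩
        simp only [Set.mem_iUnion]
        exact ⟨j, by rw [← ha2]; exact hcol i a, hab⟩
      change (w i a, {b | E (w i a) a b}) = (w i b, {x | E (w i b) b x})
      rw [← hwab]
      congr 1
      ext x
      exact ⟨fun h => (E _).trans ((E _).symm hE) h, fun h => (E _).trans hE h⟩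
    · intro a ha b hb hab
      change (w i a, {b | E (w i a) a b}) = (w i b, {x | E (w i b) b x}) at hab
      have h1 : w i a = w i b := congrArg Prod.fst hab
      have h2 : {b | E (w i a) a b} = {x | E (w i b) b x} := congrArg Prod.snd hab
      apply hE2 (w i a) a ⟨ha.1, rfl⟩ b ⟨hb.1, h1.symm⟩
      have : b ∈ {x | E (w i b) b x} := (E _).refl b
      rw [← h2] at this
      exact this

end

end Pool.Agent.H179Z.APC
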