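import Mathlib
import Pool.Agent.H179Z.APCBase

set_option autoImplicit false
open Pointwise

namespace Pool.Agent.H179Z.APC

lemma exists_idx {H : Type*} {L : Set H} (hL : L.Finite) :
    ∃ M : ℕ, ∃ idx : H → ℕ, (∀ x, idx x < M) ∧ Set.InjOn idx L := by
  classical
  refine ⟨hL.toFinset.toList.length + 1, fun x => hL.toFinset.toList.idxOf x, ?_, ?_⟩
  · intro x
    exact Nat.lt_succ_of_le List.idxOf_le_length
  · intro x hx y _ hxy
    have hx' : x ∈ hL.toFinset.toList := by simpa using hx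
    exact (List.idxOf_inj hx').1 hxy

theorem GAPC.of_injective {K P : Type*} [Group K] [Group P] (φ : K →* P)
    (hφ : Function.Injective φ) (h : GAPC P) : GAPC K := by
  intro F hF
  obtain ⟨n, L, hL, Y, hcov, hsep⟩ := h (fun i => φ '' F i) fun i => (hF i).image _
  refine ⟨n, φ ⁻¹' L, hL.preimage hφ.injOn, fun i => φ ⁻¹' Y i, fun x => hcov (φ x), ?_⟩
  intro i hi
  obtain ⟨E, h1, h2⟩ := hsep i hi
  refine ⟨E.comap φ, ?_, ?_⟩
  · intro a ha b hb hab
    exact h1 _ ha _ hb ⟨_, hab, by simp⟩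
  · intro a ha b hb hab
    have := h2 _ ha _ hb hab
    simpa using this

theorem GAPC.ext {G H : Type*} [Group G] [Group H] (f : G →* H) (hH : GAPC H)
    (hK : GAPC f.ker) : GAPC G := by
  classical
  apply fibering (κ := Set H) f
  · intro s hs
    obtain ⟨l, L, hL, Y, hcov, hsep⟩ := hK (fun i => Subtype.val ⁻¹' s i)
      fun i => (hs i).preimage Subtype.val_injective.injOn
    have hσ : ∀ g : G, f (Function.invFun f (f g)) = f g := fun g =>
      Function.invFun_eq ⟨g, rfl⟩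
    let k : G → f.ker := fun g => ⟨(Function.invFun f (f g))⁻¹ * g, by
      simp [MonoidHom.mem_ker, hσ g]⟩
    have hk : ∀ a b : G, f a = f b → (((k a)⁻¹ * k b : f.ker) : G) = a⁻¹ * b := by
      intro a b hab
      simp [k, hab, mul_assoc]
    refine ⟨l, Subtype.val '' L, hL.image _, fun i => k ⁻¹' Y i, fun x => hcov (k x), ?_⟩
    intro i hi y
    obtain ⟨E, h1, h2⟩ := hsep i hi
    refine ⟨E.comap k, ?_, ?_⟩
    · intro a ha b hb hab
      have hf : f a = f b := ha.2.trans hb.2.symm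
      apply h1 _ ha.1 _ hb.1
      change (((k a)⁻¹ * k b : f.ker) : G) ∈ s i
      rw [hk a b hf]
      exact hab
    · intro a ha b hb hab
      have hf : f a = f b := ha.2.trans hb.2.symm
      exact ⟨_, h2 _ ha.1 _ hb.1 hab, hk a b hf⟩
  · intro R hR
    obtain ⟨n, L, hL, Y, hcov, hsep⟩ := hH (fun i => f '' R i) fun i => (hR i).image _
    choose col hcol hY using hcov
    have hsep' : ∀ i, ∃ E : Setoid H, i < n →
        (∀ a ∈ Y i, ∀ b ∈ Y i, a⁻¹ * b ∈ f '' R i → E a b) ∧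
        (∀ a ∈ Y i, ∀ b ∈ Y i, E a b → a⁻¹ * b ∈ L) := by
      intro i
      by_cases hi : i < n
      · obtain ⟨E, hE⟩ := hsep i hi
        exact ⟨E, fun _ => hE⟩
      · exact ⟨⊤, fun h => (hi h).elim⟩
    choose E hE using hsep'
    obtain ⟨M, idx, hM, hidx⟩ := exists_idx hL
    let cls : H → Set H := fun h => {x | col x = col h ∧ E (col h) h x}
    let bp : Set H → H := fun S => Classical.epsilon fun x => x ∈ S
    have hself : ∀ h, h ∈ cls h := fun h => ⟨rfl, (E _).refl h⟩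
    have hbp : ∀ h, bp (cls h) ∈ cls h := fun h =>
      Classical.epsilon_spec (p := fun x => x ∈ cls h) ⟨h, hself h⟩
    have hmem : ∀ h, (bp (cls h))⁻¹ * h ∈ L := by
      intro h
      obtain ⟨h1, h2⟩ := hbp h
      refine (hE (col h) (hcol h)).2 _ ?_ _ (hY h) ((E _).symm h2)
      rw [← h1]
      exact hY _
    refine ⟨n, M, fun g => col (f g), fun g => idx ((bp (cls (f g)))⁻¹ * f g),
      fun g => cls (f g), fun g => hcol _, fun g => hM _, ?_, ?_, ?_⟩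
    · intro a b hab
      simp only [hab]
    · intro a b hw hm
      have := hidx (hmem (f a)) (hmem (f b)) hm
      simp only at hw
      rw [hw] at this
      exact mul_left_cancel this
    · intro a b hc hab
      simp only at hc hab ⊢
      have hEab : E (col (f a)) (f a) (f b) := by
        refine (hE _ (hcol _)).1 _ (hY _) _ (by rw [hc]; exact hY _) ⟨_, hab, by simp⟩
      ext x
      change (col x = col (f a) ∧ E (col (f a)) (f a) x) ↔
        (col x = col (f b) ∧ E (col (f b)) (f b) x)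
      rw [← hc]
      exact ⟨fun h => ⟨h.1, (E (col (f a))).trans' ((E (col (f a))).symm' hEab) h.2⟩,
        fun h => ⟨h.1, (E (col (f a))).trans' hEab h.2⟩⟩

/-- From families of sets to `Sep`. -/
lemma sep_of_family {G : Type*} [Group G] (F L : Set G) (U : Set (Set G))
    (hb : ∀ A ∈ U, ∀ x ∈ A, ∀ y ∈ A, x⁻¹ * y ∈ L)
    (hs : ∀ A ∈ U, ∀ A' ∈ U, A ≠ A' → ∀ x ∈ A, ∀ y ∈ A', x⁻¹ * y ∉ F) :
    Sep F L (⋃₀ U) := by
  classical
  have : ∀ x : G, ∃ A : Set G, x ∈ ⋃₀ U → A ∈ U ∧ x ∈ A := by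
    intro x
    by_cases hx : x ∈ ⋃₀ U
    · obtain ⟨A, hA, hxA⟩ := hx
      exact ⟨A, fun _ => ⟨hA, hxA⟩⟩
    · exact ⟨∅, fun h => (hx h).elim⟩
  choose p hp using this
  refine ⟨Setoid.ker p, ?_, ?_⟩
  · intro a ha b hb' hab
    by_contra hne
    exact hs _ (hp a ha).1 _ (hp b hb').1 hne a (hp a ha).2 b (hp b hb').2 hab
  · intro a ha b hb' hab
    have hab' : p a = p b := hab
    exact hb _ (hp a ha).1 a (hp a ha).2 b (hab' ▸ (hp b hb').2)

/-- From `Sep` to families of sets. -/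
lemma family_of_sep {G : Type*} [Group G] {F L Y : Set G} (h : Sep F L Y) :
    ∃ U : Set (Set G), (∀ A ∈ U, ∀ x ∈ A, ∀ y ∈ A, x⁻¹ * y ∈ L) ∧
      (∀ A ∈ U, ∀ A' ∈ U, A ≠ A' → ∀ x ∈ A, ∀ y ∈ A', x⁻¹ * y ∉ F) ∧
      ∀ x ∈ Y, ∃ A ∈ U, x ∈ A := by
  obtain ⟨E, h1, h2⟩ := h
  refine ⟨{A | ∃ a, A = {x | x ∈ Y ∧ E a x}}, ?_, ?_, ?_⟩
  · rintro A ⟨a, rfl⟩ x hx y hy
    exact h2 x hx.1 y hy.1 (E.trans (E.symm hx.2) hy.2)
  · rintro A ⟨a, rfl⟩ A' ⟨a', rfl⟩ hne x hx y hy hxy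
    apply hne
    have hE : E a a' := E.trans hx.2 (E.trans (h1 x hx.1 y hy.1 hxy) (E.symm hy.2))
    ext z
    exact ⟨fun h => ⟨h.1, E.trans (E.symm hE) h.2⟩, fun h => ⟨h.1, E.trans hE h.2⟩⟩
  · intro x hx
    exact ⟨_, ⟨x, rfl⟩, hx, E.refl x⟩

lemma gapc_of_metric {G : Type*} [Group G] (d : G → G → ℝ)
    (hinv : ∀ g x y, d (g * x) (g * y) = d x y) (hprop : ∀ r : ℝ, {x : G | d 1 x ≤ r}.Finite)
    (h : ∀ R : ℕ → ℝ, (∀ i, 0 < R i) → ∃ n : ℕ, ∃ U : ℕ → Set (Set G),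
      (∀ i < n, ∃ B : ℝ, ∀ V ∈ U i, ∀ x ∈ V, ∀ y ∈ V, d x y ≤ B) ∧
      (∀ i < n, ∀ V ∈ U i, ∀ W ∈ U i, V ≠ W → ∀ x ∈ V, ∀ y ∈ W, R i < d x y) ∧
      (∀ x : G, ∃ i < n, ∃ V ∈ U i, x ∈ V)) : GAPC G := by
  intro F hF
  have hd : ∀ x y : G, d 1 (x⁻¹ * y) = d x y := by
    intro x y
    rw [← hinv x]
    simp
  have hR : ∀ i, ∃ r : ℝ, 0 < r ∧ ∀ x ∈ F i, d 1 x ≤ r := by
    intro i
    obtain ⟨r, hr⟩ := ((hF i).image (d 1)).bddAbove
    exact ⟨max r 1, by positivity, fun x hx => le_trans (hr ⟨x, hx, rfl⟩) (le_max_left _ _)⟩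
  choose R hR0 hR using hR
  obtain ⟨n, U, hb, hs, hc⟩ := h R hR0
  choose! B hB using hb
  refine ⟨n, ⋃ i ∈ Set.Iio n, {x | d 1 x ≤ B i}, (Set.finite_Iio _).biUnion fun i _ => hprop _,
    fun i => ⋃₀ U i, ?_, ?_⟩
  · intro x
    obtain ⟨i, hi, V, hV, hx⟩ := hc x
    exact ⟨i, hi, V, hV, hx⟩
  · intro i hi
    apply sep_of_family
    · intro A hA x hx y hy
      simp only [Set.mem_iUnion]
      refine ⟨i, hi, ?_⟩
      change d 1 (x⁻¹ * y) ≤ B i
      rw [hd]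
      exact hB i hi A hA x hx y hy
    · intro A hA A' hA' hne x hx y hy hxy
      have h1 := hs i hi A hA A' hA' hne x hx y hy
      have h2 := hR i _ hxy
      rw [hd] at h2
      linarith

lemma metric_of_gapc {G : Type*} [Group G] (d : G → G → ℝ)
    (hinv : ∀ g x y, d (g * x) (g * y) = d x y) (hprop : ∀ r : ℝ, {x : G | d 1 x ≤ r}.Finite)
    (h : GAPC G) (R : ℕ → ℝ) : ∃ n : ℕ, ∃ U : ℕ → Set (Set G), ∃ B : ℝ,
      (∀ i < n, ∀ A ∈ U i, ∀ x ∈ A, ∀ y ∈ A, d x y ≤ B) ∧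
      (∀ i < n, ∀ A ∈ U i, ∀ A' ∈ U i, A ≠ A' → ∀ x ∈ A, ∀ y ∈ A', R i < d x y) ∧
      (∀ x : G, ∃ i < n, ∃ A ∈ U i, x ∈ A) := by
  have hd : ∀ x y : G, d 1 (x⁻¹ * y) = d x y := by
    intro x y
    rw [← hinv x]
    simp
  obtain ⟨n, L, hL, Y, hcov, hsep⟩ := h (fun i => {x | d 1 x ≤ R i}) fun i => hprop _
  have hsep' := fun i hi => family_of_sep (hsep i hi)
  choose! U hU1 hU2 hU3 using hsep'
  obtain ⟨B, hB⟩ := (hL.image (d 1)).bddAbove
  refine ⟨n, U, B, ?_, ?_, ?_⟩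
  · intro i hi A hA x hx y hy
    rw [← hd]
    exact hB ⟨_, hU1 i hi A hA x hx y hy, rfl⟩
  · intro i hi A hA A' hA' hne x hx y hy
    have := hU2 i hi A hA A' hA' hne x hx y hy
    rw [← hd]
    exact lt_of_not_ge this
  · intro x
    obtain ⟨i, hi, hx⟩ := hcov x
    obtain ⟨A, hA, hxA⟩ := hU3 i hi x hx
    exact ⟨i, hi, A, hA, hxA⟩

theorem GAPC.semidirect {N H : Type*} [Group N] [Group H] (φ : H →* MulAut N) (hN : GAPC N)
    (hH : GAPC H) : GAPC (N ⋊[φ] H) := by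
  apply GAPC.ext SemidirectProduct.rightHom hH
  let ψ : (SemidirectProduct.rightHom : N ⋊[φ] H →* H).ker →* N :=
    { toFun := fun g => g.1.left
      map_one' := rfl
      map_mul' := by
        intro a b
        have ha : a.1.right = 1 := a.2
        simp [ha] }
  refine GAPC.of_injective ψ ?_ hN
  intro a b hab
  have ha : a.1.right = 1 := a.2
  have hb : b.1.right = 1 := b.2
  apply Subtype.ext
  exact SemidirectProduct.ext hab (ha.trans hb.symm)

theorem GAPC.prod {N H : Type*} [Group N] [Group H] (hN : GAPC N) (hH : GAPC H) :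
    GAPC (N × H) := by
  apply GAPC.ext (MonoidHom.snd N H) hH
  refine GAPC.of_injective ((MonoidHom.fst N H).comp (MonoidHom.snd N H).ker.subtype) ?_ hN
  intro a b hab
  have ha : a.1.2 = 1 := a.2
  have hb : b.1.2 = 1 := b.2
  apply Subtype.ext
  exact Prod.ext hab (ha.trans hb.symm)

end Pool.Agent.H179Z.APC
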