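import Mathlib
import Pool.Agent.H179Z.APCExt

set_option autoImplicit false
open Pointwise

namespace Pool.Agent.H179Z.APC

lemma finite_lists {β : Type*} {S : Set β} (hS : S.Finite) (N : ℕ) :
    {l : List β | l.length ≤ N ∧ ∀ p ∈ l, p ∈ S}.Finite := by
  induction N with
  | zero =>
    refine (Set.finite_singleton []).subset ?_
    rintro l ⟨hl, -⟩
    exact List.length_eq_zero_iff.1 (by omega)
  | succ N ih =>
    refine ((Set.finite_singleton []).union (Set.Finite.image2 List.cons hS ih)).subset ?_
    rintro l ⟨hl, hl'⟩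
    cases l with
    | nil => exact Or.inl rfl
    | cons x l =>
      right
      refine ⟨x, hl' x (by simp), l, ⟨by simpa using hl, fun p hp => hl' p (by simp [hp])⟩, rfl⟩

section
variable {α : Type*} [DecidableEq α]

lemma word_step (x : α × Bool) (g : FreeGroup α) :
    (FreeGroup.mk [x] * g).toWord = x :: g.toWord ∨
      ∃ y, g.toWord = y :: (FreeGroup.mk [x] * g).toWord := by
  have h : FreeGroup.mk [x] * g = FreeGroup.mk (x :: g.toWord) := by
    conv_lhs => rw [← FreeGroup.mk_toWord (x := g)]
    rw [FreeGroup.mul_mk]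
    rfl
  rw [h, FreeGroup.toWord_mk, FreeGroup.reduce.cons, FreeGroup.reduce_toWord]
  cases hg : g.toWord with
  | nil => left; rfl
  | cons y l =>
    by_cases hc : x.1 = y.1 ∧ x.2 = !y.2
    · right
      exact ⟨y, by simp [hc]⟩
    · left
      simp only [if_neg hc]

lemma word_suffix (l : List (α × Bool)) (g : FreeGroup α) :
    ∃ p p' c : List (α × Bool), g.toWord = p ++ c ∧ (FreeGroup.mk l * g).toWord = p' ++ c ∧
      p.length ≤ l.length ∧ p'.length ≤ l.length := by
  induction l with
  | nil =>
    refine ⟨[], [], g.toWord, rfl, ?_, le_rfl, le_rfl⟩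
    have : (FreeGroup.mk [] : FreeGroup α) = 1 := rfl
    simp [this]
  | cons x l ih =>
    obtain ⟨p, p', c, h1, h2, h3, h4⟩ := ih
    have h : FreeGroup.mk (x :: l) * g = FreeGroup.mk [x] * (FreeGroup.mk l * g) := by
      rw [← mul_assoc, FreeGroup.mul_mk]
      rfl
    rw [h]
    rcases word_step x (FreeGroup.mk l * g) with h5 | ⟨y, h5⟩
    · exact ⟨p, x :: p', c, h1, by rw [h5, h2]; rfl, by simp; omega, by simp; omega⟩
    · rw [h2] at h5
      cases p' with
      | nil =>
        refine ⟨p ++ [y], [], (FreeGroup.mk [x] * (FreeGroup.mk l * g)).toWord, ?_, rfl,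
          by simp; omega, by simp⟩
        simp only [List.nil_append] at h5
        rw [h1, h5]
        simp
      | cons z q =>
        simp only [List.cons_append, List.cons.injEq] at h5
        refine ⟨p, q, c, h1, h5.2.symm, by simp; omega, ?_⟩
        simp at h4 ⊢
        omega

end

theorem gapc_free (α : Type*) : GAPC (FreeGroup α) := by
  classical
  intro F hF
  have hF2 : (F 0 ∪ F 1).Finite := (hF 0).union (hF 1)
  obtain ⟨r, hr⟩ := (hF2.image FreeGroup.norm).bddAbove
  let S : Set α := ⋃ g ∈ F 0 ∪ F 1, Prod.fst '' {p | p ∈ g.toWord}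
  have hS : S.Finite := hF2.biUnion fun g _ => (List.finite_toSet _).image _
  let T : Subgroup (FreeGroup α) := Subgroup.closure (F 0 ∪ F 1)
  have hT : ∀ g ∈ T, ∀ p ∈ g.toWord, p.1 ∈ S := by
    intro g hg
    induction hg using Subgroup.closure_induction with
    | mem g hg =>
      intro p hp
      simp only [S, Set.mem_iUnion]
      exact ⟨g, hg, p, hp, rfl⟩
    | one => intro p hp; simp at hp
    | mul a b _ _ ha hb =>
      intro p hp
      have := (FreeGroup.toWord_mul_sublist a b).subset hp
      rcases List.mem_append.1 this with h | h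
      · exact ha p h
      · exact hb p h
    | inv a _ ha =>
      intro p hp
      rw [FreeGroup.toWord_inv] at hp
      simp only [FreeGroup.invRev, List.mem_reverse, List.mem_map] at hp
      obtain ⟨q, hq, rfl⟩ := hp
      exact ha q hq
  let u : FreeGroup α → List (α × Bool) := fun a => (a⁻¹).toWord
  let q : FreeGroup α → ℕ := fun a => (u a).length / (r + 1)
  refine ⟨2, {g | g ∈ T ∧ g.norm ≤ 2 * (2 * r + 1)}, ?_, fun i => {a | q a % 2 = i}, ?_, ?_⟩
  · refine Set.Finite.of_finite_image (f := FreeGroup.toWord) ?_ FreeGroup.toWord_injective.injOn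
    refine (finite_lists (hS.prod (Set.finite_univ (α := Bool))) (2 * (2 * r + 1))).subset ?_
    rintro _ ⟨g, hg, rfl⟩
    exact ⟨hg.2, fun p hp => ⟨hT g hg.1 p hp, trivial⟩⟩
  · intro x
    exact ⟨q x % 2, Nat.mod_lt _ (by norm_num), rfl⟩
  · intro i hi
    refine ⟨Setoid.ker fun a => (q a, (u a).reverse.take (q a * (r + 1) - r),
      (QuotientGroup.mk a : FreeGroup α ⧸ T)), ?_, ?_⟩
    · intro a ha b hb hab
      have hmem : a⁻¹ * b ∈ F 0 ∪ F 1 := by
        interval_cases i
        · exact Or.inl hab
        · exact Or.inr hab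
      have hn : (a⁻¹ * b)⁻¹.toWord.length ≤ r := by
        have := hr ⟨_, hmem, rfl⟩
        rw [← FreeGroup.norm_inv_eq] at this
        exact this
      obtain ⟨p, p', c, h1, h2, h3, h4⟩ := word_suffix (a⁻¹ * b)⁻¹.toWord a⁻¹
      rw [FreeGroup.mk_toWord] at h2
      have h2' : u b = p' ++ c := by
        rw [← h2]
        simp [u]
      have h1' : u a = p ++ c := h1
      have la : (u a).length = p.length + c.length := by rw [h1']; simp
      have lb : (u b).length = p'.length + c.length := by rw [h2']; simp
      have ha' : q a % 2 = i := ha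
      have hb' : q b % 2 = i := hb
      have e1 : q a * (r + 1) ≤ (u a).length := Nat.div_mul_le_self _ _
      have e2 : q b * (r + 1) ≤ (u b).length := Nat.div_mul_le_self _ _
      have e3 : (u a).length < (q a + 1) * (r + 1) := by
        rw [mul_comm]; exact Nat.lt_mul_div_succ _ (by omega)
      have e4 : (u b).length < (q b + 1) * (r + 1) := by
        rw [mul_comm]; exact Nat.lt_mul_div_succ _ (by omega)
      have hq : q a = q b := by
        by_contra hne
        rcases Nat.lt_or_gt_of_ne hne with h | h
        · have : q a + 2 ≤ q b := by omega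
          have := Nat.mul_le_mul_right (r + 1) this
          nlinarith
        · have : q b + 2 ≤ q a := by omega
          have := Nat.mul_le_mul_right (r + 1) this
          nlinarith
      change (q a, _, _) = (q b, _, _)
      rw [← hq]
      have hk : q a * (r + 1) - r ≤ c.reverse.length := by
        rw [List.length_reverse]
        omega
      congr 2
      · rw [h1', h2', List.reverse_append, List.reverse_append, List.take_append_of_le_length hk,
          List.take_append_of_le_length hk]
      · exact QuotientGroup.eq.2 (Subgroup.subset_closure hmem)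
    · intro a _ b _ hab
      change (q a, _, _) = (q b, _, _) at hab
      simp only [Prod.mk.injEq] at hab
      obtain ⟨hq, ht, hc⟩ := hab
      refine ⟨QuotientGroup.eq.1 hc, ?_⟩
      have key : ∀ a : FreeGroup α, ∃ p : List (α × Bool), p.length ≤ 2 * r + 1 ∧
          a⁻¹ = FreeGroup.mk p *
            FreeGroup.mk ((u a).reverse.take (q a * (r + 1) - r)).reverse := by
        intro a
        refine ⟨((u a).reverse.drop (q a * (r + 1) - r)).reverse, ?_, ?_⟩
        · have e3 : (u a).length < (q a + 1) * (r + 1) := by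
            rw [mul_comm]; exact Nat.lt_mul_div_succ _ (by omega)
          rw [add_mul] at e3
          simp only [List.length_reverse, List.length_drop]
          omega
        · rw [FreeGroup.mul_mk, ← List.reverse_append, List.take_append_drop,
            List.reverse_reverse]
          exact FreeGroup.mk_toWord.symm
      obtain ⟨p, hp, ea⟩ := key a
      obtain ⟨p', hp', eb⟩ := key b
      rw [← ht] at eb
      have : a⁻¹ * b = FreeGroup.mk p * (FreeGroup.mk p')⁻¹ := by
        have hb : b = (b⁻¹)⁻¹ := (inv_inv b).symm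
        rw [hb, eb]
        conv_lhs => rw [ea]
        group
      rw [this]
      have n1 := FreeGroup.norm_mul_le (FreeGroup.mk p) (FreeGroup.mk p')⁻¹
      rw [FreeGroup.norm_inv_eq] at n1
      have n2 := FreeGroup.norm_mk_le (L₁ := p)
      have n3 := FreeGroup.norm_mk_le (L₁ := p')
      omega

/-- The action by conjugation on the free group over a group. -/
def actF {Q D : Type*} [Group Q] [Group D] (θ : D →* Q) : D →* MulAut (FreeGroup Q) where
  toFun d := FreeGroup.freeGroupCongr (MulAut.conj (θ d)).toEquiv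
  map_one' := by
    apply MulEquiv.toMonoidHom_injective
    ext x
    simp
  map_mul' a b := by
    apply MulEquiv.toMonoidHom_injective
    ext x
    simp [mul_assoc]

lemma actF_of {Q D : Type*} [Group Q] [Group D] (θ : D →* Q) (d : D) (x : Q) :
    actF θ d (FreeGroup.of x) = FreeGroup.of (θ d * x * (θ d)⁻¹) := by
  simp [actF]

def evalF {Q D : Type*} [Group Q] [Group D] (θ : D →* Q) : FreeGroup Q ⋊[actF θ] D →* Q :=
  SemidirectProduct.lift (FreeGroup.lift id) θ (by
    intro d
    ext x
    simp [actF_of])

lemma evalF_inl {Q D : Type*} [Group Q] [Group D] (θ : D →* Q) (x : Q) :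
    evalF θ (SemidirectProduct.inl (FreeGroup.of x)) = x := by
  simp [evalF]

lemma evalF_inr {Q D : Type*} [Group Q] [Group D] (θ : D →* Q) (d : D) :
    evalF θ (SemidirectProduct.inr d) = θ d := by
  simp [evalF]

lemma gapc_of_subsingleton {G : Type*} [Group G] [Subsingleton G] : GAPC G := by
  intro F _
  refine ⟨1, Set.univ, Set.toFinite _, fun _ => Set.univ, fun x => ⟨0, by norm_num, trivial⟩, ?_⟩
  intro i _
  exact ⟨⊤, fun _ _ _ _ _ => trivial, fun _ _ _ _ _ => trivial⟩

theorem gapc_graphProduct (V : Type) [Fintype V] (Γ : SimpleGraph V) (G : V → Type)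
    [∀ v, Group (G v)] (H : Type) [Group H] (ι : ∀ v, G v →* H)
    (hc : ∀ v w, Γ.Adj v w → ∀ (g : G v) (h : G w), Commute (ι v g) (ι w h))
    (hu : ∀ (K : Type) [Group K] (φ : ∀ v, G v →* K),
        (∀ v w, Γ.Adj v w → ∀ (g : G v) (h : G w), Commute (φ v g) (φ w h)) →
        ∃! f : H →* K, ∀ v, f.comp (ι v) = φ v)
    (hv : ∀ v, GAPC (G v)) : GAPC H := by
  classical
  let A : Finset V → Subgroup H := fun S => Subgroup.closure (⋃ w ∈ S, Set.range (ι w))
  have hA : ∀ S : Finset V, ∀ w ∈ S, ∀ g, ι w g ∈ A S := by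
    intro S w hw g
    apply Subgroup.subset_closure
    simp only [Set.mem_iUnion]
    exact ⟨w, hw, g, rfl⟩
  have main : ∀ S : Finset V, GAPC (A S) := by
    intro S
    induction S using Finset.induction_on with
    | empty =>
      have : A ∅ = ⊥ := by simp [A]
      rw [this]
      exact gapc_of_subsingleton
    | insert v S hvS ih =>
      let θ : A S × G v →* Equiv.Perm (H × G v) :=
        (MulAction.toPermHom (H × G v) (H × G v)).comp
          (MonoidHom.prodMap (A S).subtype (MonoidHom.id _))
      have hθ : ∀ (d : A S × G v) (ω : H × G v), θ d ω = ((d.1 : H) * ω.1, d.2 * ω.2) :=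
        fun d ω => rfl
      let x0 : Equiv.Perm (H × G v) :=
        { toFun := fun ω => (ι v ω.2 * ω.1, ω.2)
          invFun := fun ω => ((ι v ω.2)⁻¹ * ω.1, ω.2)
          left_inv := fun ω => by simp
          right_inv := fun ω => by simp }
      have hx0 : ∀ ω : H × G v, x0 ω = (ι v ω.2 * ω.1, ω.2) := fun ω => rfl
      have hx1 : ∀ ω : H × G v, x0⁻¹ ω = ((ι v ω.2)⁻¹ * ω.1, ω.2) := fun ω => rfl
      let K := FreeGroup (Equiv.Perm (H × G v)) ⋊[actF θ] (A S × G v)
      let x : K := SemidirectProduct.inl (FreeGroup.of x0)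
      let φv : G v →* K := (MulAut.conj x).toMonoidHom.comp
        (SemidirectProduct.inr.comp (MonoidHom.inr _ _))
      let φ0 : ∀ w, G w →* K := fun w =>
        if h : w ∈ S then SemidirectProduct.inr.comp
          ((MonoidHom.inl _ _).comp ((ι w).codRestrict (A S) (hA S w h))) else 1
      let φ : ∀ w, G w →* K := Function.update φ0 v φv
      have hφv : ∀ g, φ v g = x * SemidirectProduct.inr (1, g) * x⁻¹ := by
        intro g
        simp only [φ, Function.update_self]
        rfl
      have hφS : ∀ w (hw : w ∈ S) g, φ w g = SemidirectProduct.inr (⟨ι w g, hA S w hw g⟩, 1) := by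
        intro w hw g
        have hne : w ≠ v := fun h => hvS (h ▸ hw)
        simp only [φ, Function.update_of_ne hne, φ0, dif_pos hw]
        rfl
      have hφN : ∀ w, w ≠ v → w ∉ S → ∀ g, φ w g = 1 := by
        intro w hne hw g
        simp only [φ, Function.update_of_ne hne, φ0, dif_neg hw]
        rfl
      have hcv : ∀ w, Γ.Adj v w → ∀ (g : G v) (h : G w), Commute (φ v g) (φ w h) := by
        intro w hvw g h
        by_cases hw : w ∈ S
        · rw [hφv, hφS w hw]
          have c1 : Commute x (SemidirectProduct.inr (⟨ι w h, hA S w hw h⟩, 1) : K) := by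
            have e : actF θ (⟨ι w h, hA S w hw h⟩, 1) (FreeGroup.of x0) = FreeGroup.of x0 := by
              rw [actF_of]
              congr 1
              rw [mul_inv_eq_iff_eq_mul]
              ext1 ω
              simp only [Equiv.Perm.mul_apply, hθ, hx0, one_mul]
              rw [← mul_assoc, ← mul_assoc, (hc v w hvw ω.2 h).eq]
            have e2 := SemidirectProduct.inl_aut (φ := actF θ) (⟨ι w h, hA S w hw h⟩, 1)
              (FreeGroup.of x0)
            rw [e, map_inv, eq_mul_inv_iff_mul_eq] at e2
            exact e2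
          have c2 : Commute (SemidirectProduct.inr (1, g) : K)
              (SemidirectProduct.inr (⟨ι w h, hA S w hw h⟩, 1) : K) := by
            apply Commute.map
            simp [Commute, SemiconjBy]
          exact (c1.mul_left c2).mul_left c1.inv_left
        · rw [hφN w hvw.ne.symm hw]
          exact Commute.one_right _
      obtain ⟨Φ, hΦ, -⟩ := hu K φ (by
        intro a b hab g h
        by_cases ha : a = v
        · subst ha
          exact hcv b hab g h
        · by_cases hb : b = v
          · subst hb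
            exact (hcv a hab.symm h g).symm
          · by_cases haS : a ∈ S
            · by_cases hbS : b ∈ S
              · rw [hφS a haS, hφS b hbS]
                apply Commute.map
                have := (hc a b hab g h).eq
                simp [Commute, SemiconjBy, this]
              · rw [hφN b hb hbS]
                exact Commute.one_right _
            · rw [hφN a ha haS]
              exact Commute.one_left _)
      have hΦ' : ∀ w g, Φ (ι w g) = φ w g := fun w g => DFunLike.congr_fun (hΦ w) g
      have hact : ∀ a ∈ A (insert v S), ∀ ω : H × G v, (evalF θ (Φ a) ω).1 = a * ω.1 := by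
        intro a ha
        induction ha using Subgroup.closure_induction with
        | mem a ha =>
          simp only [Set.mem_iUnion] at ha
          obtain ⟨w, hw, g, rfl⟩ := ha
          intro ω
          rw [hΦ']
          rcases Finset.mem_insert.1 hw with rfl | hw
          · rw [hφv, map_mul, map_mul, map_inv, evalF_inl, evalF_inr]
            simp only [Equiv.Perm.mul_apply, hθ, hx0, hx1]
            simp [mul_assoc]
          · rw [hφS w hw, evalF_inr, hθ]
        | one => intro ω; simp
        | mul a b _ _ ha hb =>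
          intro ω
          rw [map_mul, map_mul, Equiv.Perm.mul_apply, ha, hb, mul_assoc]
        | inv a _ ha =>
          intro ω
          have := ha ((evalF θ (Φ a))⁻¹ ω)
          rw [map_inv, map_inv, eq_inv_mul_iff_mul_eq, ← this]
          simp
      refine GAPC.of_injective (Φ.comp (A (insert v S)).subtype) ?_
        (GAPC.semidirect (actF θ) (gapc_free _) (GAPC.prod ih (hv v)))
      rw [injective_iff_map_eq_one]
      intro a ha
      have h1 := hact a.1 a.2 (1, 1)
      have h2 : Φ a.1 = 1 := ha
      rw [h2] at h1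
      apply Subtype.ext
      simpa using h1.symm
  obtain ⟨f, hf, -⟩ := hu (A Finset.univ)
    (fun w => (ι w).codRestrict _ (hA _ w (Finset.mem_univ w))) (by
      intro a b hab g h
      apply Subtype.ext
      exact (hc a b hab g h).eq)
  obtain ⟨f0, -, hf0⟩ := hu H ι hc
  have e : (A Finset.univ).subtype.comp f = MonoidHom.id H := by
    rw [hf0 (MonoidHom.id H) fun w => rfl]
    apply hf0
    intro w
    rw [MonoidHom.comp_assoc, hf w]
    rfl
  refine GAPC.of_injective f ?_ (main _)
  intro a b hab
  have ha := DFunLike.congr_fun e a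
  have hb := DFunLike.congr_fun e b
  simp only [MonoidHom.comp_apply, MonoidHom.id_apply] at ha hb
  rw [← ha, ← hb, hab]

lemma gapc_of_finset {G : Type*} [Group G]
    (h : ∀ F : ℕ → Finset G, ∃ n : ℕ, ∃ 𝒰 : Fin n → Set (Set G), ∃ L : Finset G,
          (∀ i, ∀ U ∈ 𝒰 i, ∀ x ∈ U, ∀ y ∈ U, x⁻¹ * y ∈ L) ∧
          (∀ i : Fin n, ∀ U ∈ 𝒰 i, ∀ U' ∈ 𝒰 i, U ≠ U' →
            ∀ x ∈ U, ∀ y ∈ U', x⁻¹ * y ∉ F i.val) ∧
          (∀ x : G, ∃ i, ∃ U ∈ 𝒰 i, x ∈ U)) : GAPC G := by
  intro F hF
  obtain ⟨n, U, L, h1, h2, h3⟩ := h fun i => (hF i).toFinset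
  refine ⟨n, L, L.finite_toSet, fun i => if h : i < n then ⋃₀ U ⟨i, h⟩ else ∅, ?_, ?_⟩
  · intro x
    obtain ⟨i, A, hA, hx⟩ := h3 x
    refine ⟨i, i.2, ?_⟩
    simp only [dif_pos i.2]
    exact ⟨A, hA, hx⟩
  · intro i hi
    simp only [dif_pos hi]
    apply sep_of_family
    · exact h1 _
    · intro A hA A' hA' hne x hx y hy hxy
      exact h2 ⟨i, hi⟩ A hA A' hA' hne x hx y hy (by simpa using hxy)

lemma finset_of_gapc {G : Type*} [Group G] (h : GAPC G) (F : ℕ → Finset G) :
    ∃ n : ℕ, ∃ 𝒰 : Fin n → Set (Set G), ∃ L : Finset G,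
          (∀ i, ∀ U ∈ 𝒰 i, ∀ x ∈ U, ∀ y ∈ U, x⁻¹ * y ∈ L) ∧
          (∀ i : Fin n, ∀ U ∈ 𝒰 i, ∀ U' ∈ 𝒰 i, U ≠ U' →
            ∀ x ∈ U, ∀ y ∈ U', x⁻¹ * y ∉ F i.val) ∧
          (∀ x : G, ∃ i, ∃ U ∈ 𝒰 i, x ∈ U) := by
  obtain ⟨n, L, hL, Y, hcov, hsep⟩ := h (fun i => (F i : Set G)) fun i => (F i).finite_toSet
  have hsep' := fun i : Fin n => family_of_sep (hsep i i.2)
  choose U hU1 hU2 hU3 using hsep'
  refine ⟨n, U, hL.toFinset, ?_, ?_, ?_⟩
  · intro i A hA x hx y hy
    simpa using hU1 i A hA x hx y hy
  · intro i A hA A' hA' hne x hx y hy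
    simpa using hU2 i A hA A' hA' hne x hx y hy
  · intro x
    obtain ⟨i, hi, hx⟩ := hcov x
    obtain ⟨A, hA, hxA⟩ := hU3 ⟨i, hi⟩ x hx
    exact ⟨⟨i, hi⟩, A, hA, hxA⟩

end Pool.Agent.H179Z.APC
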