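import Pool.Agent.H179Z.PCABasic

/-!
Coalescing random walks as a probabilistic cellular automaton on `ℤ`. A cell holds an occupation
bit and an arrow bit. A particle stays if its arrow is off and jumps to the right if it is on;
particles on the same cell merge; all arrows are redrawn by fair coins. The automaton is uniformly
ergodic, and from the full configuration the density at time `t` is at least `1 / (t + 1)`.
-/

set_option autoImplicit false

open MeasureTheory ProbabilityTheory Filter Topology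
open scoped ENNReal

namespace Pool.Agent.H179Z.Coal

open Pool.Agent.H179Z.PCA

abbrev Site := Fin 1 → ℤ
abbrev Cfg := Site → Bool × Bool

def st (a : ℤ) : Site := fun _ => a

theorem st_eta (i : Site) : st (i 0) = i := by
  funext j
  rw [Subsingleton.elim j 0]
  rfl

theorem st_inj {a b : ℤ} (h : st a = st b) : a = b := congrFun h 0

def nb : Finset Site := {st 0, st (-1)}

theorem m0 : st 0 ∈ nb := by simp [nb]
theorem m1 : st (-1) ∈ nb := by simp [nb]

def g (u : nb → Bool × Bool) : Bool :=
  ((u ⟨st 0, m0⟩).1 && !(u ⟨st 0, m0⟩).2) || ((u ⟨st (-1), m1⟩).1 && (u ⟨st (-1), m1⟩).2)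

noncomputable def rule (u : nb → Bool × Bool) : PMF (Bool × Bool) :=
  (PMF.uniformOfFintype Bool).map (fun b => (g u, b))

def G (x : Cfg) (i : Site) : Bool := g (fun v => x (i + v.1))

theorem G_st (x : Cfg) (a : ℤ) : G x (st a) =
    (((x (st a)).1 && !(x (st a)).2) || ((x (st (a - 1))).1 && (x (st (a - 1))).2)) := by
  have h0 : st a + st 0 = st a := by funext j; simp [st]
  have h1 : st a + st (-1) = st (a - 1) := by funext j; simp [st]; ring
  simp only [G, g, h0, h1]

theorem measurable_G (i : Site) : Measurable (fun x : Cfg => G x i) :=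
  (measurable_of_countable g).comp (measurable_pi_lambda _ (fun _ => measurable_pi_apply _))

noncomputable def B : Measure (Site → Bool) :=
  Measure.infinitePi (fun _ => (PMF.uniformOfFintype Bool).toMeasure)

instance : IsProbabilityMeasure B := by unfold B; infer_instance

def Γ (y : Cfg) (β : Site → Bool) : Cfg := fun i => (G y i, β i)

theorem measurable_Γ (y : Cfg) : Measurable (Γ y) :=
  measurable_pi_lambda _ (fun i => measurable_const.prodMk (measurable_pi_apply i))

theorem K_eq (y : Cfg) : stepLaw nb rule y = B.map (Γ y) := by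
  have h1 := Measure.infinitePi_map_pi (fun _ : Site => (PMF.uniformOfFintype Bool).toMeasure)
    (f := fun i (b : Bool) => (G y i, b)) (fun i => measurable_of_countable _)
  unfold stepLaw B
  refine Eq.trans ?_ h1.symm
  congr 1
  funext i
  rw [rule, PMF.toMeasure_map _ _ (measurable_of_countable _)]
  rfl

def O (a b : ℤ) : Set Cfg := {y | ∃ i : ℤ, a ≤ i ∧ i < b ∧ (y (st i)).1 = true}

def W (a b : ℤ) : Set Cfg := {y | ∃ i : ℤ, a ≤ i ∧ i < b ∧ G y (st i) = true}

theorem measurableSet_O (a b : ℤ) : MeasurableSet (O a b) := by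
  unfold O
  measurability

theorem measurableSet_W (a b : ℤ) : MeasurableSet (W a b) := by
  have h : ∀ i : ℤ, Measurable (fun y : Cfg => G y (st i) = true) := fun i =>
    (measurable_of_countable (fun c : Bool => c = true)).comp (measurable_G (st i))
  rw [W, measurableSet_setOfPred]
  exact Measurable.exists (fun i => measurable_const.and (measurable_const.and (h i)))

def ι (b : Bool) : ℤ := if b then 1 else 0

theorem W_sub (a b : ℤ) (y : Cfg) (h : y ∈ W a b) :
    y ∈ O (a - ι (y (st (a - 1))).2) (b - ι (y (st (b - 1))).2) := by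
  obtain ⟨i, h1, h2, h3⟩ := h
  rw [G_st] at h3
  simp only [Bool.or_eq_true, Bool.and_eq_true, Bool.not_eq_true'] at h3
  have k1 : ∀ c, 0 ≤ ι c ∧ ι c ≤ 1 := by decide
  rcases h3 with ⟨h3, h4⟩ | ⟨h3, h4⟩
  · refine ⟨i, by linarith [(k1 (y (st (a - 1))).2).1], ?_, h3⟩
    by_cases hi : i = b - 1
    · rw [← hi, h4]
      simpa [ι] using h2
    · have := (k1 (y (st (b - 1))).2).2
      omega
  · refine ⟨i - 1, ?_, by have := (k1 (y (st (b - 1))).2).2; omega, h3⟩
    by_cases hi : i = a
    · rw [← hi, h4]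
      simp [ι]
    · have := (k1 (y (st (a - 1))).2).1
      omega

theorem B_one (i : Site) (p : Bool) : B ((fun β => β i) ⁻¹' {p}) = 2⁻¹ := by
  rw [← Measure.map_apply (measurable_pi_apply i) MeasurableSet.of_discrete, B,
    Measure.infinitePi_map_eval, PMF.toMeasure_apply_singleton _ _ MeasurableSet.of_discrete]
  simp

theorem B_two (i j : Site) (hij : i ≠ j) (p q : Bool) :
    B ((fun β => β i) ⁻¹' {p} ∩ (fun β => β j) ⁻¹' {q}) = 4⁻¹ := by
  have h1 : iIndepFun (fun (i : Site) (ω : Site → Bool) => ω i) B :=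
    iIndepFun_infinitePi (X := fun _ a => a) (fun _ => measurable_id)
  rw [(h1.indepFun hij).measure_inter_preimage_eq_mul _ _ MeasurableSet.of_discrete
    MeasurableSet.of_discrete, B_one, B_one, ← ENNReal.mul_inv (by simp) (by simp)]
  norm_num

theorem K_W (a b : ℤ) (hab : a ≠ b) (y : Cfg) :
    stepLaw nb rule y (W a b) ≤
      ∑ z : Bool × Bool, 4⁻¹ * (W (a - ι z.1) (b - ι z.2)).indicator 1 y := by
  classical
  rw [K_eq, Measure.map_apply (measurable_Γ y) (measurableSet_W a b)]
  let S : Bool × Bool → Set (Site → Bool) := fun z =>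
    if y ∈ W (a - ι z.1) (b - ι z.2) then
      (fun β => β (st (a - 1))) ⁻¹' {z.1} ∩ (fun β => β (st (b - 1))) ⁻¹' {z.2} else ∅
  have h1 : Γ y ⁻¹' W a b ⊆ ⋃ z, S z := by
    intro β hβ
    have h2 : y ∈ W (a - ι (β (st (a - 1)))) (b - ι (β (st (b - 1)))) := W_sub a b _ hβ
    refine Set.mem_iUnion.mpr ⟨(β (st (a - 1)), β (st (b - 1))), ?_⟩
    simp only [S]
    rw [if_pos h2]
    exact ⟨rfl, rfl⟩
  refine (measure_mono h1).trans ((measure_iUnion_fintype_le _ _).trans ?_)
  refine Finset.sum_le_sum (fun z _ => ?_)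
  simp only [S]
  split_ifs with h
  · rw [B_two _ _ (fun h => hab (by have := st_inj h; omega)), Set.indicator_of_mem h]
    simp
  · simp

theorem step_W (a b : ℤ) (hab : a ≠ b) (ν : Measure Cfg) [IsProbabilityMeasure ν] :
    (ν.bind (stepLaw nb rule)).real (W a b) ≤
      (ν.real (W a b) + ν.real (W a (b - 1)) + ν.real (W (a - 1) b) +
        ν.real (W (a - 1) (b - 1))) / 4 := by
  have h1 : ν.bind (stepLaw nb rule) (W a b) ≤
      ∑ z : Bool × Bool, 4⁻¹ * ν (W (a - ι z.1) (b - ι z.2)) := by
    rw [Measure.bind_apply (measurableSet_W a b) (measurable_stepLaw nb rule).aemeasurable]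
    refine (lintegral_mono (K_W a b hab)).trans (le_of_eq ?_)
    rw [lintegral_finsetSum _ (fun z _ =>
      (measurable_one.indicator (measurableSet_W _ _)).const_mul _)]
    refine Finset.sum_congr rfl (fun z _ => ?_)
    rw [lintegral_const_mul _ (measurable_one.indicator (measurableSet_W _ _)),
      lintegral_indicator_one (measurableSet_W _ _)]
  have h2 := ENNReal.toReal_mono (ENNReal.sum_ne_top.mpr (fun z _ =>
    ENNReal.mul_ne_top (by simp) (measure_ne_top _ _))) h1
  rw [ENNReal.toReal_sum (fun z _ => ENNReal.mul_ne_top (by simp) (measure_ne_top _ _))] at h2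
  simp only [Fintype.sum_prod_type, Fintype.sum_bool, ι, ENNReal.toReal_mul, ENNReal.toReal_inv,
    ENNReal.toReal_ofNat, if_true, Bool.false_eq_true, if_false, sub_zero] at h2
  simp only [measureReal_def]
  linarith

theorem bound_W (μ : Measure Cfg) [IsProbabilityMeasure μ] (K : ℕ) (hK : 1 ≤ K) (t : ℕ) :
    ∀ a b : ℤ, a ≤ b → b - a ≤ K → (evolve nb rule t μ).real (W a b) ≤
      ((b : ℝ) - a) / K + (1 - 1 / (2 * (K : ℝ) ^ 2)) ^ t * (((b : ℝ) - a) * (2 * K - (b - a))) := by
  have hK' : (1 : ℝ) ≤ K := by exact_mod_cast hK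
  have hr : 0 ≤ 1 - 1 / (2 * (K : ℝ) ^ 2) := by
    rw [sub_nonneg, div_le_one (by positivity)]
    nlinarith
  have hemp : ∀ (m : Measure Cfg) (a : ℤ), m.real (W a a) = 0 := by
    intro m a
    have : W a a = ∅ := by
      ext y
      simp only [W, Set.mem_ofPred_eq, Set.mem_empty_iff_false, iff_false]
      rintro ⟨i, h1, h2, -⟩
      omega
    rw [this, measureReal_empty]
  induction t with
  | zero =>
    intro a b h1 h2
    rcases h1.eq_or_lt with rfl | h1
    · simp [hemp]
    · have h3 : (1 : ℝ) ≤ (b : ℝ) - a := by exact_mod_cast (show (1 : ℤ) ≤ b - a by omega)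
      have h4 : (b : ℝ) - a ≤ K := by exact_mod_cast h2
      have h5 : (evolve nb rule 0 μ).real (W a b) ≤ 1 := measureReal_le_one
      have h6 : 0 ≤ ((b : ℝ) - a) / K := by positivity
      rw [pow_zero, one_mul]
      nlinarith
  | succ t ih =>
    intro a b h1 h2
    rcases h1.eq_or_lt with rfl | h1
    · simp [hemp]
    rcases h2.eq_or_lt with h2 | h2
    · have h4 : (b : ℝ) - a = K := by exact_mod_cast h2
      have h5 : (evolve nb rule (t + 1) μ).real (W a b) ≤ 1 := measureReal_le_one
      rw [h4, div_self (by positivity)]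
      have : 0 ≤ (1 - 1 / (2 * (K : ℝ) ^ 2)) ^ (t + 1) * ((K : ℝ) * (2 * K - K)) := by
        apply mul_nonneg (pow_nonneg hr _)
        nlinarith
      linarith
    rw [evolve_succ]
    refine (step_W a b h1.ne _).trans ?_
    have i1 := ih a b h1.le h2.le
    have i2 := ih a (b - 1) (by omega) (by omega)
    have i3 := ih (a - 1) b (by omega) (by omega)
    have i4 := ih (a - 1) (b - 1) (by omega) (by omega)
    push_cast at i2 i3 i4
    set L : ℝ := (b : ℝ) - a with hL
    have e2 : (b : ℝ) - 1 - a = L - 1 := by rw [hL]; ring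
    have e3 : (b : ℝ) - (a - 1) = L + 1 := by rw [hL]; ring
    have e4 : (b : ℝ) - 1 - (a - 1) = L := by rw [hL]; ring
    rw [e2] at i2
    rw [e3] at i3
    rw [e4] at i4
    set ρ : ℝ := (1 - 1 / (2 * (K : ℝ) ^ 2)) ^ t with hρ
    have hρ0 : 0 ≤ ρ := pow_nonneg hr t
    have h5 : L * (2 * K - L) - 1 / 2 ≤ (1 - 1 / (2 * (K : ℝ) ^ 2)) * (L * (2 * K - L)) := by
      have h6 : L * (2 * K - L) ≤ (K : ℝ) ^ 2 := by nlinarith [sq_nonneg (L - K)]
      have h7 : 1 / (2 * (K : ℝ) ^ 2) * (L * (2 * K - L)) ≤ 1 / 2 := by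
        rw [div_mul_eq_mul_div, one_mul, div_le_iff₀ (by positivity)]
        linarith
      linarith
    have h8 := mul_le_mul_of_nonneg_left h5 hρ0
    have h9 : (L / K + ρ * (L * (2 * K - L)) + ((L - 1) / K + ρ * ((L - 1) * (2 * K - (L - 1)))) +
        ((L + 1) / K + ρ * ((L + 1) * (2 * K - (L + 1)))) + (L / K + ρ * (L * (2 * K - L)))) / 4 =
        L / K + ρ * (L * (2 * K - L) - 1 / 2) := by ring
    rw [pow_succ, ← hρ, mul_assoc]
    linarith

def x₀ : Cfg := fun _ => (false, false)

noncomputable def π₀ : Measure Cfg := stepLaw nb rule x₀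

instance : IsProbabilityMeasure π₀ := by unfold π₀; infer_instance

theorem G_empty (y : Cfg) (hy : ∀ i, (y i).1 = false) (i : Site) : G y i = false := by
  rw [← st_eta i, G_st, hy, hy]
  rfl

theorem π₀_inv : IsInvariant nb rule π₀ := by
  refine ⟨inferInstance, ?_⟩
  ext s hs
  rw [Measure.bind_apply hs (measurable_stepLaw nb rule).aemeasurable]
  conv_lhs => rw [π₀, K_eq x₀]
  rw [lintegral_map (f := fun a => stepLaw nb rule a s)
    ((Measure.measurable_coe hs).comp (measurable_stepLaw nb rule)) (measurable_Γ x₀)]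
  have h1 : ∀ β, stepLaw nb rule (Γ x₀ β) = π₀ := by
    intro β
    have h2 : Γ (Γ x₀ β) = Γ x₀ := by
      funext β' i
      simp only [Γ]
      rw [G_empty _ (fun j => G_empty x₀ (fun _ => rfl) j), G_empty x₀ (fun _ => rfl)]
    rw [π₀, K_eq, K_eq, h2]
  simp [h1]

theorem cyl_close (ν : Measure Cfg) [IsProbabilityMeasure ν] (D : Finset Site) (u : Cfg) :
    |(ν.bind (stepLaw nb rule)).real (cyl D u) - π₀.real (cyl D u)| ≤
      ∑ i ∈ D, ν.real (W (i 0) (i 0 + 1)) := by
  let U : Set Cfg := ⋃ i ∈ D, W (i 0) (i 0 + 1)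
  have hU : MeasurableSet U := Finset.measurableSet_biUnion _ (fun _ _ => measurableSet_W _ _)
  have h1 : ∀ y, y ∉ U → stepLaw nb rule y (cyl D u) = π₀ (cyl D u) := by
    intro y hy
    rw [π₀, stepLaw_cyl, stepLaw_cyl]
    refine Finset.prod_congr rfl (fun i hi => ?_)
    have h2 : G y i = false := by
      by_contra h3
      apply hy
      refine Set.mem_biUnion hi ⟨i 0, le_rfl, by omega, ?_⟩
      rw [st_eta]
      simpa using h3
    have h3 : G x₀ i = false := G_empty x₀ (fun _ => rfl) i
    simp only [G] at h2 h3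
    simp only [rule, h2, h3]
  have hm : Measurable (fun y => stepLaw nb rule y (cyl D u)) :=
    (Measure.measurable_coe (measurableSet_cyl D u)).comp (measurable_stepLaw nb rule)
  have h2 : ν.bind (stepLaw nb rule) (cyl D u) ≤ π₀ (cyl D u) + ν U := by
    rw [Measure.bind_apply (measurableSet_cyl D u) (measurable_stepLaw nb rule).aemeasurable]
    calc _ ≤ ∫⁻ y, (π₀ (cyl D u) + U.indicator 1 y) ∂ν := by
          refine lintegral_mono (fun y => ?_)
          by_cases hy : y ∈ U
          · rw [Set.indicator_of_mem hy]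
            exact prob_le_one.trans le_add_self
          · rw [h1 y hy]
            exact le_self_add
      _ = _ := by
          rw [lintegral_add_left measurable_const, lintegral_indicator_one hU]
          simp
  have h3 : π₀ (cyl D u) ≤ ν.bind (stepLaw nb rule) (cyl D u) + ν U := by
    rw [Measure.bind_apply (measurableSet_cyl D u) (measurable_stepLaw nb rule).aemeasurable]
    calc _ = ∫⁻ _, π₀ (cyl D u) ∂ν := by simp
      _ ≤ ∫⁻ y, (stepLaw nb rule y (cyl D u) + U.indicator 1 y) ∂ν := by
          refine lintegral_mono (fun y => ?_)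
          by_cases hy : y ∈ U
          · rw [Set.indicator_of_mem hy]
            exact prob_le_one.trans le_add_self
          · rw [h1 y hy]
            exact le_self_add
      _ = _ := by
          rw [lintegral_add_left hm, lintegral_indicator_one hU]
  have := bind_prob nb rule ν
  have h2' := ENNReal.toReal_mono
    (ENNReal.add_ne_top.mpr ⟨measure_ne_top _ _, measure_ne_top _ _⟩) h2
  have h3' := ENNReal.toReal_mono
    (ENNReal.add_ne_top.mpr ⟨measure_ne_top _ _, measure_ne_top _ _⟩) h3
  rw [ENNReal.toReal_add (measure_ne_top _ _) (measure_ne_top _ _)] at h2' h3'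
  have h4 : ν.real U ≤ ∑ i ∈ D, ν.real (W (i 0) (i 0 + 1)) := measureReal_biUnion_finset_le _ _
  simp only [measureReal_def] at h4 ⊢
  rw [abs_le]
  constructor <;> linarith

theorem uniform_cyl (D : Finset Site) (u : Cfg) (ε : ℝ) (hε : 0 < ε) :
    ∃ T : ℕ, ∀ t, T ≤ t → ∀ μ : Measure Cfg, IsProbabilityMeasure μ →
      |(evolve nb rule t μ).real (cyl D u) - π₀.real (cyl D u)| ≤ ε := by
  obtain ⟨K, hK⟩ := exists_nat_gt (max 1 (2 * D.card / ε))
  have hK1 : (1 : ℝ) < K := (le_max_left _ _).trans_lt hK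
  have hK2 : 2 * D.card / ε < K := (le_max_right _ _).trans_lt hK
  have hK3 : 1 ≤ K := by exact_mod_cast hK1.le
  have hr0 : 0 ≤ 1 - 1 / (2 * (K : ℝ) ^ 2) := by
    rw [sub_nonneg, div_le_one (by positivity)]
    nlinarith
  have hr1 : 1 - 1 / (2 * (K : ℝ) ^ 2) < 1 := by
    have : 0 < 1 / (2 * (K : ℝ) ^ 2) := by positivity
    linarith
  have h1 := (tendsto_pow_atTop_nhds_zero_of_lt_one hr0 hr1).const_mul (D.card * (2 * K - 1) : ℝ)
  rw [mul_zero] at h1
  obtain ⟨T, hT⟩ := eventually_atTop.mp ((tendsto_order.mp h1).2 (ε / 2) (by positivity))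
  refine ⟨T + 1, fun t ht μ hμ => ?_⟩
  obtain ⟨s, rfl⟩ : ∃ s, t = s + 1 := ⟨t - 1, by omega⟩
  rw [evolve_succ]
  refine (cyl_close _ D u).trans ?_
  have h2 : ∀ i ∈ D, (evolve nb rule s μ).real (W (i 0) (i 0 + 1)) ≤
      1 / K + (1 - 1 / (2 * (K : ℝ) ^ 2)) ^ s * (2 * K - 1) := by
    intro i _
    have := bound_W μ K hK3 s (i 0) (i 0 + 1) (by omega) (by omega)
    push_cast at this
    simpa using this
  refine (Finset.sum_le_card_nsmul _ _ _ h2).trans ?_
  have h3 := hT s (by omega)
  have h4 : (D.card : ℝ) * (1 / K) ≤ ε / 2 := by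
    rw [div_lt_iff₀ hε] at hK2
    rw [mul_one_div, div_le_iff₀ (by positivity)]
    linarith
  rw [nsmul_eq_mul, mul_add]
  nlinarith

theorem uniformlyErgodic : UniformlyErgodicWith nb rule π₀ := by
  refine ⟨ergodic_of_tendsto_cyl nb rule π₀_inv (fun μ hμ D u => ?_), uniform_cyl⟩
  rw [← ENNReal.tendsto_toReal_iff (fun _ => measure_ne_top _ _) (measure_ne_top _ _),
    Metric.tendsto_atTop]
  intro ε hε
  obtain ⟨T, hT⟩ := uniform_cyl D u (ε / 2) (by positivity)
  refine ⟨T, fun t ht => ?_⟩
  have := hT t ht μ hμ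
  rw [Real.dist_eq]
  simp only [measureReal_def] at this
  linarith

def x₁ : Cfg := fun _ => (true, false)

theorem full_O (t : ℕ) : 1 ≤ evolve nb rule t (Measure.dirac x₁) (O 0 (t + 1)) := by
  induction t with
  | zero =>
    rw [evolve_zero, Measure.dirac_apply_of_mem]
    exact ⟨0, le_rfl, by simp, rfl⟩
  | succ t ih =>
    rw [evolve_succ,
      Measure.bind_apply (measurableSet_O _ _) (measurable_stepLaw nb rule).aemeasurable]
    refine ih.trans ?_
    rw [← lintegral_indicator_one (measurableSet_O _ _)]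
    refine lintegral_mono (fun y => ?_)
    by_cases hy : y ∈ O 0 (t + 1)
    · rw [Set.indicator_of_mem hy, K_eq, Measure.map_apply (measurable_Γ y) (measurableSet_O _ _)]
      have : Γ y ⁻¹' O 0 (((t + 1 : ℕ) : ℤ) + 1) = Set.univ := by
        refine Set.eq_univ_of_forall (fun β => ?_)
        obtain ⟨i, h1, h2, h3⟩ := hy
        cases h4 : (y (st i)).2
        · refine ⟨i, h1, by push_cast; omega, ?_⟩
          simp [Γ, G_st, h3, h4]
        · refine ⟨i + 1, by omega, by push_cast; omega, ?_⟩
          simp [Γ, G_st, h3, h4]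
      rw [this]
      simp
    · rw [Set.indicator_of_notMem hy]
      exact bot_le

theorem lower (t : ℕ) : 1 ≤ ((t : ℝ) + 1) *
    ((evolve nb rule t (Measure.dirac x₁)).real (cyl {st 0} (fun _ => (true, false))) +
      (evolve nb rule t (Measure.dirac x₁)).real (cyl {st 0} (fun _ => (true, true)))) := by
  set ν := evolve nb rule t (Measure.dirac x₁) with hν
  have hsh : ∀ k, ν.map (shift k) = ν := by
    intro k
    rw [hν, ← evolve_map_shift, Measure.map_dirac' (measurable_shift k)]
    rfl
  let C : Set Cfg := cyl {st 0} (fun _ => (true, false)) ∪ cyl {st 0} (fun _ => (true, true))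
  have hC : MeasurableSet C := (measurableSet_cyl _ _).union (measurableSet_cyl _ _)
  have h1 : O 0 (t + 1) ⊆ ⋃ j ∈ Finset.range (t + 1), shift (st j) ⁻¹' C := by
    rintro y ⟨i, h1, h2, h3⟩
    obtain ⟨j, rfl⟩ := Int.eq_ofNat_of_zero_le h1
    refine Set.mem_biUnion (Finset.mem_coe.mpr (Finset.mem_range.mpr (show j < t + 1 by omega))) ?_
    have h0 : st 0 + st j = st j := by funext k; simp [st]
    simp only [C, cyl, shift, Set.mem_preimage, Set.mem_union, Set.mem_ofPred_eq,
      Finset.mem_singleton, forall_eq, h0]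
    revert h3
    generalize y (st j) = z
    revert z
    decide
  have h2 : (1 : ℝ) ≤ ν.real (O 0 (t + 1)) := by
    have := ENNReal.toReal_mono (measure_ne_top _ _) (full_O t)
    simpa [measureReal_def] using this
  have h3 : ν.real (O 0 (t + 1)) ≤ ∑ j ∈ Finset.range (t + 1), ν.real (shift (st j) ⁻¹' C) :=
    (measureReal_mono h1 (measure_ne_top _ _)).trans (measureReal_biUnion_finset_le _ _)
  have h4 : ∀ j : ℕ, ν.real (shift (st j) ⁻¹' C) = ν.real C := by
    intro j
    rw [← map_measureReal_apply (measurable_shift _) hC, hsh]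
  simp only [h4, Finset.sum_const, Finset.card_range, nsmul_eq_mul] at h3
  push_cast at h3
  have h5 := measureReal_union_le (μ := ν) (cyl {st 0} (fun _ => (true, false)))
    (cyl {st 0} (fun _ => (true, true)))
  refine h2.trans (h3.trans ?_)
  exact mul_le_mul_of_nonneg_left h5 (by positivity)

theorem π₀_occ (c : Bool) : π₀.real (cyl {st 0} (fun _ => (true, c))) = 0 := by
  rw [measureReal_def, π₀, stepLaw_cyl, Finset.prod_singleton]
  have h3 : G x₀ (st 0) = false := G_empty x₀ (fun _ => rfl) _
  simp only [G] at h3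
  simp [rule, h3]

theorem not_exponential : ¬ ∀ (D : Finset Site) (u : Cfg), ∃ K γ : ℝ, γ < 1 ∧ ∀ t : ℕ,
    |(evolve nb rule t (Measure.dirac x₁)).real (cyl D u) - π₀.real (cyl D u)| ≤ K * γ ^ t := by
  intro h
  have key : ∀ c : Bool, Tendsto (fun t : ℕ => ((t : ℝ) + 1) *
      (evolve nb rule t (Measure.dirac x₁)).real (cyl {st 0} (fun _ => (true, c)))) atTop (𝓝 0) := by
    intro c
    obtain ⟨K, γ, h1, h2⟩ := h {st 0} (fun _ => (true, c))
    simp only [π₀_occ, sub_zero] at h2
    have h3 : ∀ t : ℕ, |(evolve nb rule t (Measure.dirac x₁)).real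
        (cyl {st 0} (fun _ => (true, c)))| ≤ |K| * (max γ 0) ^ t := by
      intro t
      rcases le_or_gt 0 γ with hγ | hγ
      · rw [max_eq_left hγ]
        exact (h2 t).trans (mul_le_mul_of_nonneg_right (le_abs_self K) (pow_nonneg hγ t))
      · have k0 := (abs_nonneg _).trans (h2 0)
        have k1 := (abs_nonneg _).trans (h2 1)
        have hK : K = 0 := by
          simp only [pow_zero, mul_one, pow_one] at k0 k1
          nlinarith
        have := h2 t
        rw [hK] at this ⊢
        simpa using this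
    have h4 : max γ 0 < 1 := max_lt h1 one_pos
    have h5 : Tendsto (fun t : ℕ => ((t : ℝ) + 1) * (|K| * (max γ 0) ^ t)) atTop (𝓝 0) := by
      have a1 := tendsto_self_mul_const_pow_of_lt_one (le_max_right γ 0) h4
      have a2 := tendsto_pow_atTop_nhds_zero_of_lt_one (le_max_right γ 0) h4
      have a3 := (a1.add a2).const_mul |K|
      simp only [add_zero, mul_zero] at a3
      refine a3.congr (fun t => by ring)
    refine squeeze_zero (fun t => by positivity) (fun t => ?_) h5
    exact mul_le_mul_of_nonneg_left ((le_abs_self _).trans (h3 t)) (by positivity)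
  have h6 := (key false).add (key true)
  rw [add_zero] at h6
  obtain ⟨t, ht⟩ := ((tendsto_order.mp h6).2 1 one_pos).exists
  have := lower t
  rw [mul_add] at this
  linarith

end Pool.Agent.H179Z.Coal
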