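import Pool.Agent.H179Z.ToomCycle

/-!
A nilpotent cellular automaton on `ℤ²` with three symbols and a positive zero-range noise whose
composition is not ergodic. The symbol `2` is an active one, `1` a passive one and `0` a zero.
The automaton writes a passive one exactly when two horizontally adjacent active ones occur in the
lower or in the upper row of the `2 × 2` window, and a zero otherwise; its square is constant.
The noise turns a passive one into an active one with probability close to one.
-/

set_option autoImplicit false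

open MeasureTheory Filter Topology
open scoped ENNReal

namespace Pool.Agent.H179Z.NoisyNil

open Pool.Agent.H179Z.ToomCycle

abbrev Site := Fin 2 → ℤ
abbrev Cfg := Site → Fin 3

def nb : Finset Site := {![0, 0], ![1, 0], ![0, 1], ![1, 1]}

theorem m00 : ![0, 0] ∈ nb := by simp [nb]
theorem m10 : ![1, 0] ∈ nb := by simp [nb]
theorem m01 : ![0, 1] ∈ nb := by simp [nb]
theorem m11 : ![1, 1] ∈ nb := by simp [nb]

def rule (y : nb → Fin 3) : Fin 3 :=
  if (y ⟨![0, 0], m00⟩ = 2 ∧ y ⟨![1, 0], m10⟩ = 2) ∨
    (y ⟨![0, 1], m01⟩ = 2 ∧ y ⟨![1, 1], m11⟩ = 2) then 1 else 0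

def F (x : Cfg) (i : Site) : Fin 3 := rule (fun v => x (i + v.1))

theorem F_eq (x : Cfg) (i : Site) : F x i =
    if (x (i + ![0, 0]) = 2 ∧ x (i + ![1, 0]) = 2) ∨
      (x (i + ![0, 1]) = 2 ∧ x (i + ![1, 1]) = 2) then 1 else 0 := rfl

theorem F_ne_two (x : Cfg) (i : Site) : F x i ≠ 2 := by
  rw [F_eq]
  split_ifs <;> decide

theorem F_nil (x : Cfg) : F^[2] x = fun _ => 0 := by
  funext i
  show F (F x) i = 0
  rw [F_eq, if_neg]
  simp [F_ne_two]

noncomputable def wt (u : Fin 3) : ℝ≥0∞ :=
  if u = 0 then ((65535 / 65536 : NNReal) : ℝ≥0∞) else ((1 / 131072 : NNReal) : ℝ≥0∞)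

theorem wt_sum : ∑ u, wt u = 1 := by
  rw [Fin.sum_univ_three]
  simp only [wt, if_true, show (1 : Fin 3) ≠ 0 by decide, show (2 : Fin 3) ≠ 0 by decide, if_false]
  norm_cast
  norm_num

theorem wt_ne (u : Fin 3) : wt u ≠ 0 := by
  unfold wt
  split_ifs <;> simp

noncomputable def U : PMF (Fin 3) := PMF.ofFintype wt wt_sum

def hh (a u : Fin 3) : Fin 3 := if a = 0 then u else 2 - u

noncomputable def θ (a : Fin 3) : PMF (Fin 3) := U.map (hh a)

theorem θ_pos (a b : Fin 3) : θ a b ≠ 0 := by
  rw [← PMF.mem_support_iff, θ, PMF.mem_support_map_iff]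
  obtain ⟨u, hu⟩ : ∃ u, hh a u = b := (by decide : ∀ a b : Fin 3, ∃ u, hh a u = b) a b
  exact ⟨u, by rw [PMF.mem_support_iff]; exact wt_ne u, hu⟩

theorem U_bad : U.toMeasure {u | u ≠ 0} ≤ (1 / 16 : ℝ≥0∞) ^ 4 := by
  have h1 : {u : Fin 3 | u ≠ 0} = ((({1, 2} : Finset (Fin 3))) : Set (Fin 3)) := by
    ext u
    revert u
    simp only [Set.mem_ofPred_eq, Finset.mem_coe]
    decide
  rw [h1, PMF.toMeasure_apply_finset, Finset.sum_pair (by decide)]
  simp only [U, PMF.ofFintype_apply, wt, show (1 : Fin 3) ≠ 0 by decide,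
    show (2 : Fin 3) ≠ 0 by decide, if_false]
  have : (1 / 16 : ℝ≥0∞) = ((1 / 16 : NNReal) : ℝ≥0∞) := by
    rw [ENNReal.coe_div (by norm_num)]; rfl
  rw [this]
  norm_cast
  rw [← NNReal.coe_le_coe]
  norm_num

noncomputable def P : Measure Cfg := Measure.infinitePi (fun _ : Site => U.toMeasure)

instance : IsProbabilityMeasure P := by unfold P; infer_instance

noncomputable def Q : Measure (ℤ → Cfg) := Measure.infinitePi (fun _ : ℤ => P)

instance : IsProbabilityMeasure Q := by unfold Q; infer_instance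

def step (z : Cfg × Cfg) : Cfg := fun i => hh (F z.1 i) (z.2 i)

theorem measurable_F (i : Site) : Measurable (fun x : Cfg => F x i) := by
  have h1 : Measurable rule := measurable_of_countable _
  exact h1.comp (measurable_pi_lambda _ (fun v => measurable_pi_apply _))

theorem measurable_step : Measurable step := by
  refine measurable_pi_lambda _ (fun i => ?_)
  have h1 : Measurable (fun z : Fin 3 × Fin 3 => hh z.1 z.2) := measurable_of_countable _
  exact h1.comp (((measurable_F i).comp measurable_fst).prodMk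
    ((measurable_pi_apply i).comp measurable_snd))

noncomputable def ker (x : Cfg) : Measure Cfg :=
  Measure.infinitePi (fun i : Site => (θ (F x i)).toMeasure)

theorem ker_eq (x : Cfg) : ker x = (P.map (Prod.mk x)).map step := by
  rw [Measure.map_map measurable_step measurable_prodMk_left]
  have h1 := Measure.infinitePi_map_pi (fun _ : Site => U.toMeasure)
    (f := fun i u => hh (F x i) u) (fun i => measurable_of_countable _)
  unfold ker P
  refine Eq.trans ?_ h1.symm
  congr 1
  funext i
  rw [θ, PMF.toMeasure_map _ _ (measurable_of_countable _)]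

theorem bind_ker (m : Measure Cfg) [IsProbabilityMeasure m] :
    m.bind ker = (m.prod P).map step := by
  have hk : Measurable ker := by
    have : ker = fun x => (P.map (Prod.mk x)).map step := funext ker_eq
    rw [this]
    exact (Measure.measurable_map _ measurable_step).comp Measurable.map_prodMk_left
  ext s hs
  rw [Measure.bind_apply hs hk.aemeasurable, Measure.map_apply measurable_step hs,
    Measure.prod_apply (measurable_step hs)]
  congr 1
  funext x
  rw [ker_eq, Measure.map_apply measurable_step hs,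
    Measure.map_apply measurable_prodMk_left (measurable_step hs)]

def upd (n : ℤ) (z : (ℤ → Cfg) × Cfg) : ℤ → Cfg := Function.update z.1 n z.2

theorem measurable_upd (n : ℤ) : Measurable (upd n) := measurable_update'

theorem map_upd (n : ℤ) : (Q.prod P).map (upd n) = Q := by
  classical
  refine Measure.eq_infinitePi _ (fun s t ht => ?_)
  rw [Measure.map_apply (measurable_upd n) (MeasurableSet.pi s.countable_toSet (fun i _ => ht i))]
  by_cases hn : n ∈ s
  · have h1 : upd n ⁻¹' (Set.pi s t) = (Set.pi (s.erase n) t) ×ˢ t n := by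
      ext z
      simp only [Set.mem_preimage, Set.mem_pi, Finset.mem_coe, Set.mem_prod, Finset.mem_erase, upd]
      constructor
      · intro h
        refine ⟨fun i hi => ?_, ?_⟩
        · have := h i hi.2
          rwa [Function.update_of_ne hi.1] at this
        · have := h n hn
          rwa [Function.update_self] at this
      · rintro ⟨h1, h2⟩ i hi
        by_cases hi' : i = n
        · subst hi'
          rwa [Function.update_self]
        · rw [Function.update_of_ne hi']
          exact h1 i ⟨hi', hi⟩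
    rw [h1, Measure.prod_prod, Q, Measure.infinitePi_pi _ (fun i _ => ht i),
      Finset.prod_erase_mul _ _ hn]
  · have h1 : upd n ⁻¹' (Set.pi s t) = (Set.pi s t) ×ˢ Set.univ := by
      ext z
      simp only [Set.mem_preimage, Set.mem_pi, Finset.mem_coe, Set.mem_prod, upd, Set.mem_univ,
        and_true]
      refine forall_congr' (fun i => forall_congr' (fun hi => ?_))
      rw [Function.update_of_ne (by rintro rfl; exact hn hi)]
    rw [h1, Measure.prod_prod, Q, Measure.infinitePi_pi _ (fun i _ => ht i), measure_univ, mul_one]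

def X (x₀ : Cfg) : ℕ → (ℤ → Cfg) → Cfg
  | 0, _ => x₀
  | n + 1, ω => step (X x₀ n ω, ω n)

theorem measurable_X (x₀ : Cfg) (n : ℕ) : Measurable (X x₀ n) := by
  induction n with
  | zero => exact measurable_const
  | succ n ih => exact measurable_step.comp (ih.prodMk (measurable_pi_apply _))

theorem X_upd (x₀ : Cfg) (n : ℕ) (m : ℤ) (hm : (n : ℤ) ≤ m) (z : (ℤ → Cfg) × Cfg) :
    X x₀ n (upd m z) = X x₀ n z.1 := by
  induction n with
  | zero => rfl
  | succ n ih =>
    have h1 : (n : ℤ) ≠ m := by push_cast at hm; omega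
    simp only [X]
    rw [ih (by push_cast at hm; omega), upd, Function.update_of_ne h1]

theorem law_X (x₀ : Cfg) (n : ℕ) :
    (fun m : Measure Cfg => m.bind ker)^[n] (Measure.dirac x₀) = Q.map (X x₀ n) := by
  induction n with
  | zero => simp [X]
  | succ n ih =>
    rw [Function.iterate_succ_apply', ih]
    have : IsProbabilityMeasure (Q.map (X x₀ n)) :=
      Measure.isProbabilityMeasure_map (measurable_X x₀ n).aemeasurable
    rw [bind_ker]
    conv_rhs => rw [← map_upd n]
    rw [Measure.map_map (measurable_X x₀ (n + 1)) (measurable_upd n)]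
    have h2 : (Q.map (X x₀ n)).prod P = (Q.prod P).map (Prod.map (X x₀ n) id) := by
      rw [← Measure.map_prod_map _ _ (measurable_X x₀ n) measurable_id, Measure.map_id]
    rw [h2, Measure.map_map measurable_step ((measurable_X x₀ n).prodMap measurable_id)]
    congr 1
    funext z
    simp only [Function.comp, X]
    rw [X_upd x₀ n n le_rfl, upd, Function.update_self]
    rfl

theorem bad_bound (e : Pt → ℤ × Site) (he : Function.Injective e) (K : Finset Pt) :
    Q {ω | ∀ w ∈ K, ω (e w).1 (e w).2 ≠ 0} ≤ ((1 / 16 : ℝ≥0∞) ^ 4) ^ K.card := by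
  classical
  have h1 := Measure.infinitePi_map_curry_symm (fun (_ : ℤ) (_ : Site) => U.toMeasure)
  have h2 : {ω : ℤ → Cfg | ∀ w ∈ K, ω (e w).1 (e w).2 ≠ 0} =
      (MeasurableEquiv.curry ℤ Site (Fin 3)).symm ⁻¹'
        (Set.pi (K.image e) (fun _ => {u | u ≠ 0})) := by
    ext ω
    simp only [Set.mem_ofPred_eq, Set.mem_preimage, Set.mem_pi, Finset.coe_image, Set.mem_image,
      Finset.mem_coe]
    constructor
    · rintro h i ⟨w, hw, rfl⟩
      exact h w hw
    · intro h w hw
      exact h (e w) ⟨w, hw, rfl⟩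
  rw [h2, ← MeasurableEquiv.map_apply, Q, P, h1,
    Measure.infinitePi_pi _ (fun _ _ => MeasurableSet.of_discrete), Finset.prod_const,
    Finset.card_image_of_injective _ he]
  exact pow_le_pow_left' U_bad _

theorem v00 (x y : ℤ) : (![x, y] : Site) + ![0, 0] = ![x, y] := by simp
theorem v10 (x y : ℤ) : (![x, y] : Site) + ![1, 0] = ![x + 1, y] := by simp
theorem v01 (x y : ℤ) : (![x, y] : Site) + ![0, 1] = ![x, y + 1] := by simp
theorem v11 (x y : ℤ) : (![x, y] : Site) + ![1, 1] = ![x + 1, y + 1] := by simp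

theorem zero_phase (n : ℕ) : Q {ω | X (fun _ => 0) (n + 1) ω ![0, 0] = 2} ≤ 1 / 4 := by
  have h := peierls Q
    (fun ω w => ∃ k : ℕ, w.1 = k ∧ X (fun _ => 0) (k + 1) ω ![w.2.1, w.2.2] = 2)
    (fun ω w => ω w.1 ![w.2.1, w.2.2] ≠ 0) ?_ ?_ ?_ ((n : ℤ), 0, 0)
  · refine le_trans (measure_mono ?_) h
    intro ω hω
    exact ⟨n, rfl, hω⟩
  · rintro ω w ⟨k, hk, -⟩
    omega
  · rintro ω t x y ⟨k, hk, h2⟩
    simp only at hk h2 ⊢
    subst hk
    by_cases hg : ω k ![x, y] = 0
    · right
      simp only [X, step, hg] at h2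
      have h3 : F (X (fun _ => 0) k ω) ![x, y] ≠ 0 := by
        intro h4
        rw [h4] at h2
        revert h2
        decide
      rw [F_eq, v00, v10, v01, v11] at h3
      cases k with
      | zero => simp [X] at h3
      | succ k =>
        have e : ((k + 1 : ℕ) : ℤ) - 1 = k := by push_cast; ring
        rw [e]
        split_ifs at h3 with h5
        · rcases h5 with h5 | h5
          · exact ⟨Or.inl ⟨k, rfl, h5.1⟩, Or.inl ⟨k, rfl, h5.2⟩⟩
          · exact ⟨Or.inr ⟨k, rfl, h5.1⟩, Or.inr ⟨k, rfl, h5.2⟩⟩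
        · exact absurd rfl h3
    · exact Or.inl hg
  · refine bad_bound (fun w => (w.1, ![w.2.1, w.2.2])) ?_
    rintro ⟨t, x, y⟩ ⟨t', x', y'⟩ h
    simp only [Prod.mk.injEq, Matrix.vecCons_inj, and_true] at h
    simp [h]

theorem one_phase (n : ℕ) : Q {ω | X (fun _ => 2) (n + 1) ω ![0, 0] ≠ 2} ≤ 1 / 4 := by
  have h := peierls Q
    (fun ω w => ∃ k : ℕ, w.1 = k ∧ X (fun _ => 2) (k + 1) ω ![w.2.2, w.2.1] ≠ 2)
    (fun ω w => ω w.1 ![w.2.2, w.2.1] ≠ 0) ?_ ?_ ?_ ((n : ℤ), 0, 0)
  · refine le_trans (measure_mono ?_) h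
    intro ω hω
    exact ⟨n, rfl, hω⟩
  · rintro ω w ⟨k, hk, -⟩
    omega
  · rintro ω t x y ⟨k, hk, h2⟩
    simp only at hk h2 ⊢
    subst hk
    by_cases hg : ω k ![y, x] = 0
    · right
      simp only [X, step, hg] at h2
      have h3 : F (X (fun _ => 2) k ω) ![y, x] = 0 := by
        by_contra h4
        apply h2
        simp [hh, h4]
      rw [F_eq, v00, v10, v01, v11] at h3
      cases k with
      | zero => simp [X] at h3
      | succ k =>
        have e : ((k + 1 : ℕ) : ℤ) - 1 = k := by push_cast; ring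
        rw [e]
        split_ifs at h3 with h5
        · exact absurd h3 (by decide)
        · rw [not_or, not_and_or, not_and_or] at h5
          refine ⟨?_, ?_⟩
          · rcases h5.1 with h6 | h6
            · exact Or.inl ⟨k, rfl, h6⟩
            · exact Or.inr ⟨k, rfl, h6⟩
          · rcases h5.2 with h6 | h6
            · exact Or.inl ⟨k, rfl, h6⟩
            · exact Or.inr ⟨k, rfl, h6⟩
    · exact Or.inl hg
  · refine bad_bound (fun w => (w.1, ![w.2.2, w.2.1])) ?_
    rintro ⟨t, x, y⟩ ⟨t', x', y'⟩ h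
    simp only [Prod.mk.injEq, Matrix.vecCons_inj, and_true] at h
    simp [h]

theorem no_limit (a : ℝ≥0∞)
    (h0 : Tendsto (fun n : ℕ => ((fun m : Measure Cfg => m.bind ker)^[n]
      (Measure.dirac (fun _ => 0))) {y | y ![0, 0] = 2}) atTop (𝓝 a))
    (h1 : Tendsto (fun n : ℕ => ((fun m : Measure Cfg => m.bind ker)^[n]
      (Measure.dirac (fun _ => 2))) {y | y ![0, 0] = 2}) atTop (𝓝 a)) : False := by
  have hm : MeasurableSet {y : Cfg | y ![0, 0] = 2} :=
    (measurable_pi_apply (X := fun _ : Site => Fin 3) (![0, 0] : Site))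
      (MeasurableSet.singleton (2 : Fin 3))
  have k0 : a ≤ 1 / 4 := by
    refine le_of_tendsto h0 (eventually_atTop.mpr ⟨1, fun n hn => ?_⟩)
    obtain ⟨k, rfl⟩ : ∃ k, n = k + 1 := ⟨n - 1, by omega⟩
    rw [law_X, Measure.map_apply (measurable_X _ _) hm]
    exact zero_phase k
  have k1 : 1 - 1 / 4 ≤ a := by
    refine ge_of_tendsto h1 (eventually_atTop.mpr ⟨1, fun n hn => ?_⟩)
    obtain ⟨k, rfl⟩ : ∃ k, n = k + 1 := ⟨n - 1, by omega⟩
    rw [law_X, Measure.map_apply (measurable_X _ _) hm, tsub_le_iff_right]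
    have h2 := measure_add_measure_compl (μ := Q) (measurable_X (fun _ => 2) (k + 1) hm)
    rw [measure_univ] at h2
    exact h2.symm.le.trans (add_le_add le_rfl (one_phase k))
  have k2 := k1.trans k0
  rw [tsub_le_iff_right] at k2
  have e2 : (1 / 4 : ℝ≥0∞) = ((1 / 4 : NNReal) : ℝ≥0∞) := by
    rw [ENNReal.coe_div (by norm_num)]; rfl
  rw [e2] at k2
  norm_cast at k2
  rw [← NNReal.coe_le_coe] at k2
  norm_num at k2

end Pool.Agent.H179Z.NoisyNil
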