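import Pool.Agent.H179Z.Coal

/-!
An ergodic probabilistic cellular automaton on `ℤ` that is not uniformly ergodic. A cell holds a
particle bit, a signal bit and an arrow bit. Particles move one step to the right and emit
signals; signals move one or two steps to the left according to the arrow of their cell and merge;
a particle dies when a signal or a particle is at most three cells ahead of it; all arrows are
redrawn by fair coins. A lonely particle survives for ever, so the convergence is not uniform,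
while from every fixed configuration particles leave every window and signals thin out.
-/

set_option autoImplicit false

open MeasureTheory ProbabilityTheory Filter Topology
open scoped ENNReal

namespace Pool.Agent.H179Z.NonUnif

open Pool.Agent.H179Z.PCA
open Pool.Agent.H179Z.Coal (Site st st_eta st_inj B B_one B_two ι)

abbrev Al := Bool × Bool × Bool
abbrev Cfg := Site → Al

def nb : Finset Site := {st (-1), st 0, st 1, st 2}

theorem m0 : st (-1) ∈ nb := by simp [nb]
theorem m1 : st 0 ∈ nb := by simp [nb]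
theorem m2 : st 1 ∈ nb := by simp [nb]
theorem m3 : st 2 ∈ nb := by simp [nb]

def es (c : Al) : Bool := c.1 || c.2.1

def gp (u : nb → Al) : Bool :=
  (u ⟨st (-1), m0⟩).1 && !es (u ⟨st 0, m1⟩) && !es (u ⟨st 1, m2⟩) && !es (u ⟨st 2, m3⟩)

def gs (u : nb → Al) : Bool :=
  (es (u ⟨st 1, m2⟩) && !(u ⟨st 1, m2⟩).2.2) || (es (u ⟨st 2, m3⟩) && (u ⟨st 2, m3⟩).2.2)

noncomputable def rule (u : nb → Al) : PMF Al :=
  (PMF.uniformOfFintype Bool).map (fun b => (gp u, gs u, b))

def Gp (x : Cfg) (i : Site) : Bool := gp (fun v => x (i + v.1))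
def Gs (x : Cfg) (i : Site) : Bool := gs (fun v => x (i + v.1))

theorem st_add (a b : ℤ) : st a + st b = st (a + b) := by funext j; simp [st]

theorem Gp_st (x : Cfg) (a : ℤ) : Gp x (st a) = true ↔
    (x (st (a - 1))).1 = true ∧ es (x (st a)) = false ∧ es (x (st (a + 1))) = false ∧
      es (x (st (a + 2))) = false := by
  simp only [Gp, gp, st_add, add_zero, Bool.and_eq_true, Bool.not_eq_true', and_assoc]
  rfl

theorem Gs_st (x : Cfg) (a : ℤ) : Gs x (st a) = true ↔
    (es (x (st (a + 1))) = true ∧ (x (st (a + 1))).2.2 = false) ∨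
      (es (x (st (a + 2))) = true ∧ (x (st (a + 2))).2.2 = true) := by
  simp only [Gs, gs, st_add, Bool.or_eq_true, Bool.and_eq_true, Bool.not_eq_true']

theorem measurable_Gp (i : Site) : Measurable (fun x : Cfg => Gp x i) :=
  (measurable_of_countable gp).comp (measurable_pi_lambda _ (fun _ => measurable_pi_apply _))

theorem measurable_Gs (i : Site) : Measurable (fun x : Cfg => Gs x i) :=
  (measurable_of_countable gs).comp (measurable_pi_lambda _ (fun _ => measurable_pi_apply _))

def Γ (y : Cfg) (β : Site → Bool) : Cfg := fun i => (Gp y i, Gs y i, β i)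

theorem measurable_Γ (y : Cfg) : Measurable (Γ y) :=
  measurable_pi_lambda _ (fun i => measurable_const.prodMk
    (measurable_const.prodMk (measurable_pi_apply i)))

theorem K_eq (y : Cfg) : stepLaw nb rule y = B.map (Γ y) := by
  have h1 := Measure.infinitePi_map_pi (fun _ : Site => (PMF.uniformOfFintype Bool).toMeasure)
    (f := fun i (b : Bool) => (Gp y i, Gs y i, b)) (fun i => measurable_of_countable _)
  unfold stepLaw B
  refine Eq.trans ?_ h1.symm
  congr 1
  funext i
  rw [rule, PMF.toMeasure_map _ _ (measurable_of_countable _)]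
  rfl

theorem meas_at (p : Al → Prop) (i : Site) : Measurable (fun y : Cfg => p (y i)) :=
  (measurable_of_countable p).comp (measurable_pi_apply i)

theorem sure_step {Z Z' : Set Cfg} (hZ' : MeasurableSet Z') (h : ∀ z ∈ Z, ∀ β, Γ z β ∈ Z')
    (ν : Measure Cfg) (hν : ν Zᶜ = 0) : ν.bind (stepLaw nb rule) Z'ᶜ = 0 := by
  rw [Measure.bind_apply hZ'.compl (measurable_stepLaw nb rule).aemeasurable]
  have h1 : ∀ᵐ z ∂ν, stepLaw nb rule z Z'ᶜ = 0 := by
    have h2 : ∀ᵐ z ∂ν, z ∈ Z := hν
    filter_upwards [h2] with z hz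
    rw [K_eq, Measure.map_apply (measurable_Γ z) hZ'.compl]
    have : Γ z ⁻¹' Z'ᶜ = ∅ := by
      ext β
      simp [h z hz β]
    rw [this, measure_empty]
  rw [lintegral_congr_ae h1, lintegral_zero]

/-- No particle in `[lo, hi)`, for a reason that persists. -/
def Z (lo hi : ℤ) : Set Cfg :=
  {z | (∃ y : ℤ, y ≤ lo ∧ es (z (st y)) = true ∧
      ∀ i : ℤ, (z (st i)).1 = true → i < y ∨ hi ≤ i) ∨ ∀ i : ℤ, (z (st i)).1 = false}

theorem measurableSet_Z (lo hi : ℤ) : MeasurableSet (Z lo hi) := by
  rw [Z, measurableSet_setOfPred]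
  refine Measurable.or (Measurable.exists (fun y => measurable_const.and
    ((meas_at (fun c => es c = true) _).and (Measurable.forall (fun i =>
      (meas_at (fun c => c.1 = true) _).imp measurable_const))))) ?_
  exact Measurable.forall (fun i => meas_at (fun c => c.1 = false) _)

theorem Z_step (lo hi : ℤ) (z : Cfg) (hz : z ∈ Z lo hi) (β : Site → Bool) :
    Γ z β ∈ Z (lo - 1) (hi + 1) := by
  rcases hz with ⟨y, h1, h2, h3⟩ | h
  · left
    have key : ∀ i : ℤ, Gp z (st i) = true → i < y - 2 ∨ hi + 1 ≤ i := by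
      intro i hi
      obtain ⟨k1, k2, k3, k4⟩ := (Gp_st z i).mp hi
      rcases h3 _ k1 with k | k
      · left
        have e1 : y ≠ i := by rintro rfl; simp [h2] at k2
        have e2 : y ≠ i + 1 := by rintro rfl; simp [h2] at k3
        have e3 : y ≠ i + 2 := by rintro rfl; simp [h2] at k4
        omega
      · right
        omega
    cases ha : (z (st y)).2.2
    · refine ⟨y - 1, by omega, ?_, fun i hi => ?_⟩
      · have : Gs z (st (y - 1)) = true := by
          rw [Gs_st]
          left
          rw [sub_add_cancel]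
          exact ⟨h2, ha⟩
        simp [Γ, es, this]
      · rcases key i hi with k | k
        · left; omega
        · right; exact k
    · refine ⟨y - 2, by omega, ?_, fun i hi => key i hi⟩
      have : Gs z (st (y - 2)) = true := by
        rw [Gs_st]
        right
        rw [sub_add_cancel]
        exact ⟨h2, ha⟩
      simp [Γ, es, this]
  · right
    intro i
    by_contra hc
    have h1 : Gp z (st i) = true := by simpa [Γ] using hc
    have := ((Gp_st z i).mp h1).1
    rw [h] at this
    exact Bool.false_ne_true this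

theorem exists_Z (x : Cfg) : ∃ y : ℤ, x ∈ Z y y := by
  by_cases h : ∀ i : ℤ, (x (st i)).1 = false
  · exact ⟨0, Or.inr h⟩
  · push Not at h
    obtain ⟨y, hy⟩ := h
    refine ⟨y, Or.inl ⟨y, le_rfl, ?_, fun i _ => lt_or_ge i y⟩⟩
    have : (x (st y)).1 = true := by simpa using hy
    simp [es, this]

theorem evolve_Z (x : Cfg) (y : ℤ) (hx : x ∈ Z y y) (t : ℕ) :
    evolve nb rule t (Measure.dirac x) (Z (y - t) (y + t))ᶜ = 0 := by
  induction t with
  | zero =>
    rw [evolve_zero, Measure.dirac_apply' _ (measurableSet_Z _ _).compl]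
    simp [hx]
  | succ t ih =>
    rw [evolve_succ]
    refine sure_step (measurableSet_Z _ _) (fun z hz β => ?_) _ ih
    have := Z_step _ _ z hz β
    push_cast
    rwa [sub_sub, add_assoc] at this

def Pt (a b : ℤ) : Set Cfg := {y | ∃ i : ℤ, a ≤ i ∧ i < b ∧ (y (st i)).1 = true}

def W (a b : ℤ) : Set Cfg := {y | ∃ i : ℤ, a ≤ i ∧ i < b ∧ Gs y (st i) = true}

theorem measurableSet_Pt (a b : ℤ) : MeasurableSet (Pt a b) := by
  rw [Pt, measurableSet_setOfPred]
  exact Measurable.exists (fun i => measurable_const.and (measurable_const.and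
    (meas_at (fun c => c.1 = true) _)))

theorem measurableSet_W (a b : ℤ) : MeasurableSet (W a b) := by
  have h : ∀ i : ℤ, Measurable (fun y : Cfg => Gs y (st i) = true) := fun i =>
    (measurable_of_countable (fun c : Bool => c = true)).comp (measurable_Gs (st i))
  rw [W, measurableSet_setOfPred]
  exact Measurable.exists (fun i => measurable_const.and (measurable_const.and (h i)))

theorem evolve_Pt (x : Cfg) (y : ℤ) (hx : x ∈ Z y y) (t : ℕ) (a b : ℤ) (ha : y - t ≤ a)
    (hb : b ≤ y + t) : evolve nb rule t (Measure.dirac x) (Pt a b) = 0 := by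
  refine measure_mono_null ?_ (evolve_Z x y hx t)
  rintro z ⟨i, h1, h2, h3⟩ (⟨y', k1, -, k3⟩ | k)
  · have := k3 i h3
    omega
  · rw [k] at h3
    exact Bool.false_ne_true h3

theorem W_sub (a b : ℤ) (y : Cfg) (h : y ∈ W a b) :
    ∃ i : ℤ, a + 1 + ι (y (st (a + 1))).2.2 ≤ i ∧ i < b + 1 + ι (y (st (b + 1))).2.2 ∧
      es (y (st i)) = true := by
  obtain ⟨i, h1, h2, h3⟩ := h
  rw [Gs_st] at h3
  have k1 : ∀ c, 0 ≤ ι c ∧ ι c ≤ 1 := by decide
  rcases h3 with ⟨h3, h4⟩ | ⟨h3, h4⟩
  · refine ⟨i + 1, ?_, by have := (k1 (y (st (b + 1))).2.2).1; omega, h3⟩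
    by_cases hi : i = a
    · rw [← hi, h4]
      simp [ι]
    · have := (k1 (y (st (a + 1))).2.2).2
      omega
  · refine ⟨i + 2, by have := (k1 (y (st (a + 1))).2.2).2; omega, ?_, h3⟩
    by_cases hi : i + 2 = b + 1
    · rw [← hi, h4]
      simp [ι]
    · have := (k1 (y (st (b + 1))).2.2).1
      omega

theorem K_W (a b : ℤ) (hab : a ≠ b) (y : Cfg) :
    stepLaw nb rule y (W a b) ≤
      (∑ z : Bool × Bool, 4⁻¹ * (W (a + 1 + ι z.1) (b + 1 + ι z.2)).indicator 1 y) +
        stepLaw nb rule y (Pt (a + 1) (b + 2)) := by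
  classical
  rw [K_eq, Measure.map_apply (measurable_Γ y) (measurableSet_W a b),
    Measure.map_apply (measurable_Γ y) (measurableSet_Pt _ _)]
  let S : Bool × Bool → Set (Site → Bool) := fun z =>
    if y ∈ W (a + 1 + ι z.1) (b + 1 + ι z.2) then
      (fun β => β (st (a + 1))) ⁻¹' {z.1} ∩ (fun β => β (st (b + 1))) ⁻¹' {z.2} else ∅
  have k1 : ∀ c, 0 ≤ ι c ∧ ι c ≤ 1 := by decide
  have h1 : Γ y ⁻¹' W a b ⊆ (⋃ z, S z) ∪ Γ y ⁻¹' Pt (a + 1) (b + 2) := by
    intro β hβ
    obtain ⟨i, h2, h3, h4⟩ := W_sub a b _ hβ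
    simp only [Γ, es, Bool.or_eq_true] at h2 h3 h4
    rcases h4 with h4 | h4
    · right
      have := (k1 (β (st (a + 1)))).1
      have := (k1 (β (st (b + 1)))).2
      exact ⟨i, by omega, by omega, h4⟩
    · left
      refine Set.mem_iUnion.mpr ⟨(β (st (a + 1)), β (st (b + 1))), ?_⟩
      simp only [S]
      rw [if_pos ⟨i, h2, h3, h4⟩]
      exact ⟨rfl, rfl⟩
  refine (measure_mono h1).trans ((measure_union_le _ _).trans (add_le_add ?_ le_rfl))
  refine (measure_iUnion_fintype_le _ _).trans ?_
  refine Finset.sum_le_sum (fun z _ => ?_)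
  simp only [S]
  split_ifs with h
  · rw [B_two _ _ (fun h => hab (by have := st_inj h; omega)), Set.indicator_of_mem h]
    simp
  · simp

theorem step_W (a b : ℤ) (hab : a ≠ b) (ν : Measure Cfg) [IsProbabilityMeasure ν]
    (h0 : ν.bind (stepLaw nb rule) (Pt (a + 1) (b + 2)) = 0) :
    (ν.bind (stepLaw nb rule)).real (W a b) ≤
      (ν.real (W (a + 1) (b + 1)) + ν.real (W (a + 1) (b + 1 + 1)) + ν.real (W (a + 1 + 1) (b + 1)) +
        ν.real (W (a + 1 + 1) (b + 1 + 1))) / 4 := by
  have h1 : ν.bind (stepLaw nb rule) (W a b) ≤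
      ∑ z : Bool × Bool, 4⁻¹ * ν (W (a + 1 + ι z.1) (b + 1 + ι z.2)) := by
    rw [Measure.bind_apply (measurableSet_W a b) (measurable_stepLaw nb rule).aemeasurable]
    rw [Measure.bind_apply (measurableSet_Pt _ _) (measurable_stepLaw nb rule).aemeasurable] at h0
    refine (lintegral_mono (K_W a b hab)).trans (le_of_eq ?_)
    rw [lintegral_add_right _ (g := fun y => stepLaw nb rule y (Pt (a + 1) (b + 2)))
      ((Measure.measurable_coe (measurableSet_Pt _ _)).comp (measurable_stepLaw nb rule)), h0,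
      add_zero, lintegral_finsetSum _ (fun z _ =>
      (measurable_one.indicator (measurableSet_W _ _)).const_mul _)]
    refine Finset.sum_congr rfl (fun z _ => ?_)
    rw [lintegral_const_mul _ (measurable_one.indicator (measurableSet_W _ _)),
      lintegral_indicator_one (measurableSet_W _ _)]
  have h2 := ENNReal.toReal_mono (ENNReal.sum_ne_top.mpr (fun z _ =>
    ENNReal.mul_ne_top (by simp) (measure_ne_top _ _))) h1
  rw [ENNReal.toReal_sum (fun z _ => ENNReal.mul_ne_top (by simp) (measure_ne_top _ _))] at h2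
  simp only [Fintype.sum_prod_type, Fintype.sum_bool, ι, ENNReal.toReal_mul, ENNReal.toReal_inv,
    ENNReal.toReal_ofNat, if_true, Bool.false_eq_true, if_false, add_zero] at h2
  simp only [measureReal_def]
  linarith

theorem bound_W (x : Cfg) (y : ℤ) (hx : x ∈ Z y y) (t₀ : ℕ) (K : ℕ) (hK : 1 ≤ K) (t : ℕ) :
    ∀ a b : ℤ, a ≤ b → b - a ≤ K → y - t₀ ≤ a → b + 2 * t ≤ y + t₀ →
      (evolve nb rule (t₀ + t) (Measure.dirac x)).real (W a b) ≤
      ((b : ℝ) - a) / K + (1 - 1 / (2 * (K : ℝ) ^ 2)) ^ t * (((b : ℝ) - a) * (2 * K - (b - a))) := by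
  have hK' : (1 : ℝ) ≤ K := by exact_mod_cast hK
  have hr : 0 ≤ 1 - 1 / (2 * (K : ℝ) ^ 2) := by
    rw [sub_nonneg, div_le_one (by positivity)]
    nlinarith
  have hemp : ∀ (m : Measure Cfg) (a : ℤ), m.real (W a a) = 0 := by
    intro m a
    have : W a a = ∅ := by
      ext y
      simp only [W, Set.mem_ofPred_eq, Set.mem_empty_iff_false, iff_false]
      rintro ⟨i, h1, h2, -⟩
      omega
    rw [this, measureReal_empty]
  induction t with
  | zero =>
    intro a b h1 h2 _ _
    rcases h1.eq_or_lt with rfl | h1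
    · simp [hemp]
    · have h3 : (1 : ℝ) ≤ (b : ℝ) - a := by exact_mod_cast (show (1 : ℤ) ≤ b - a by omega)
      have h4 : (b : ℝ) - a ≤ K := by exact_mod_cast h2
      have h5 : (evolve nb rule (t₀ + 0) (Measure.dirac x)).real (W a b) ≤ 1 := measureReal_le_one
      have h6 : 0 ≤ ((b : ℝ) - a) / K := by positivity
      rw [pow_zero, one_mul]
      nlinarith
  | succ t ih =>
    intro a b h1 h2 ha hb
    rcases h1.eq_or_lt with rfl | h1
    · simp [hemp]
    rcases h2.eq_or_lt with h2 | h2
    · have h4 : (b : ℝ) - a = K := by exact_mod_cast h2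
      have h5 : (evolve nb rule (t₀ + (t + 1)) (Measure.dirac x)).real (W a b) ≤ 1 :=
        measureReal_le_one
      rw [h4, div_self (by positivity)]
      have : 0 ≤ (1 - 1 / (2 * (K : ℝ) ^ 2)) ^ (t + 1) * ((K : ℝ) * (2 * K - K)) := by
        apply mul_nonneg (pow_nonneg hr _)
        nlinarith
      linarith
    push_cast at hb
    have h0 := evolve_Pt x y hx (t₀ + t + 1) (a + 1) (b + 2) (by push_cast; omega)
      (by push_cast; omega)
    rw [← add_assoc, evolve_succ]
    rw [evolve_succ] at h0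
    refine (step_W a b h1.ne _ h0).trans ?_
    have i1 := ih (a + 1) (b + 1) (by omega) (by omega) (by omega) (by omega)
    have i2 := ih (a + 1) (b + 1 + 1) (by omega) (by omega) (by omega) (by omega)
    have i3 := ih (a + 1 + 1) (b + 1) (by omega) (by omega) (by omega) (by omega)
    have i4 := ih (a + 1 + 1) (b + 1 + 1) (by omega) (by omega) (by omega) (by omega)
    push_cast at i1 i2 i3 i4
    set L : ℝ := (b : ℝ) - a with hL
    have e1 : (b : ℝ) + 1 - (a + 1) = L := by rw [hL]; ring
    have e2 : (b : ℝ) + 1 + 1 - (a + 1) = L + 1 := by rw [hL]; ring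
    have e3 : (b : ℝ) + 1 - (a + 1 + 1) = L - 1 := by rw [hL]; ring
    have e4 : (b : ℝ) + 1 + 1 - (a + 1 + 1) = L := by rw [hL]; ring
    rw [e1] at i1
    rw [e2] at i2
    rw [e3] at i3
    rw [e4] at i4
    set ρ : ℝ := (1 - 1 / (2 * (K : ℝ) ^ 2)) ^ t with hρ
    have hρ0 : 0 ≤ ρ := pow_nonneg hr t
    have h5 : L * (2 * K - L) - 1 / 2 ≤ (1 - 1 / (2 * (K : ℝ) ^ 2)) * (L * (2 * K - L)) := by
      have h6 : L * (2 * K - L) ≤ (K : ℝ) ^ 2 := by nlinarith [sq_nonneg (L - K)]
      have h7 : 1 / (2 * (K : ℝ) ^ 2) * (L * (2 * K - L)) ≤ 1 / 2 := by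
        rw [div_mul_eq_mul_div, one_mul, div_le_iff₀ (by positivity)]
        linarith
      linarith
    have h8 := mul_le_mul_of_nonneg_left h5 hρ0
    have h9 : (L / K + ρ * (L * (2 * K - L)) + ((L + 1) / K + ρ * ((L + 1) * (2 * K - (L + 1)))) +
        ((L - 1) / K + ρ * ((L - 1) * (2 * K - (L - 1)))) + (L / K + ρ * (L * (2 * K - L)))) / 4 =
        L / K + ρ * (L * (2 * K - L) - 1 / 2) := by ring
    rw [pow_succ, ← hρ, mul_assoc]
    linarith

theorem tendsto_W (x : Cfg) (a : ℤ) :
    Tendsto (fun t => evolve nb rule t (Measure.dirac x) (W a (a + 1))) atTop (𝓝 0) := by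
  obtain ⟨y, hx⟩ := exists_Z x
  rw [← ENNReal.tendsto_toReal_iff (fun _ => measure_ne_top _ _) (by simp), Metric.tendsto_atTop]
  intro ε hε
  obtain ⟨K, hK⟩ := exists_nat_gt (max 1 (2 / ε))
  have hK1 : (1 : ℝ) < K := (le_max_left _ _).trans_lt hK
  have hK2 : 2 / ε < K := (le_max_right _ _).trans_lt hK
  have hK3 : 1 ≤ K := by exact_mod_cast hK1.le
  have hr0 : 0 ≤ 1 - 1 / (2 * (K : ℝ) ^ 2) := by
    rw [sub_nonneg, div_le_one (by positivity)]
    nlinarith
  have hr1 : 1 - 1 / (2 * (K : ℝ) ^ 2) < 1 := by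
    have : 0 < 1 / (2 * (K : ℝ) ^ 2) := by positivity
    linarith
  have h1 := (tendsto_pow_atTop_nhds_zero_of_lt_one hr0 hr1).mul_const (2 * K - 1 : ℝ)
  rw [zero_mul] at h1
  obtain ⟨s, hs⟩ := ((tendsto_order.mp h1).2 (ε / 2) (by positivity)).exists
  refine ⟨(y - a).natAbs + 3 * s + 1, fun t ht => ?_⟩
  obtain ⟨t₀, rfl⟩ : ∃ t₀, t = t₀ + s := ⟨t - s, by omega⟩
  have := bound_W x y hx t₀ K hK3 s a (a + 1) (by omega) (by omega) (by omega) (by omega)
  push_cast at this
  simp only [add_sub_cancel_left, one_mul] at this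
  have h4 : 1 / (K : ℝ) < ε / 2 := by
    rw [div_lt_iff₀ hε] at hK2
    rw [div_lt_iff₀ (by positivity)]
    linarith
  rw [Real.dist_eq, ENNReal.toReal_zero, sub_zero, abs_of_nonneg ENNReal.toReal_nonneg]
  simp only [measureReal_def] at this
  linarith

def Wp (a : ℤ) : Set Cfg := {y | Gp y (st a) = true}

theorem measurableSet_Wp (a : ℤ) : MeasurableSet (Wp a) :=
  measurable_Gp (st a) (MeasurableSet.singleton true)

theorem tendsto_Wp (x : Cfg) (a : ℤ) :
    Tendsto (fun t => evolve nb rule t (Measure.dirac x) (Wp a)) atTop (𝓝 0) := by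
  obtain ⟨y, hx⟩ := exists_Z x
  refine tendsto_const_nhds.congr' (eventually_atTop.mpr ⟨(y - a).natAbs + 1, fun t ht => ?_⟩)
  refine (measure_mono_null ?_ (evolve_Pt x y hx t (a - 1) a (by omega) (by omega))).symm
  intro z hz
  exact ⟨a - 1, le_rfl, by omega, ((Gp_st z a).mp hz).1⟩

def x₀ : Cfg := fun _ => (false, false, false)

noncomputable def π₀ : Measure Cfg := stepLaw nb rule x₀

instance : IsProbabilityMeasure π₀ := by unfold π₀; infer_instance

theorem tendsto_dirac (x : Cfg) (D : Finset Site) (u : Cfg) :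
    Tendsto (fun t => evolve nb rule t (Measure.dirac x) (cyl D u)) atTop (𝓝 (π₀ (cyl D u))) := by
  let U : Set Cfg := ⋃ i ∈ D, (W (i 0) (i 0 + 1) ∪ Wp (i 0))
  have hU : MeasurableSet U :=
    Finset.measurableSet_biUnion _ (fun _ _ => (measurableSet_W _ _).union (measurableSet_Wp _))
  have h1 : ∀ y, y ∉ U → stepLaw nb rule y (cyl D u) = π₀ (cyl D u) := by
    intro y hy
    rw [π₀, stepLaw_cyl, stepLaw_cyl]
    refine Finset.prod_congr rfl (fun i hi => ?_)
    have h2 : Gs y i = false := by
      by_contra h3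
      apply hy
      refine Set.mem_biUnion hi (Or.inl ⟨i 0, le_rfl, by omega, ?_⟩)
      rw [st_eta]
      simpa using h3
    have h2' : Gp y i = false := by
      by_contra h3
      apply hy
      refine Set.mem_biUnion hi (Or.inr ?_)
      simp only [Wp, Set.mem_ofPred_eq]
      rw [st_eta]
      simpa using h3
    simp only [Gs, Gp] at h2 h2'
    simp only [rule, h2, h2']
    rfl
  have hm : Measurable (fun y => stepLaw nb rule y (cyl D u)) :=
    (Measure.measurable_coe (measurableSet_cyl D u)).comp (measurable_stepLaw nb rule)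
  have h2 : ∀ (ν : Measure Cfg) [IsProbabilityMeasure ν],
      ν.bind (stepLaw nb rule) (cyl D u) ≤ π₀ (cyl D u) + ν U := by
    intro ν _
    rw [Measure.bind_apply (measurableSet_cyl D u) (measurable_stepLaw nb rule).aemeasurable]
    calc _ ≤ ∫⁻ y, (π₀ (cyl D u) + U.indicator 1 y) ∂ν := by
          refine lintegral_mono (fun y => ?_)
          by_cases hy : y ∈ U
          · rw [Set.indicator_of_mem hy]
            exact prob_le_one.trans le_add_self
          · rw [h1 y hy]
            exact le_self_add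
      _ = _ := by
          rw [lintegral_add_left measurable_const, lintegral_indicator_one hU]
          simp
  have h3 : ∀ (ν : Measure Cfg) [IsProbabilityMeasure ν],
      π₀ (cyl D u) ≤ ν.bind (stepLaw nb rule) (cyl D u) + ν U := by
    intro ν _
    rw [Measure.bind_apply (measurableSet_cyl D u) (measurable_stepLaw nb rule).aemeasurable]
    calc _ = ∫⁻ _, π₀ (cyl D u) ∂ν := by simp
      _ ≤ ∫⁻ y, (stepLaw nb rule y (cyl D u) + U.indicator 1 y) ∂ν := by
          refine lintegral_mono (fun y => ?_)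
          by_cases hy : y ∈ U
          · rw [Set.indicator_of_mem hy]
            exact prob_le_one.trans le_add_self
          · rw [h1 y hy]
            exact le_self_add
      _ = _ := by
          rw [lintegral_add_left hm, lintegral_indicator_one hU]
  have h4 : Tendsto (fun t => evolve nb rule t (Measure.dirac x) U) atTop (𝓝 0) := by
    have h5 := tendsto_finsetSum D (fun i _ => (tendsto_W x (i 0)).add (tendsto_Wp x (i 0)))
    simp only [add_zero, Finset.sum_const_zero] at h5
    refine tendsto_of_tendsto_of_tendsto_of_le_of_le tendsto_const_nhds h5 (fun _ => bot_le)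
      (fun t => ?_)
    exact (measure_biUnion_finset_le _ _).trans (Finset.sum_le_sum (fun i _ => measure_union_le _ _))
  rw [← tendsto_add_atTop_iff_nat 1, ENNReal.tendsto_nhds (measure_ne_top _ _)]
  intro ε hε
  filter_upwards [(tendsto_order.mp h4).2 ε hε] with t ht
  rw [evolve_succ]
  constructor
  · rw [tsub_le_iff_right]
    exact (h3 _).trans (add_le_add le_rfl ht.le)
  · exact (h2 _).trans (add_le_add le_rfl ht.le)

theorem tendsto_all (μ : Measure Cfg) [IsProbabilityMeasure μ] (D : Finset Site) (u : Cfg) :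
    Tendsto (fun t => evolve nb rule t μ (cyl D u)) atTop (𝓝 (π₀ (cyl D u))) := by
  have hind : ∀ (x : Cfg), (cyl D u).indicator (1 : Cfg → ℝ≥0∞) x ≤ 1 := by
    intro x
    by_cases hx : x ∈ cyl D u <;> simp [hx]
  simp only [evolve_apply nb rule _ μ (measurableSet_cyl D u)]
  have h1 := tendsto_lintegral_of_dominated_convergence (μ := μ)
    (F := fun t x => (T nb rule)^[t] ((cyl D u).indicator 1) x) (f := fun _ => π₀ (cyl D u))
    (fun _ => 1)
    (fun t => measurable_iter_T nb rule (measurable_one.indicator (measurableSet_cyl D u)) t)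
    (fun t => Eventually.of_forall (fun x => iter_T_le_one nb rule hind t x)) (by simp)
    (Eventually.of_forall (fun x => by
      simpa only [evolve_dirac nb rule _ x (measurableSet_cyl D u)] using tendsto_dirac x D u))
  simpa using h1

/-- A particle at `i` with nothing ahead of it. -/
def Lone (i : ℤ) : Set Cfg := {z | (z (st i)).1 = true ∧ ∀ j : ℤ, i < j → es (z (st j)) = false}

theorem measurableSet_Lone (i : ℤ) : MeasurableSet (Lone i) := by
  rw [Lone, measurableSet_setOfPred]
  exact (meas_at (fun c => c.1 = true) _).and (Measurable.forall (fun j =>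
    measurable_const.imp (meas_at (fun c => es c = false) _)))

theorem Lone_step (i : ℤ) (z : Cfg) (hz : z ∈ Lone i) (β : Site → Bool) :
    Γ z β ∈ Lone (i + 1) := by
  obtain ⟨h1, h2⟩ := hz
  constructor
  · change Gp z (st (i + 1)) = true
    rw [Gp_st, add_sub_cancel_right]
    exact ⟨h1, h2 _ (by omega), h2 _ (by omega), h2 _ (by omega)⟩
  · intro j hj
    have k1 : Gp z (st j) = false := by
      by_contra h
      have h3 := ((Gp_st z j).mp (by simpa using h)).1
      have h4 := h2 (j - 1) (by omega)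
      simp [es, h3] at h4
    have k2 : Gs z (st j) = false := by
      by_contra h
      have h3 := (Gs_st z j).mp (by simpa using h)
      rw [h2 (j + 1) (by omega), h2 (j + 2) (by omega)] at h3
      simp at h3
    simp [Γ, es, k1, k2]

def xl (i : ℤ) : Cfg := fun j => (decide (j 0 = i), false, false)

theorem evolve_Lone (i : ℤ) (t : ℕ) :
    evolve nb rule t (Measure.dirac (xl i)) (Lone (i + t))ᶜ = 0 := by
  induction t with
  | zero =>
    rw [evolve_zero, Measure.dirac_apply' _ (measurableSet_Lone _).compl]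
    have : xl i ∈ Lone i := by
      refine ⟨by simp [xl, st], fun j hj => ?_⟩
      simp [xl, st, es, hj.ne']
    simp [this]
  | succ t ih =>
    rw [evolve_succ]
    refine sure_step (measurableSet_Lone _) (fun z hz β => ?_) _ ih
    have := Lone_step _ z hz β
    push_cast
    rwa [add_assoc] at this

theorem not_uniform (π : Measure Cfg)
    (h : ∀ (D : Finset Site) (u : Cfg) (ε : ℝ), 0 < ε → ∃ n0 : ℕ, ∀ n : ℕ, n0 ≤ n →
      ∀ μ : Measure Cfg, IsProbabilityMeasure μ →
        |(evolve nb rule n μ (cyl D u)).toReal - (π (cyl D u)).toReal| < ε) : False := by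
  choose n0 hn0 using fun c : Bool × Bool => h {st 0} (fun _ => (true, c)) (1 / 8) (by norm_num)
  obtain ⟨n, hn1, hn⟩ : ∃ n : ℕ, 1 ≤ n ∧ ∀ c, n0 c ≤ n := ⟨∑ c, n0 c + 1, by omega, fun c =>
    (Finset.single_le_sum (f := n0) (fun _ _ => Nat.zero_le _) (Finset.mem_univ c)).trans
      (Nat.le_succ _)⟩
  set ν := evolve nb rule n (Measure.dirac (xl (-n))) with hν
  have h1 : ∀ c : Bool × Bool, ν.real (cyl {st 0} (fun _ => (true, c))) < 1 / 4 := by
    intro c
    have k1 := hn0 c n (hn c) (Measure.dirac (xl (-n))) inferInstance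
    have k2 := hn0 c n (hn c) (Measure.dirac x₀) inferInstance
    have k3 : evolve nb rule n (Measure.dirac x₀) (cyl {st 0} (fun _ => (true, c))) = 0 := by
      refine measure_mono_null ?_ (evolve_Pt x₀ (1 - n) (Or.inr (fun _ => rfl)) n 0 1 (by omega)
        (by omega))
      intro z hz
      refine ⟨0, le_rfl, by omega, ?_⟩
      rw [hz (st 0) (Finset.mem_singleton_self _)]
    rw [k3] at k2
    rw [abs_lt] at k1 k2
    simp only [ENNReal.toReal_zero] at k2
    rw [measureReal_def]
    linarith [k1.2, k2.1]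
  have h2 : ν.real (Lone 0) = 1 := by
    have := evolve_Lone (-n) n
    rw [neg_add_cancel, prob_compl_eq_zero_iff (measurableSet_Lone 0)] at this
    rw [measureReal_def, this, ENNReal.toReal_one]
  have h3 : Lone 0 ⊆ ⋃ c : Bool × Bool, cyl {st 0} (fun _ => (true, c)) := by
    rintro z ⟨hz, -⟩
    refine Set.mem_iUnion.mpr ⟨(z (st 0)).2, fun i hi => ?_⟩
    rw [Finset.mem_singleton.mp hi, ← hz]
  have h4 := (measureReal_mono h3 (measure_ne_top ν _)).trans (measureReal_iUnion_fintype_le _)
  rw [h2] at h4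
  simp only [Fintype.sum_prod_type, Fintype.sum_bool] at h4
  linarith [h1 (true, true), h1 (true, false), h1 (false, true), h1 (false, false)]

end Pool.Agent.H179Z.NonUnif
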