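import Pool.Agent.H179Z.PCADefs

/-!
Basic facts on probabilistic cellular automata: measurability of the kernel, the transfer
operator, finite speed of propagation, independence at large distance, shift equivariance, and
the equivalence of weak convergence with convergence on cylinders.
-/

set_option autoImplicit false
set_option linter.unusedSectionVars false

open MeasureTheory ProbabilityTheory Filter Topology
open scoped ENNReal Pointwise

namespace Pool.Agent.H179Z.PCA

variable {d : ℕ} {A : Type} [Fintype A] [MeasurableSpace A] [DiscreteMeasurableSpace A]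
variable (N : Finset (Fin d → ℤ)) (φ : (N → A) → PMF A)

instance stepLaw_prob (x : (Fin d → ℤ) → A) : IsProbabilityMeasure (stepLaw N φ x) := by
  unfold stepLaw; infer_instance

open Classical in
/-- The law of the random local rule at one site. -/
noncomputable def R : Measure ((N → A) → A) := Measure.pi (fun u => (φ u).toMeasure)

instance R_prob : IsProbabilityMeasure (R N φ) := by unfold R; infer_instance

/-- The law of the field of random local rules. -/
noncomputable def P : Measure ((Fin d → ℤ) → ((N → A) → A)) :=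
  Measure.infinitePi (fun _ => R N φ)

instance P_prob : IsProbabilityMeasure (P N φ) := by unfold P; infer_instance

def Ψ (z : ((Fin d → ℤ) → A) × ((Fin d → ℤ) → ((N → A) → A))) : (Fin d → ℤ) → A :=
  fun i => z.2 i (fun v => z.1 (i + v.1))

theorem measurable_Ψ : Measurable (Ψ (A := A) N) := by
  refine measurable_pi_lambda _ (fun i => ?_)
  have h1 : Measurable (fun z : ((N → A) → A) × (N → A) => z.1 z.2) := measurable_of_countable _
  have h2 : Measurable (fun z : ((Fin d → ℤ) → A) × ((Fin d → ℤ) → ((N → A) → A)) =>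
      ((z.2 i, fun v => z.1 (i + v.1)) : ((N → A) → A) × (N → A))) := by fun_prop
  exact h1.comp h2

theorem stepLaw_eq (x : (Fin d → ℤ) → A) :
    stepLaw N φ x = ((P N φ).map (Prod.mk x)).map (Ψ N) := by
  classical
  rw [Measure.map_map (measurable_Ψ N) measurable_prodMk_left]
  have h1 := Measure.infinitePi_map_pi (fun _ : Fin d → ℤ => R N φ)
    (f := fun i (ξ : (N → A) → A) => ξ (fun v => x (i + v.1))) (fun i => measurable_pi_apply _)
  unfold stepLaw P
  refine Eq.trans ?_ h1.symm
  congr 1
  funext i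
  exact ((measurePreserving_eval (fun u => (φ u).toMeasure) (fun v => x (i + v.1))).map_eq).symm

theorem measurable_stepLaw : Measurable (stepLaw N φ) := by
  have : stepLaw N φ = fun x => ((P N φ).map (Prod.mk x)).map (Ψ N) := funext (stepLaw_eq N φ)
  rw [this]
  exact (Measure.measurable_map _ (measurable_Ψ N)).comp Measurable.map_prodMk_left

theorem bind_prob (m : Measure ((Fin d → ℤ) → A)) [IsProbabilityMeasure m] :
    IsProbabilityMeasure (m.bind (stepLaw N φ)) := by
  constructor
  rw [Measure.bind_apply MeasurableSet.univ (measurable_stepLaw N φ).aemeasurable]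
  simp

theorem evolve_zero (μ : Measure ((Fin d → ℤ) → A)) : evolve N φ 0 μ = μ := rfl

theorem evolve_succ (t : ℕ) (μ : Measure ((Fin d → ℤ) → A)) :
    evolve N φ (t + 1) μ = (evolve N φ t μ).bind (stepLaw N φ) :=
  Function.iterate_succ_apply' _ _ _

theorem evolve_succ' (t : ℕ) (μ : Measure ((Fin d → ℤ) → A)) :
    evolve N φ (t + 1) μ = evolve N φ t (μ.bind (stepLaw N φ)) :=
  Function.iterate_succ_apply _ _ _

instance evolve_prob (t : ℕ) (μ : Measure ((Fin d → ℤ) → A)) [IsProbabilityMeasure μ] :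
    IsProbabilityMeasure (evolve N φ t μ) := by
  induction t with
  | zero => rwa [evolve_zero]
  | succ t ih => rw [evolve_succ]; exact bind_prob N φ _

theorem evolve_invariant {π : Measure ((Fin d → ℤ) → A)} (h : IsInvariant N φ π) (t : ℕ) :
    evolve N φ t π = π := by
  induction t with
  | zero => rfl
  | succ t ih => rw [evolve_succ, ih, h.2]

/-- The transfer operator. -/
noncomputable def T (g : ((Fin d → ℤ) → A) → ℝ≥0∞) (x : (Fin d → ℤ) → A) : ℝ≥0∞ :=
  ∫⁻ y, g y ∂(stepLaw N φ x)

theorem measurable_T {g : ((Fin d → ℤ) → A) → ℝ≥0∞} (hg : Measurable g) :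
    Measurable (T N φ g) :=
  (Measure.measurable_lintegral hg).comp (measurable_stepLaw N φ)

theorem measurable_iter_T {g : ((Fin d → ℤ) → A) → ℝ≥0∞} (hg : Measurable g) (t : ℕ) :
    Measurable ((T N φ)^[t] g) := by
  induction t with
  | zero => exact hg
  | succ t ih => rw [Function.iterate_succ_apply']; exact measurable_T N φ ih

theorem lintegral_evolve (t : ℕ) (μ : Measure ((Fin d → ℤ) → A))
    {g : ((Fin d → ℤ) → A) → ℝ≥0∞} (hg : Measurable g) :
    ∫⁻ y, g y ∂(evolve N φ t μ) = ∫⁻ x, ((T N φ)^[t] g) x ∂μ := by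
  induction t generalizing g with
  | zero => rfl
  | succ t ih =>
    rw [evolve_succ, Measure.lintegral_bind (measurable_stepLaw N φ).aemeasurable hg.aemeasurable,
      Function.iterate_succ_apply, ← ih (measurable_T N φ hg)]
    rfl

theorem evolve_apply (t : ℕ) (μ : Measure ((Fin d → ℤ) → A)) {s : Set ((Fin d → ℤ) → A)}
    (hs : MeasurableSet s) :
    evolve N φ t μ s = ∫⁻ x, ((T N φ)^[t] (s.indicator 1)) x ∂μ := by
  rw [← lintegral_evolve N φ t μ (measurable_one.indicator hs), lintegral_indicator_one hs]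

theorem evolve_dirac (t : ℕ) (x : (Fin d → ℤ) → A) {s : Set ((Fin d → ℤ) → A)}
    (hs : MeasurableSet s) :
    evolve N φ t (Measure.dirac x) s = ((T N φ)^[t] (s.indicator 1)) x := by
  rw [evolve_apply N φ t _ hs,
    lintegral_dirac' _ (measurable_iter_T N φ (measurable_one.indicator hs) t)]

theorem T_eq {g : ((Fin d → ℤ) → A) → ℝ≥0∞} (hg : Measurable g) (x : (Fin d → ℤ) → A) :
    T N φ g x = ∫⁻ ξ, g (Ψ N (x, ξ)) ∂(P N φ) := by
  rw [T, stepLaw_eq, lintegral_map hg (measurable_Ψ N),
    lintegral_map (f := fun a => g (Ψ N a)) (hg.comp (measurable_Ψ N)) measurable_prodMk_left]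

theorem factor_of_dependsOn {β : Type*} {g : ((Fin d → ℤ) → A) → β} {D : Finset (Fin d → ℤ)}
    (hg : DependsOn g D) (x₀ : (Fin d → ℤ) → A) :
    g = (fun z : D → A => g (Function.updateFinset x₀ D z)) ∘ (fun x (i : D) => x i) := by
  funext x
  apply hg
  intro i hi
  have hi' : i ∈ D := hi
  simp [Function.updateFinset, hi']

theorem measurable_of_dependsOn {β : Type*} [MeasurableSpace β] {g : ((Fin d → ℤ) → A) → β}
    {D : Finset (Fin d → ℤ)} (hg : DependsOn g D) : Measurable g := by
  rcases isEmpty_or_nonempty ((Fin d → ℤ) → A) with h | ⟨⟨x₀⟩⟩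
  · exact measurable_of_empty _
  · rw [factor_of_dependsOn hg x₀]
    exact (measurable_of_countable _).comp (measurable_pi_lambda _ (fun i => measurable_pi_apply _))

theorem T_dependsOn {g : ((Fin d → ℤ) → A) → ℝ≥0∞} {D : Finset (Fin d → ℤ)}
    (hg : DependsOn g D) : DependsOn (T N φ g) (D + N : Finset (Fin d → ℤ)) := by
  intro x y hxy
  rw [T_eq N φ (measurable_of_dependsOn hg), T_eq N φ (measurable_of_dependsOn hg)]
  congr 1
  funext ξ
  apply hg
  intro i hi
  simp only [Ψ]
  congr 1
  funext v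
  exact hxy _ (Finset.mem_coe.mpr (Finset.add_mem_add hi v.2))

theorem T_mul {g h : ((Fin d → ℤ) → A) → ℝ≥0∞} {D E : Finset (Fin d → ℤ)}
    (hg : DependsOn g D) (hh : DependsOn h E) (hDE : Disjoint D E) :
    T N φ (g * h) = T N φ g * T N φ h := by
  funext x
  have h1 : iIndepFun (fun (i : Fin d → ℤ) (ω : (Fin d → ℤ) → A) => ω i) (stepLaw N φ x) :=
    iIndepFun_infinitePi (X := fun _ a => a) (fun _ => measurable_id)
  have h2 := h1.indepFun_finset D E hDE (fun i => measurable_pi_apply i)
  have h3 := h2.comp (φ := fun z : D → A => g (Function.updateFinset x D z))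
    (ψ := fun z : E → A => h (Function.updateFinset x E z))
    (measurable_of_countable _) (measurable_of_countable _)
  rw [← factor_of_dependsOn hg x, ← factor_of_dependsOn hh x] at h3
  exact lintegral_mul_eq_lintegral_mul_lintegral_of_indepFun (measurable_of_dependsOn hg)
    (measurable_of_dependsOn hh) h3

theorem iter_T_mul (r : ℝ) (hr0 : 0 ≤ r) (hr : ∀ v ∈ N, ‖v‖ ≤ r) (t : ℕ)
    {g h : ((Fin d → ℤ) → A) → ℝ≥0∞} {D E : Finset (Fin d → ℤ)}
    (hg : DependsOn g D) (hh : DependsOn h E) (hDE : ∀ a ∈ D, ∀ b ∈ E, 2 * t * r < ‖a - b‖) :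
    (T N φ)^[t] (g * h) = (T N φ)^[t] g * (T N φ)^[t] h := by
  induction t generalizing g h D E with
  | zero => rfl
  | succ t ih =>
    have hd : Disjoint D E := by
      rw [Finset.disjoint_left]
      intro a ha hb
      have := hDE a ha a hb
      rw [sub_self, norm_zero] at this
      have h2 : (0 : ℝ) ≤ 2 * ((t + 1 : ℕ) : ℝ) * r := by positivity
      linarith
    simp only [Function.iterate_succ_apply]
    rw [T_mul N φ hg hh hd]
    refine ih (T_dependsOn N φ hg) (T_dependsOn N φ hh) ?_
    intro a ha b hb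
    obtain ⟨a', ha', v, hv, rfl⟩ := Finset.mem_add.mp ha
    obtain ⟨b', hb', w, hw, rfl⟩ := Finset.mem_add.mp hb
    have h1 := hDE a' ha' b' hb'
    have h2 : a' - b' = (a' + v - (b' + w)) + (w - v) := by abel
    have h3 : ‖a' - b'‖ ≤ ‖a' + v - (b' + w)‖ + (‖w‖ + ‖v‖) := by
      rw [h2]
      refine (norm_add_le _ _).trans ?_
      exact add_le_add le_rfl (norm_sub_le _ _)
    have h4 := hr v hv
    have h5 := hr w hw
    push_cast at h1
    linarith

theorem iter_T_le_one {g : ((Fin d → ℤ) → A) → ℝ≥0∞} (hg : ∀ x, g x ≤ 1) (t : ℕ)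
    (x : (Fin d → ℤ) → A) : (T N φ)^[t] g x ≤ 1 := by
  induction t generalizing x with
  | zero => exact hg x
  | succ t ih =>
    rw [Function.iterate_succ_apply']
    refine (lintegral_mono ih).trans ?_
    simp

theorem measurable_shift (k : Fin d → ℤ) : Measurable (shift (A := A) k) :=
  measurable_pi_lambda _ (fun _ => measurable_pi_apply _)

theorem stepLaw_shift (k : Fin d → ℤ) (x : (Fin d → ℤ) → A) :
    stepLaw N φ (shift k x) = (stepLaw N φ x).map (shift k) := by
  have h1 := Measure.map_infinitePi_infinitePi_of_inj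
    (P := fun i : Fin d → ℤ => (φ (fun v => x (i + v.1))).toMeasure) (f := fun i => i + k)
    (add_left_injective k)
  unfold stepLaw
  refine Eq.trans ?_ h1.symm
  congr 1
  funext i
  congr 2
  funext v
  simp only [shift]
  congr 1
  abel

theorem bind_map_shift (k : Fin d → ℤ) (m : Measure ((Fin d → ℤ) → A)) :
    (m.map (shift k)).bind (stepLaw N φ) = (m.bind (stepLaw N φ)).map (shift k) := by
  ext s hs
  rw [Measure.bind_apply hs (measurable_stepLaw N φ).aemeasurable,
    Measure.map_apply (measurable_shift k) hs,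
    Measure.bind_apply (measurable_shift k hs) (measurable_stepLaw N φ).aemeasurable,
    lintegral_map (f := fun a => stepLaw N φ a s)
      ((Measure.measurable_coe hs).comp (measurable_stepLaw N φ)) (measurable_shift k)]
  congr 1
  funext x
  rw [stepLaw_shift, Measure.map_apply (measurable_shift k) hs]

theorem evolve_map_shift (k : Fin d → ℤ) (m : Measure ((Fin d → ℤ) → A)) (t : ℕ) :
    evolve N φ t (m.map (shift k)) = (evolve N φ t m).map (shift k) := by
  induction t with
  | zero => rfl
  | succ t ih => rw [evolve_succ, evolve_succ, ih, bind_map_shift]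

theorem cyl_eq_pi (D : Finset (Fin d → ℤ)) (u : (Fin d → ℤ) → A) :
    cyl D u = Set.pi D (fun i => {u i}) := by
  ext x
  simp [cyl]

theorem measurableSet_cyl (D : Finset (Fin d → ℤ)) (u : (Fin d → ℤ) → A) :
    MeasurableSet (cyl D u) := by
  rw [cyl_eq_pi]
  exact MeasurableSet.pi D.countable_toSet (fun _ _ => MeasurableSet.of_discrete)

theorem dependsOn_cyl (D : Finset (Fin d → ℤ)) (u : (Fin d → ℤ) → A) :
    DependsOn ((cyl D u).indicator (1 : ((Fin d → ℤ) → A) → ℝ≥0∞)) D := by
  intro x y hxy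
  have : x ∈ cyl D u ↔ y ∈ cyl D u :=
    forall_congr' (fun i => forall_congr' (fun hi => by rw [hxy i hi]))
  by_cases hx : x ∈ cyl D u
  · rw [Set.indicator_of_mem hx, Set.indicator_of_mem (this.mp hx)]; rfl
  · rw [Set.indicator_of_notMem hx, Set.indicator_of_notMem (fun h => hx (this.mpr h))]

theorem preimage_shift_cyl (k : Fin d → ℤ) (D : Finset (Fin d → ℤ)) (u : (Fin d → ℤ) → A) :
    shift k ⁻¹' cyl D u = cyl (D.image (fun i => i + k)) (fun i => u (i - k)) := by
  ext x
  simp only [cyl, shift, Set.mem_preimage, Set.mem_ofPred_eq, Finset.mem_image]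
  constructor
  · rintro h _ ⟨i, hi, rfl⟩
    rw [h i hi, add_sub_cancel_right]
  · intro h i hi
    rw [h _ ⟨i, hi, rfl⟩, add_sub_cancel_right]

theorem stepLaw_cyl (x : (Fin d → ℤ) → A) (D : Finset (Fin d → ℤ)) (u : (Fin d → ℤ) → A) :
    stepLaw N φ x (cyl D u) = ∏ i ∈ D, φ (fun v => x (i + v.1)) (u i) := by
  rw [cyl_eq_pi, stepLaw, Measure.infinitePi_pi _ (fun _ _ => MeasurableSet.of_discrete)]
  refine Finset.prod_congr rfl (fun i _ => ?_)
  rw [PMF.toMeasure_apply_singleton _ _ MeasurableSet.of_discrete]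

section top

variable [TopologicalSpace A] [DiscreteTopology A]

theorem isClopen_cyl (D : Finset (Fin d → ℤ)) (u : (Fin d → ℤ) → A) : IsClopen (cyl D u) := by
  rw [cyl_eq_pi]
  exact ⟨isClosed_set_pi (fun _ _ => isClosed_discrete _),
    isOpen_set_pi D.finite_toSet (fun _ _ => isOpen_discrete _)⟩

theorem tendsto_cyl_of_ergodic {π : Measure ((Fin d → ℤ) → A)} (h : ErgodicWith N φ π)
    (μ : Measure ((Fin d → ℤ) → A)) [IsProbabilityMeasure μ]
    (D : Finset (Fin d → ℤ)) (u : (Fin d → ℤ) → A) :
    Tendsto (fun t => evolve N φ t μ (cyl D u)) atTop (𝓝 (π (cyl D u))) := by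
  have := h.1.1
  have h1 := h.2.2 μ inferInstance (BoundedContinuousFunction.indicator _ (isClopen_cyl D u))
  have h2 : ∀ m : Measure ((Fin d → ℤ) → A),
      ∫ x, BoundedContinuousFunction.indicator _ (isClopen_cyl D u) x ∂m = m.real (cyl D u) :=
    fun m => integral_indicator_one (measurableSet_cyl D u)
  simp only [h2, measureReal_def] at h1
  exact (ENNReal.tendsto_toReal_iff (fun _ => measure_ne_top _ _) (measure_ne_top _ _)).mp h1

theorem borel_A : BorelSpace A :=
  ⟨le_antisymm (fun _ _ => MeasurableSpace.measurableSet_generateFrom (isOpen_discrete _))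
    (fun _ _ => MeasurableSet.of_discrete)⟩

theorem ergodic_of_tendsto_cyl {π : Measure ((Fin d → ℤ) → A)} (hπ : IsInvariant N φ π)
    (h : ∀ μ : Measure ((Fin d → ℤ) → A), IsProbabilityMeasure μ →
      ∀ (D : Finset (Fin d → ℤ)) (u : (Fin d → ℤ) → A),
        Tendsto (fun t => evolve N φ t μ (cyl D u)) atTop (𝓝 (π (cyl D u)))) :
    ErgodicWith N φ π := by
  classical
  have := hπ.1
  have := borel_A (A := A)
  have key : ∀ μ : Measure ((Fin d → ℤ) → A), IsProbabilityMeasure μ →
      ∀ f : BoundedContinuousFunction ((Fin d → ℤ) → A) ℝ,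
        Tendsto (fun t : ℕ => ∫ x, f x ∂(evolve N φ t μ)) atTop (𝓝 (∫ x, f x ∂π)) := by
    intro μ hμ
    let S : Set (Set ((Fin d → ℤ) → A)) := {s | ∃ D u, s = cyl D u}
    have hS : IsPiSystem S := by
      rintro _ ⟨D, u, rfl⟩ _ ⟨E, v, rfl⟩ ⟨w, hw1, hw2⟩
      refine ⟨D ∪ E, w, ?_⟩
      ext x
      simp only [cyl, Set.mem_inter_iff, Set.mem_ofPred_eq, Finset.mem_union]
      constructor
      · rintro ⟨h1, h2⟩ i (hi | hi)
        · rw [h1 i hi, hw1 i hi]
        · rw [h2 i hi, hw2 i hi]
      · intro h1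
        exact ⟨fun i hi => by rw [h1 i (Or.inl hi), hw1 i hi],
          fun i hi => by rw [h1 i (Or.inr hi), hw2 i hi]⟩
    have h1 := hS.tendsto_probabilityMeasure_of_tendsto_of_mem
      (μ := fun t : ℕ => (⟨evolve N φ t μ, inferInstance⟩ : ProbabilityMeasure _))
      (ν := ⟨π, inferInstance⟩) (l := atTop) ?_ ?_ ?_
    · exact ProbabilityMeasure.tendsto_iff_forall_integral_tendsto.mp h1
    · rintro _ ⟨D, u, rfl⟩
      exact measurableSet_cyl D u
    · intro U hU x hx
      obtain ⟨I, v, h2, h3⟩ := isOpen_pi_iff.mp hU x hx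
      refine ⟨cyl I x, ⟨I, x, rfl⟩, (isClopen_cyl I x).isOpen.mem_nhds (fun _ _ => rfl), ?_⟩
      intro y hy
      apply h3
      intro i hi
      rw [hy i hi]
      exact (h2 i hi).2
    · rintro _ ⟨D, u, rfl⟩
      exact (ENNReal.tendsto_toNNReal (measure_ne_top π _)).comp (h μ hμ D u)
  refine ⟨hπ, fun π' hπ' => ?_, key⟩
  have := hπ'.1
  refine ext_of_forall_integral_eq_of_IsFiniteMeasure (fun f => ?_)
  have h1 := key π' inferInstance f
  simp only [evolve_invariant N φ hπ'] at h1
  exact tendsto_nhds_unique tendsto_const_nhds h1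

end top

end Pool.Agent.H179Z.PCA
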