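import Mathlib

/-!
Probabilistic cellular automata on `ℤ^d` with alphabet `A`, finite neighbourhood `N` and local
rule `φ`.
-/

set_option autoImplicit false

open MeasureTheory Filter Topology

namespace Pool.Agent.H179Z.PCA

variable {d : ℕ} {A : Type} [MeasurableSpace A]

/-- The transition kernel `Φ(x, ·)`: the new symbols are independent, the one at site `i` having
law `φ ((x (i + v))_{v ∈ N})`. -/
noncomputable def stepLaw (N : Finset (Fin d → ℤ)) (φ : (N → A) → PMF A)
    (x : (Fin d → ℤ) → A) : Measure ((Fin d → ℤ) → A) :=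
  Measure.infinitePi (fun i : Fin d → ℤ => (φ (fun v => x (i + v.1))).toMeasure)

/-- The law `μ Φ^t` after `t` steps from the initial law `μ`. -/
noncomputable def evolve (N : Finset (Fin d → ℤ)) (φ : (N → A) → PMF A) (t : ℕ)
    (μ : Measure ((Fin d → ℤ) → A)) : Measure ((Fin d → ℤ) → A) :=
  (fun m : Measure ((Fin d → ℤ) → A) => m.bind (stepLaw N φ))^[t] μ

/-- The cylinder of configurations equal to `u` on the finite set `D`. -/
def cyl (D : Finset (Fin d → ℤ)) (u : (Fin d → ℤ) → A) : Set ((Fin d → ℤ) → A) :=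
  {x | ∀ i ∈ D, x i = u i}

/-- The shift `(σ^k x)_i = x_{i+k}`. -/
def shift (k : Fin d → ℤ) (x : (Fin d → ℤ) → A) : (Fin d → ℤ) → A := fun i => x (i + k)

/-- `π` is an invariant probability measure: `π Φ = π`. -/
def IsInvariant (N : Finset (Fin d → ℤ)) (φ : (N → A) → PMF A)
    (π : Measure ((Fin d → ℤ) → A)) : Prop :=
  IsProbabilityMeasure π ∧ π.bind (stepLaw N φ) = π

/-- The automaton is ergodic with invariant measure `π`: `π` is the only invariant probability
measure and `μ Φ^t → π` weakly for every initial probability measure `μ`. -/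
def ErgodicWith [TopologicalSpace A] (N : Finset (Fin d → ℤ)) (φ : (N → A) → PMF A)
    (π : Measure ((Fin d → ℤ) → A)) : Prop :=
  IsInvariant N φ π ∧ (∀ π', IsInvariant N φ π' → π' = π) ∧
    ∀ μ : Measure ((Fin d → ℤ) → A), IsProbabilityMeasure μ →
      ∀ f : BoundedContinuousFunction ((Fin d → ℤ) → A) ℝ,
        Tendsto (fun t : ℕ => ∫ x, f x ∂(evolve N φ t μ)) atTop (𝓝 (∫ x, f x ∂π))

/-- Uniform ergodicity: ergodic, and for every cylinder `C` the convergence
`μ Φ^t (C) → π (C)` is uniform over all initial probability measures `μ`. -/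
def UniformlyErgodicWith [TopologicalSpace A] (N : Finset (Fin d → ℤ)) (φ : (N → A) → PMF A)
    (π : Measure ((Fin d → ℤ) → A)) : Prop :=
  ErgodicWith N φ π ∧
    ∀ (D : Finset (Fin d → ℤ)) (u : (Fin d → ℤ) → A) (ε : ℝ), 0 < ε → ∃ T : ℕ, ∀ t, T ≤ t →
      ∀ μ : Measure ((Fin d → ℤ) → A), IsProbabilityMeasure μ →
        |(evolve N φ t μ).real (cyl D u) - π.real (cyl D u)| ≤ ε

end Pool.Agent.H179Z.PCA
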