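import Pool.Agent.H179Z.PCABasic

/-!
Two general tools: uniform loss of memory on cylinders gives uniform ergodicity (existence of the
invariant measure by compactness), and symbolwise factor maps between probabilistic cellular
automata.
-/

set_option autoImplicit false
set_option linter.unusedSectionVars false

open MeasureTheory ProbabilityTheory Filter Topology
open scoped ENNReal Pointwise

namespace Pool.Agent.H179Z.PCA

variable {d : ℕ} {A : Type} [Fintype A] [MeasurableSpace A] [DiscreteMeasurableSpace A]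
variable (N : Finset (Fin d → ℤ)) (φ : (N → A) → PMF A)

theorem evolve_add (s t : ℕ) (μ : Measure ((Fin d → ℤ) → A)) :
    evolve N φ (t + s) μ = evolve N φ t (evolve N φ s μ) :=
  Function.iterate_add_apply _ _ _ _

theorem stepLaw_eval (x : (Fin d → ℤ) → A) (i : Fin d → ℤ) (s : Set A) :
    stepLaw N φ x ((fun y => y i) ⁻¹' s) = (φ (fun v => x (i + v.1))).toMeasure s := by
  rw [← Measure.map_apply (measurable_pi_apply i) MeasurableSet.of_discrete, stepLaw,
    Measure.infinitePi_map_eval]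

section factor

variable {A' : Type} [Fintype A'] [MeasurableSpace A'] [DiscreteMeasurableSpace A']
  (φ' : (N → A') → PMF A') (p : A' → A)

theorem measurable_proj : Measurable (fun (z : (Fin d → ℤ) → A') (i : Fin d → ℤ) => p (z i)) :=
  measurable_pi_lambda _ (fun i => (measurable_of_countable p).comp (measurable_pi_apply i))

theorem stepLaw_factor (h : ∀ u, (φ' u).map p = φ (fun v => p (u v))) (z : (Fin d → ℤ) → A') :
    (stepLaw N φ' z).map (fun z i => p (z i)) = stepLaw N φ (fun i => p (z i)) := by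
  unfold stepLaw
  rw [Measure.infinitePi_map_pi _ (f := fun _ => p) (fun _ => measurable_of_countable p)]
  congr 1
  funext i
  rw [PMF.toMeasure_map _ _ (measurable_of_countable p), h]

theorem evolve_factor (h : ∀ u, (φ' u).map p = φ (fun v => p (u v))) (t : ℕ)
    (ν : Measure ((Fin d → ℤ) → A')) :
    (evolve N φ' t ν).map (fun z i => p (z i)) = evolve N φ t (ν.map (fun z i => p (z i))) := by
  induction t with
  | zero => rfl
  | succ t ih =>
    rw [evolve_succ, evolve_succ, ← ih]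
    ext s hs
    rw [Measure.map_apply (measurable_proj p) hs,
      Measure.bind_apply (measurable_proj p hs) (measurable_stepLaw N φ').aemeasurable,
      Measure.bind_apply hs (measurable_stepLaw N φ).aemeasurable,
      lintegral_map (f := fun a => stepLaw N φ a s)
        ((Measure.measurable_coe hs).comp (measurable_stepLaw N φ)) (measurable_proj p)]
    congr 1
    funext z
    rw [← stepLaw_factor N φ φ' p h, Measure.map_apply (measurable_proj p) hs]

end factor

section top

variable [TopologicalSpace A] [DiscreteTopology A]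

theorem weak_of_cyl (μ : ℕ → Measure ((Fin d → ℤ) → A)) [∀ t, IsProbabilityMeasure (μ t)]
    (π : Measure ((Fin d → ℤ) → A)) [IsProbabilityMeasure π]
    (h : ∀ (D : Finset (Fin d → ℤ)) (u : (Fin d → ℤ) → A),
        Tendsto (fun t => μ t (cyl D u)) atTop (𝓝 (π (cyl D u))))
    (f : BoundedContinuousFunction ((Fin d → ℤ) → A) ℝ) :
    Tendsto (fun t : ℕ => ∫ x, f x ∂(μ t)) atTop (𝓝 (∫ x, f x ∂π)) := by
  classical
  have := borel_A (A := A)
  let S : Set (Set ((Fin d → ℤ) → A)) := {s | ∃ D u, s = cyl D u}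
  have hS : IsPiSystem S := by
    rintro _ ⟨D, u, rfl⟩ _ ⟨E, v, rfl⟩ ⟨w, hw1, hw2⟩
    refine ⟨D ∪ E, w, ?_⟩
    ext x
    simp only [cyl, Set.mem_inter_iff, Set.mem_ofPred_eq, Finset.mem_union]
    constructor
    · rintro ⟨h1, h2⟩ i (hi | hi)
      · rw [h1 i hi, hw1 i hi]
      · rw [h2 i hi, hw2 i hi]
    · intro h1
      exact ⟨fun i hi => by rw [h1 i (Or.inl hi), hw1 i hi],
        fun i hi => by rw [h1 i (Or.inr hi), hw2 i hi]⟩
  have h1 := hS.tendsto_probabilityMeasure_of_tendsto_of_mem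
    (μ := fun t : ℕ => (⟨μ t, inferInstance⟩ : ProbabilityMeasure _))
    (ν := ⟨π, inferInstance⟩) (l := atTop) ?_ ?_ ?_
  · exact ProbabilityMeasure.tendsto_iff_forall_integral_tendsto.mp h1 f
  · rintro _ ⟨D, u, rfl⟩
    exact measurableSet_cyl D u
  · intro U hU x hx
    obtain ⟨I, v, h2, h3⟩ := isOpen_pi_iff.mp hU x hx
    refine ⟨cyl I x, ⟨I, x, rfl⟩, (isClopen_cyl I x).isOpen.mem_nhds (fun _ _ => rfl), ?_⟩
    intro y hy
    apply h3
    intro i hi
    rw [hy i hi]
    exact (h2 i hi).2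
  · rintro _ ⟨D, u, rfl⟩
    exact (ENNReal.tendsto_toNNReal (measure_ne_top π _)).comp (h D u)

theorem ext_cyl (m π : Measure ((Fin d → ℤ) → A)) [IsProbabilityMeasure m]
    [IsProbabilityMeasure π] (h : ∀ D u, m (cyl D u) = π (cyl D u)) : m = π := by
  have := borel_A (A := A)
  refine ext_of_forall_integral_eq_of_IsFiniteMeasure (fun f => ?_)
  have h1 := weak_of_cyl (fun _ => m) π (fun D u => by rw [h D u]; exact tendsto_const_nhds) f
  exact tendsto_nhds_unique tendsto_const_nhds h1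

theorem invariant_of_tendsto (μ π : Measure ((Fin d → ℤ) → A)) [IsProbabilityMeasure μ]
    [IsProbabilityMeasure π]
    (h : ∀ (D : Finset (Fin d → ℤ)) (u : (Fin d → ℤ) → A),
        Tendsto (fun t => evolve N φ t μ (cyl D u)) atTop (𝓝 (π (cyl D u)))) :
    IsInvariant N φ π := by
  refine ⟨inferInstance, ?_⟩
  have := bind_prob N φ π
  refine ext_cyl _ _ (fun D u => ?_)
  have hc : Continuous (fun x : (Fin d → ℤ) → A => (stepLaw N φ x (cyl D u)).toReal) := by
    simp only [stepLaw_cyl, ENNReal.toReal_prod]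
    refine continuous_finsetProd _ (fun i _ => ?_)
    exact (continuous_of_discreteTopology (f := fun w : N → A => (φ w (u i)).toReal)).comp
      (continuous_pi (fun v => continuous_apply _))
  have hm : Measurable (fun y => stepLaw N φ y (cyl D u)) :=
    (Measure.measurable_coe (measurableSet_cyl D u)).comp (measurable_stepLaw N φ)
  have hint : ∀ m : Measure ((Fin d → ℤ) → A),
      ∫ x, (BoundedContinuousFunction.mkOfCompact ⟨_, hc⟩) x ∂m =
        (m.bind (stepLaw N φ) (cyl D u)).toReal := by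
    intro m
    rw [Measure.bind_apply (measurableSet_cyl D u) (measurable_stepLaw N φ).aemeasurable,
      ← integral_toReal hm.aemeasurable (Eventually.of_forall (fun _ => measure_lt_top _ _))]
    rfl
  have h1 := weak_of_cyl (fun t => evolve N φ t μ) π h (BoundedContinuousFunction.mkOfCompact ⟨_, hc⟩)
  simp only [hint, ← evolve_succ] at h1
  rw [ENNReal.tendsto_toReal_iff (fun _ => measure_ne_top _ _) (measure_ne_top _ _)] at h1
  exact tendsto_nhds_unique h1 ((tendsto_add_atTop_iff_nat 1).mpr (h D u))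

theorem exists_uniformlyErgodic [Nonempty A]
    (h : ∀ (D : Finset (Fin d → ℤ)) (u : (Fin d → ℤ) → A) (ε : ℝ≥0∞), 0 < ε → ∃ T : ℕ, ∀ t, T ≤ t →
      ∀ x y, evolve N φ t (Measure.dirac x) (cyl D u) ≤
        evolve N φ t (Measure.dirac y) (cyl D u) + ε) :
    ∃ π, UniformlyErgodicWith N φ π := by
  have := borel_A (A := A)
  have h1 : ∀ (D : Finset (Fin d → ℤ)) (u : (Fin d → ℤ) → A) (ε : ℝ≥0∞), 0 < ε → ∃ T : ℕ,
      ∀ t, T ≤ t → ∀ μ μ' : Measure ((Fin d → ℤ) → A), IsProbabilityMeasure μ →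
        IsProbabilityMeasure μ' → evolve N φ t μ (cyl D u) ≤ evolve N φ t μ' (cyl D u) + ε := by
    intro D u ε hε
    obtain ⟨T, hT⟩ := h D u ε hε
    refine ⟨T, fun t ht μ μ' _ _ => ?_⟩
    have h2 := hT t ht
    simp only [evolve_dirac N φ _ _ (measurableSet_cyl D u)] at h2
    rw [evolve_apply N φ _ _ (measurableSet_cyl D u), evolve_apply N φ _ _ (measurableSet_cyl D u)]
    calc _ = ∫⁻ _, (∫⁻ x, (PCA.T N φ)^[t] ((cyl D u).indicator 1) x ∂μ) ∂μ' := by simp
      _ ≤ ∫⁻ y, ((PCA.T N φ)^[t] ((cyl D u).indicator 1) y + ε) ∂μ' := by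
          refine lintegral_mono (fun y => ?_)
          exact (lintegral_mono (fun x => h2 x y)).trans (by simp)
      _ = _ := by
          rw [lintegral_add_right _ measurable_const]
          simp
  obtain ⟨x₀⟩ : Nonempty ((Fin d → ℤ) → A) := inferInstance
  let ν : ℕ → ProbabilityMeasure ((Fin d → ℤ) → A) :=
    fun t => ⟨evolve N φ t (Measure.dirac x₀), inferInstance⟩
  let 𝒰 : Ultrafilter ℕ := Ultrafilter.of atTop
  have h𝒰 : (𝒰 : Filter ℕ) ≤ atTop := Ultrafilter.of_le _
  obtain ⟨π, -, hπ⟩ := isCompact_univ.ultrafilter_le_nhds (𝒰.map ν) (by simp)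
  have hπ' : Tendsto ν 𝒰 (𝓝 π) := hπ
  have h2 : ∀ (D : Finset (Fin d → ℤ)) (u : (Fin d → ℤ) → A),
      Tendsto (fun t => evolve N φ t (Measure.dirac x₀) (cyl D u)) 𝒰
        (𝓝 ((π : Measure _) (cyl D u))) := by
    intro D u
    have h3 := ProbabilityMeasure.tendsto_measure_of_isClopen_of_tendsto hπ' (isClopen_cyl D u)
    have h4 := ENNReal.tendsto_coe.mpr h3
    simp only [ProbabilityMeasure.ennreal_coeFn_eq_coeFn_toMeasure] at h4
    exact h4
  have h3 : ∀ (D : Finset (Fin d → ℤ)) (u : (Fin d → ℤ) → A) (ε : ℝ≥0∞), 0 < ε → ∃ T : ℕ,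
      ∀ t, T ≤ t → ∀ μ : Measure ((Fin d → ℤ) → A), IsProbabilityMeasure μ →
        evolve N φ t μ (cyl D u) ≤ (π : Measure _) (cyl D u) + ε ∧
        (π : Measure _) (cyl D u) ≤ evolve N φ t μ (cyl D u) + ε := by
    intro D u ε hε
    obtain ⟨T, hT⟩ := h1 D u ε hε
    refine ⟨T, fun t ht μ hμ => ⟨?_, ?_⟩⟩
    · refine ge_of_tendsto ((h2 D u).add_const ε) ?_
      filter_upwards [h𝒰 (eventually_ge_atTop t)] with s hs
      obtain ⟨r, rfl⟩ := Nat.exists_eq_add_of_le hs
      rw [evolve_add]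
      exact hT t ht _ _ hμ inferInstance
    · refine le_of_tendsto (h2 D u) ?_
      filter_upwards [h𝒰 (eventually_ge_atTop t)] with s hs
      obtain ⟨r, rfl⟩ := Nat.exists_eq_add_of_le hs
      rw [evolve_add]
      exact hT t ht _ _ inferInstance hμ
  have h4 : ∀ μ : Measure ((Fin d → ℤ) → A), IsProbabilityMeasure μ →
      ∀ (D : Finset (Fin d → ℤ)) (u : (Fin d → ℤ) → A),
        Tendsto (fun t => evolve N φ t μ (cyl D u)) atTop (𝓝 ((π : Measure _) (cyl D u))) := by
    intro μ hμ D u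
    rw [ENNReal.tendsto_nhds (measure_ne_top _ _)]
    intro ε hε
    obtain ⟨T, hT⟩ := h3 D u ε hε
    filter_upwards [eventually_ge_atTop T] with t ht
    exact ⟨tsub_le_iff_right.mpr (hT t ht μ hμ).2, (hT t ht μ hμ).1⟩
  refine ⟨π, ergodic_of_tendsto_cyl N φ (invariant_of_tendsto N φ (Measure.dirac x₀) _
    (h4 _ inferInstance)) h4, fun D u ε hε => ?_⟩
  obtain ⟨T, hT⟩ := h3 D u (ENNReal.ofReal ε) (by simpa using hε)
  refine ⟨T, fun t ht μ hμ => ?_⟩
  obtain ⟨k1, k2⟩ := hT t ht μ hμ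
  have k1' := ENNReal.toReal_mono
    (ENNReal.add_ne_top.mpr ⟨measure_ne_top _ _, ENNReal.ofReal_ne_top⟩) k1
  have k2' := ENNReal.toReal_mono
    (ENNReal.add_ne_top.mpr ⟨measure_ne_top _ _, ENNReal.ofReal_ne_top⟩) k2
  rw [ENNReal.toReal_add (measure_ne_top _ _) ENNReal.ofReal_ne_top,
    ENNReal.toReal_ofReal hε.le] at k1' k2'
  simp only [measureReal_def]
  rw [abs_le]
  constructor <;> linarith

end top

end Pool.Agent.H179Z.PCA
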