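import Pool.Agent.H179Z.PCABasic

/-!
The invariant measure of an ergodic probabilistic cellular automaton is shift invariant and
spatially mixing. Write `π = π Φ^t`; under `Φ^t (x, ·)` two far apart cylinders are independent,
and `Φ^t (x, [u]) → π [u]` for every `x`, hence in `L¹(π)`.
-/

set_option autoImplicit false
set_option linter.unusedSectionVars false

open MeasureTheory ProbabilityTheory Filter Topology
open scoped ENNReal Pointwise

namespace Pool.Agent.H179Z.PCA

variable {d : ℕ} {A : Type} [Fintype A] [MeasurableSpace A] [DiscreteMeasurableSpace A]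
  [TopologicalSpace A] [DiscreteTopology A]
variable (N : Finset (Fin d → ℤ)) (φ : (N → A) → PMF A)

theorem shift_invariant {π : Measure ((Fin d → ℤ) → A)} (h : ErgodicWith N φ π)
    (k : Fin d → ℤ) : π.map (shift k) = π := by
  have := h.1.1
  refine h.2.1 _ ⟨Measure.isProbabilityMeasure_map (measurable_shift k).aemeasurable, ?_⟩
  rw [bind_map_shift, h.1.2]

theorem mixing {π : Measure ((Fin d → ℤ) → A)} (h : ErgodicWith N φ π)
    (D E : Finset (Fin d → ℤ)) (u v : (Fin d → ℤ) → A) :
    Tendsto (fun k : Fin d → ℤ => π (cyl D u ∩ shift k ⁻¹' cyl E v))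
      (comap (fun k : Fin d → ℤ => ‖k‖) atTop) (𝓝 (π (cyl D u) * π (cyl E v))) := by
  classical
  have := h.1.1
  set α := π (cyl D u) with hα
  set β := π (cyl E v) with hβ
  have hα1 : α ≤ 1 := prob_le_one
  have hαt : α ≠ ∞ := measure_ne_top _ _
  let a : ℕ → ((Fin d → ℤ) → A) → ℝ≥0∞ := fun t => (T N φ)^[t] ((cyl D u).indicator 1)
  have ham : ∀ t, Measurable (a t) := fun t =>
    measurable_iter_T N φ (measurable_one.indicator (measurableSet_cyl D u)) t
  have hind : ∀ (s : Set ((Fin d → ℤ) → A)) (x : (Fin d → ℤ) → A),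
      s.indicator (1 : ((Fin d → ℤ) → A) → ℝ≥0∞) x ≤ 1 := by
    intro s x
    by_cases hx : x ∈ s <;> simp [hx]
  have ha1 : ∀ t x, a t x ≤ 1 := fun t x => iter_T_le_one N φ (hind _) t x
  have hlim : ∀ x, Tendsto (fun t => a t x) atTop (𝓝 α) := by
    intro x
    have h1 := tendsto_cyl_of_ergodic N φ h (Measure.dirac x) D u
    simp only [evolve_dirac N φ _ x (measurableSet_cyl D u)] at h1
    exact h1
  have hδ : Tendsto (fun t => ∫⁻ x, ((a t x - α) + (α - a t x)) ∂π) atTop (𝓝 0) := by
    have h1 := tendsto_lintegral_of_dominated_convergence (μ := π)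
      (F := fun t x => (a t x - α) + (α - a t x)) (f := fun _ => 0) (fun _ => 2)
      (fun t => ((ham t).sub measurable_const).add (measurable_const.sub (ham t)))
      (fun t => Eventually.of_forall (fun x => ?_)) (by simp) (Eventually.of_forall (fun x => ?_))
    · simpa using h1
    · have e : (2 : ℝ≥0∞) = 1 + 1 := by norm_num
      rw [e]
      exact add_le_add (tsub_le_self.trans (ha1 t x)) (tsub_le_self.trans hα1)
    · have h2 := ENNReal.Tendsto.sub (hlim x) (tendsto_const_nhds (x := α)) (Or.inl hαt)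
      have h3 := ENNReal.Tendsto.sub (tendsto_const_nhds (x := α)) (hlim x) (Or.inl hαt)
      simpa using h2.add h3
  obtain ⟨r, hr0, hr⟩ : ∃ r : ℝ, 0 ≤ r ∧ ∀ w ∈ N, ‖w‖ ≤ r :=
    ⟨∑ w ∈ N, ‖w‖, Finset.sum_nonneg (fun _ _ => norm_nonneg _),
      fun w hw => Finset.single_le_sum (f := fun w : Fin d → ℤ => ‖w‖)
        (fun _ _ => norm_nonneg _) hw⟩
  obtain ⟨s, hs⟩ : ∃ s : ℝ, ∀ w ∈ D ∪ E, ‖w‖ ≤ s :=
    ⟨∑ w ∈ D ∪ E, ‖w‖, fun w hw => Finset.single_le_sum (f := fun w : Fin d → ℤ => ‖w‖)
      (fun _ _ => norm_nonneg _) hw⟩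
  rw [ENNReal.tendsto_nhds (ENNReal.mul_ne_top hαt (measure_ne_top _ _))]
  intro ε hε
  obtain ⟨t, ht⟩ := ((tendsto_order.mp hδ).2 ε hε).exists
  have hev : ∀ᶠ k : Fin d → ℤ in comap (fun k : Fin d → ℤ => ‖k‖) atTop,
      2 * t * r + 2 * s < ‖k‖ := by
    have := eventually_gt_atTop (2 * t * r + 2 * s)
    exact tendsto_comap.eventually this
  filter_upwards [hev] with k hk
  let V := shift k ⁻¹' cyl E v
  have hV : V = cyl (E.image (fun i => i + k)) (fun i => v (i - k)) := preimage_shift_cyl k E v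
  have hVm : MeasurableSet V := measurable_shift k (measurableSet_cyl E v)
  let c : ((Fin d → ℤ) → A) → ℝ≥0∞ := (T N φ)^[t] (V.indicator 1)
  have hcm : Measurable c := measurable_iter_T N φ (measurable_one.indicator hVm) t
  have hc1 : ∀ x, c x ≤ 1 := fun x => iter_T_le_one N φ (hind _) t x
  have hcint : ∫⁻ x, c x ∂π = β := by
    rw [← evolve_apply N φ t π hVm, evolve_invariant N φ h.1,
      ← Measure.map_apply (measurable_shift k) (measurableSet_cyl E v), shift_invariant N φ h]
  have hprod : π (cyl D u ∩ V) = ∫⁻ x, a t x * c x ∂π := by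
    conv_lhs => rw [← evolve_invariant N φ h.1 t]
    rw [evolve_apply N φ t π ((measurableSet_cyl D u).inter hVm), Set.inter_indicator_one,
      iter_T_mul N φ r hr0 hr t (dependsOn_cyl D u) (E := E.image (fun i => i + k))
        (by rw [hV]; exact dependsOn_cyl _ _)]
    · rfl
    · intro p hp q hq
      obtain ⟨q', hq', rfl⟩ := Finset.mem_image.mp hq
      have h1 := hs p (Finset.mem_union_left _ hp)
      have h2 := hs q' (Finset.mem_union_right _ hq')
      have h3 : k = (p - q') - (p - (q' + k)) := by abel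
      have h4 : ‖k‖ ≤ (‖p‖ + ‖q'‖) + ‖p - (q' + k)‖ := by
        conv_lhs => rw [h3]
        exact (norm_sub_le _ _).trans (add_le_add (norm_sub_le _ _) le_rfl)
      linarith
  have hβ' : α * β = ∫⁻ x, α * c x ∂π := by
    rw [lintegral_const_mul _ hcm, hcint]
  change π (cyl D u ∩ V) ∈ _
  rw [hprod, hβ']
  constructor
  · rw [tsub_le_iff_right]
    refine le_trans ?_ (add_le_add le_rfl ht.le)
    rw [← lintegral_add_left (f := fun x => a t x * c x) ((ham t).mul hcm)]
    refine lintegral_mono (fun x => ?_)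
    calc α * c x ≤ (a t x + (α - a t x)) * c x := mul_le_mul_left le_add_tsub _
      _ = a t x * c x + (α - a t x) * c x := add_mul _ _ _
      _ ≤ a t x * c x + (α - a t x) := add_le_add le_rfl (mul_le_of_le_one_right' (hc1 x))
      _ ≤ _ := add_le_add le_rfl le_add_self
  · refine le_trans ?_ (add_le_add le_rfl ht.le)
    rw [← lintegral_add_left (f := fun x => α * c x) (hcm.const_mul α)]
    refine lintegral_mono (fun x => ?_)
    calc a t x * c x ≤ (α + (a t x - α)) * c x := mul_le_mul_left le_add_tsub _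
      _ = α * c x + (a t x - α) * c x := add_mul _ _ _
      _ ≤ α * c x + (a t x - α) := add_le_add le_rfl (mul_le_of_le_one_right' (hc1 x))
      _ ≤ _ := add_le_add le_rfl le_self_add

end Pool.Agent.H179Z.PCA
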