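import Mathlib

/-!
A Peierls bound through closed space-time walks (Toom cycles) for a two-sided eroder.

Points are triples `(t, x, y)`. A wrong point that is not a noise point has a wrong predecessor in
column `x` and a wrong predecessor in column `x + 1`, one time step earlier. Every wrong point is
then the base point of a closed walk of length `4 m - 3` carrying `m` distinct noise points.
-/

set_option autoImplicit false

open MeasureTheory
open scoped ENNReal

namespace Pool.Agent.H179Z.ToomCycle

abbrev Pt := ℤ × ℤ × ℤ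

/-- The eight steps: two down steps, two up steps, three forks and a mark. -/
def vec (s : Fin 8) : Pt :=
  ![(-1, 0, 0), (-1, 0, 1), (1, -1, 0), (1, -1, -1), (0, 1, -1), (0, 1, 0), (0, 1, 1), (0, 0, 0)] s

def disp (l : List (Fin 8)) : Pt := (l.map vec).sum

def marks : Pt → List (Fin 8) → List Pt
  | _, [] => []
  | p, s :: l => if s = 7 then p :: marks p l else marks (p + vec s) l

def run : Bool → List (Fin 8) → Option Bool
  | b, [] => some b
  | b, s :: l =>
    if s = 7 then (if b then none else run true l)
    else if 4 ≤ s then (if b then run false l else none) else run b l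

theorem vec7 : vec 7 = 0 := rfl

theorem disp_nil : disp [] = 0 := rfl

theorem disp_cons (s : Fin 8) (l : List (Fin 8)) : disp (s :: l) = vec s + disp l := by
  simp [disp]

theorem disp_append (l₁ l₂ : List (Fin 8)) : disp (l₁ ++ l₂) = disp l₁ + disp l₂ := by
  simp [disp]

theorem marks_cons7 (p : Pt) (l : List (Fin 8)) : marks p (7 :: l) = p :: marks p l := by
  simp [marks]

theorem marks_cons_ne (p : Pt) (s : Fin 8) (hs : s ≠ 7) (l : List (Fin 8)) :
    marks p (s :: l) = marks (p + vec s) l := by
  simp [marks, hs]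

theorem marks_append (l₁ l₂ : List (Fin 8)) (p : Pt) :
    marks p (l₁ ++ l₂) = marks p l₁ ++ marks (p + disp l₁) l₂ := by
  induction l₁ generalizing p with
  | nil => simp [marks, disp_nil]
  | cons s l ih =>
    by_cases hs : s = 7
    · subst hs
      rw [List.cons_append, marks_cons7, marks_cons7, ih, disp_cons, vec7, zero_add,
        List.cons_append]
    · rw [List.cons_append, marks_cons_ne _ _ hs, marks_cons_ne _ _ hs, ih, disp_cons, add_assoc]

theorem run_append (l₁ l₂ : List (Fin 8)) (b : Bool) :
    run b (l₁ ++ l₂) = (run b l₁).bind (fun c => run c l₂) := by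
  induction l₁ generalizing b with
  | nil => simp [run]
  | cons s l ih =>
    simp only [List.cons_append, run]
    split_ifs <;> simp [ih]

theorem run_seven (b : Bool) (l : List (Fin 8)) (c : Bool) (h : run b (7 :: l) = some c) :
    b = false ∧ run true l = some c := by
  cases b <;> simp_all [run]

theorem run_split (l₁ l₂ : List (Fin 8)) (b c : Bool) (h : run b (l₁ ++ 7 :: l₂) = some c) :
    run b l₁ = some false ∧ run true l₂ = some c := by
  rw [run_append] at h
  cases h1 : run b l₁ with
  | none => simp [h1] at h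
  | some e =>
    rw [h1] at h
    obtain ⟨h2, h3⟩ := run_seven e l₂ c h
    exact ⟨by rw [h2], h3⟩

theorem mem_marks (l : List (Fin 8)) (p w : Pt) (h : w ∈ marks p l) :
    ∃ l₁ l₂, l = l₁ ++ 7 :: l₂ ∧ p + disp l₁ = w := by
  induction l generalizing p with
  | nil => simp [marks] at h
  | cons s l ih =>
    by_cases hs : s = 7
    · subst hs
      rw [marks_cons7, List.mem_cons] at h
      rcases h with h | h
      · exact ⟨[], l, rfl, by rw [disp_nil, add_zero, h]⟩
      · obtain ⟨l₁, l₂, h1, h2⟩ := ih p h
        exact ⟨7 :: l₁, l₂, by rw [h1]; rfl, by rw [disp_cons, vec7, zero_add, h2]⟩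
    · rw [marks_cons_ne _ _ hs] at h
      obtain ⟨l₁, l₂, h1, h2⟩ := ih _ h
      exact ⟨s :: l₁, l₂, by rw [h1]; rfl, by rw [disp_cons, ← add_assoc, h2]⟩

theorem not_nodup_marks (l : List (Fin 8)) (p : Pt) (h : ¬ (marks p l).Nodup) :
    ∃ l₁ l₂ l₃, l = l₁ ++ 7 :: (l₂ ++ 7 :: l₃) ∧ disp l₂ = 0 := by
  induction l generalizing p with
  | nil => simp [marks] at h
  | cons s l ih =>
    by_cases hs : s = 7
    · subst hs
      rw [marks_cons7, List.nodup_cons, not_and_or, not_not] at h
      rcases h with h | h
      · obtain ⟨l₁, l₂, h1, h2⟩ := mem_marks l p p h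
        exact ⟨[], l₁, l₂, by rw [h1]; rfl, by simpa using h2⟩
      · obtain ⟨l₁, l₂, l₃, h1, h2⟩ := ih p h
        exact ⟨7 :: l₁, l₂, l₃, by rw [h1]; rfl, h2⟩
    · rw [marks_cons_ne _ _ hs] at h
      obtain ⟨l₁, l₂, l₃, h1, h2⟩ := ih _ h
      exact ⟨s :: l₁, l₂, l₃, by rw [h1]; rfl, h2⟩

def bz (b : Bool) : ℤ := if b then 1 else 0

theorem length_eq (l : List (Fin 8)) (p : Pt) (b c : Bool) (h : run b l = some c) :
    (l.length : ℤ) + 2 * (disp l).2.1 + (disp l).1 + 3 * (bz c - bz b) =
      4 * ((marks p l).length : ℤ) := by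
  induction l generalizing p b with
  | nil =>
    simp only [run, Option.some.injEq] at h
    subst h
    simp [disp_nil, marks]
  | cons s l ih =>
    rw [disp_cons]
    have e0 : bz false = 0 := rfl
    have e1 : bz true = 1 := rfl
    by_cases hs : s = 7
    · subst hs
      obtain ⟨rfl, h2⟩ := run_seven b l c h
      have := ih p _ h2
      rw [marks_cons7, vec7]
      simp at this ⊢
      omega
    · rw [marks_cons_ne _ _ hs]
      by_cases h4 : 4 ≤ s
      · have hv : 2 * (vec s).2.1 + (vec s).1 = 2 :=
          (by decide : ∀ s : Fin 8, s ≠ 7 → 4 ≤ s → 2 * (vec s).2.1 + (vec s).1 = 2) s hs h4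
        cases b
        · simp [run, hs, h4] at h
        · simp only [run, hs, h4, if_true, if_false] at h
          have := ih (p + vec s) _ h
          simp at this ⊢
          omega
      · have hv : 2 * (vec s).2.1 + (vec s).1 = -1 :=
          (by decide : ∀ s : Fin 8, ¬ 4 ≤ s → 2 * (vec s).2.1 + (vec s).1 = -1) s h4
        simp only [run, hs, h4, if_false] at h
        have := ih (p + vec s) _ h
        simp at this ⊢
        omega

def pot (p : Pt) (l : List (Fin 8)) : ℕ := ((marks p l).map (fun w => 3 ^ w.1.toNat)).sum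

theorem exists_walk (W S : Pt → Prop) (h0 : ∀ w, W w → 0 ≤ w.1)
    (hs : ∀ t x y, W (t, x, y) → S (t, x, y) ∨
      ((W (t - 1, x, y) ∨ W (t - 1, x, y + 1)) ∧ (W (t - 1, x + 1, y) ∨ W (t - 1, x + 1, y + 1))))
    (r : Pt) (hr : W r) :
    ∃ l, run false l = some true ∧ disp l = 0 ∧ (∀ w ∈ marks r l, S w) ∧ (marks r l).Nodup := by
  have key : ∀ n : ℕ, ∀ l, pot r l = n → run false l = some true → disp l = 0 →
      (∀ w ∈ marks r l, W w) →
      ∃ l, run false l = some true ∧ disp l = 0 ∧ (∀ w ∈ marks r l, S w) ∧ (marks r l).Nodup := by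
    intro n
    induction n using Nat.strong_induction_on with
    | _ n ih =>
      intro l hn h1 h2 h3
      by_cases hS : ∀ w ∈ marks r l, S w
      · by_cases hN : (marks r l).Nodup
        · exact ⟨l, h1, h2, hS, hN⟩
        · obtain ⟨l₁, l₂, l₃, rfl, hd⟩ := not_nodup_marks l r hN
          obtain ⟨g1, g2⟩ := run_split _ _ _ _ h1
          obtain ⟨g3, g4⟩ := run_split _ _ _ _ g2
          have hm : marks r (l₁ ++ 7 :: (l₂ ++ 7 :: l₃)) = marks r l₁ ++ (r + disp l₁) ::
              (marks (r + disp l₁) l₂ ++ (r + disp l₁) :: marks (r + disp l₁) l₃) := by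
            rw [marks_append, marks_cons7, marks_append, marks_cons7, hd, add_zero]
          have hm' : marks r (l₁ ++ 7 :: l₃) = marks r l₁ ++ (r + disp l₁) ::
              marks (r + disp l₁) l₃ := by
            rw [marks_append, marks_cons7]
          refine ih (pot r (l₁ ++ 7 :: l₃)) ?_ _ rfl ?_ ?_ ?_
          · rw [← hn, pot, pot, hm, hm']
            simp only [List.map_append, List.map_cons, List.sum_append, List.sum_cons]
            have : 0 < 3 ^ (r + disp l₁).1.toNat := by positivity
            omega
          · rw [run_append, g1]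
            simpa [run] using g4
          · rw [disp_append, disp_cons, disp_append, disp_cons, hd, vec7] at h2
            rw [disp_append, disp_cons, vec7]
            simpa using h2
          · intro w hw
            apply h3
            rw [hm]
            rw [hm'] at hw
            simp only [List.mem_append, List.mem_cons] at hw ⊢
            tauto
      · push Not at hS
        obtain ⟨w, hw, hnS⟩ := hS
        obtain ⟨l₁, l₂, rfl, hd⟩ := mem_marks l r w hw
        obtain ⟨g1, g2⟩ := run_split _ _ _ _ h1
        obtain ⟨t, x, y⟩ := w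
        have hm : marks r (l₁ ++ 7 :: l₂) = marks r l₁ ++ (t, x, y) :: marks (t, x, y) l₂ := by
          rw [marks_append, marks_cons7, hd]
        have hW := h3 _ hw
        obtain ⟨ha, hb⟩ := (hs t x y hW).resolve_left hnS
        have fin : ∀ (s₁ s₂ s₃ : Fin 8) (a b : Pt), s₁ < 4 → 4 ≤ s₂ → s₂ ≠ 7 → s₃ < 4 →
            (t, x, y) + vec s₁ = a → a + vec s₂ = b → b + vec s₃ = (t, x, y) →
            a.1 = t - 1 → b.1 = t - 1 → W a → W b →
            ∃ l, run false l = some true ∧ disp l = 0 ∧ (∀ w ∈ marks r l, S w) ∧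
              (marks r l).Nodup := by
          intro s₁ s₂ s₃ a b k1 k2 k2' k3 e1 e2 e3 ta tb wa wb
          have n1 : s₁ ≠ 7 := by omega
          have n3 : s₃ ≠ 7 := by omega
          have n1' : ¬ 4 ≤ s₁ := by omega
          have n3' : ¬ 4 ≤ s₃ := by omega
          have hm' : marks r (l₁ ++ s₁ :: 7 :: s₂ :: 7 :: s₃ :: l₂) =
              marks r l₁ ++ a :: b :: marks (t, x, y) l₂ := by
            rw [marks_append, hd, marks_cons_ne _ _ n1, e1, marks_cons7, marks_cons_ne _ _ k2', e2,
              marks_cons7, marks_cons_ne _ _ n3, e3]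
          refine ih (pot r (l₁ ++ s₁ :: 7 :: s₂ :: 7 :: s₃ :: l₂)) ?_ _ rfl ?_ ?_ ?_
          · rw [← hn, pot, pot, hm, hm']
            simp only [List.map_append, List.map_cons, List.sum_append, List.sum_cons]
            have h00 := h0 a wa
            have : t.toNat = (t - 1).toNat + 1 := by omega
            rw [ta, tb, this, pow_succ]
            have : 0 < 3 ^ (t - 1).toNat := by positivity
            omega
          · rw [run_append, g1]
            simpa [run, n1, n3, n1', n3', k2, k2'] using g2
          · rw [disp_append, disp_cons, vec7, zero_add] at h2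
            rw [disp_append]
            simp only [disp_cons, vec7, zero_add]
            have : vec s₁ + vec s₂ + vec s₃ = 0 := by
              have : (t, x, y) + (vec s₁ + vec s₂ + vec s₃) = (t, x, y) + 0 := by
                rw [← add_assoc, ← add_assoc, e1, e2, e3, add_zero]
              exact add_left_cancel this
            rw [← add_assoc (vec s₁), ← add_assoc (vec s₁ + vec s₂), this, zero_add]
            exact h2
          · intro w hw
            rw [hm'] at hw
            simp only [List.mem_append, List.mem_cons] at hw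
            rcases hw with hw | rfl | rfl | hw
            · apply h3; rw [hm]; simp [hw]
            · exact wa
            · exact wb
            · apply h3; rw [hm]; simp [hw]
        rcases ha with ha | ha <;> rcases hb with hb | hb
        · exact fin 0 5 2 _ _ (by decide) (by decide) (by decide) (by decide)
            (by simp [vec]; ring) (by simp [vec]) (by simp [vec]) rfl rfl ha hb
        · exact fin 0 6 3 _ _ (by decide) (by decide) (by decide) (by decide)
            (by simp [vec]; ring) (by simp [vec]) (by simp [vec]) rfl rfl ha hb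
        · exact fin 1 4 2 _ _ (by decide) (by decide) (by decide) (by decide)
            (by simp [vec]; ring) (by simp [vec]) (by simp [vec]) rfl rfl ha hb
        · exact fin 1 5 3 _ _ (by decide) (by decide) (by decide) (by decide)
            (by simp [vec]; ring) (by simp [vec]) (by simp [vec]) rfl rfl ha hb
  refine key _ [7] rfl (by simp [run]) (by simp [disp, vec7]) ?_
  intro w hw
  simp only [marks, if_true, List.mem_singleton] at hw
  rw [hw]
  exact hr

theorem tsum_lists : ∑' l : List (Fin 8), (1 / 16 : ℝ≥0∞) ^ l.length = 2 := by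
  rw [← (List.equivSigmaTuple (α := Fin 8)).symm.tsum_eq, ENNReal.tsum_sigma']
  have h1 : ∀ n : ℕ, ∑' f : Fin n → Fin 8,
      (1 / 16 : ℝ≥0∞) ^ ((List.equivSigmaTuple (α := Fin 8)).symm ⟨n, f⟩).length =
        (2⁻¹ : ℝ≥0∞) ^ n := by
    intro n
    have h2 : ∀ f : Fin n → Fin 8,
        ((List.equivSigmaTuple (α := Fin 8)).symm ⟨n, f⟩).length = n := by
      intro f
      simp [List.equivSigmaTuple]
    simp only [h2]
    rw [tsum_fintype, Finset.sum_const, Finset.card_univ, Fintype.card_fun, Fintype.card_fin,
      Fintype.card_fin, nsmul_eq_mul]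
    push_cast
    rw [← mul_pow]
    congr 1
    rw [one_div, show (16 : ℝ≥0∞) = 8 * 2 by norm_num, ENNReal.mul_inv (by simp) (by simp),
      ← mul_assoc, ENNReal.mul_inv_cancel (by simp) (by simp), one_mul]
  simp only [h1]
  exact ENNReal.tsum_geometric_two

/-- The Peierls bound. -/
theorem peierls {Ω : Type*} [MeasurableSpace Ω] (Q : Measure Ω) (W S : Ω → Pt → Prop)
    (h0 : ∀ ω w, W ω w → 0 ≤ w.1)
    (hs : ∀ ω t x y, W ω (t, x, y) → S ω (t, x, y) ∨
      ((W ω (t - 1, x, y) ∨ W ω (t - 1, x, y + 1)) ∧
        (W ω (t - 1, x + 1, y) ∨ W ω (t - 1, x + 1, y + 1))))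
    (hQ : ∀ K : Finset Pt, Q {ω | ∀ w ∈ K, S ω w} ≤ ((1 / 16 : ℝ≥0∞) ^ 4) ^ K.card)
    (r : Pt) : Q {ω | W ω r} ≤ 1 / 4 := by
  classical
  let A : List (Fin 8) → Set Ω := fun l =>
    {ω | run false l = some true ∧ disp l = 0 ∧ (∀ w ∈ marks r l, S ω w) ∧ (marks r l).Nodup}
  have h1 : {ω | W ω r} ⊆ ⋃ l, A l := by
    intro ω hω
    obtain ⟨l, hl⟩ := exists_walk (W ω) (S ω) (h0 ω) (hs ω) r hω
    exact Set.mem_iUnion.mpr ⟨l, hl⟩
  have h2 : ∀ l, Q (A l) ≤ (1 / 16 : ℝ≥0∞) ^ 3 * (1 / 16 : ℝ≥0∞) ^ l.length := by
    intro l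
    by_cases hl : run false l = some true ∧ disp l = 0 ∧ (marks r l).Nodup
    · obtain ⟨k1, k2, k3⟩ := hl
      have h3 : A l ⊆ {ω | ∀ w ∈ (marks r l).toFinset, S ω w} := by
        intro ω hω w hw
        exact hω.2.2.1 w (List.mem_toFinset.mp hw)
      refine (measure_mono h3).trans ((hQ _).trans (le_of_eq ?_))
      rw [List.toFinset_card_of_nodup k3, ← pow_mul, ← pow_add]
      congr 1
      have := length_eq l r false true k1
      rw [k2] at this
      simp [bz] at this
      omega
    · have : A l = ∅ := by
        ext ω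
        simp only [A, Set.mem_ofPred_eq, Set.mem_empty_iff_false, iff_false]
        tauto
      rw [this, measure_empty]
      exact bot_le
  refine (measure_mono h1).trans ((measure_iUnion_le A).trans ?_)
  refine (ENNReal.tsum_le_tsum h2).trans ?_
  rw [ENNReal.tsum_mul_left, tsum_lists]
  have e : (1 / 16 : ℝ≥0∞) ^ 3 * 2 = ((1 / 2048 : NNReal) : ℝ≥0∞) := by
    have : (1 / 16 : ℝ≥0∞) = ((1 / 16 : NNReal) : ℝ≥0∞) := by
      rw [ENNReal.coe_div (by norm_num)]; rfl
    rw [this]
    norm_cast
    norm_num
  have e2 : (1 / 4 : ℝ≥0∞) = ((1 / 4 : NNReal) : ℝ≥0∞) := by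
    rw [ENNReal.coe_div (by norm_num)]; rfl
  rw [e, e2, ENNReal.coe_le_coe]
  rw [← NNReal.coe_le_coe]
  norm_num

end Pool.Agent.H179Z.ToomCycle
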